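import Pool.Agent.Helper32.MF.Basic

/-!
# Affine substitutions and monotone functions of a phase
-/

open MeasureTheory Set Filter Complex Matrix
open scoped ENNReal NNReal Topology Real

namespace Pool.Agent.Helper32.MF

variable {n : ℕ}

/-- The integral over the preimage of a lower set of levels is bounded by the maximal function. -/
lemma enorm_lowerSet_le {φ : P n → ℝ} (hφ : Measurable φ) {G : P n → ℂ} (hG : Integrable G)
    {L : Set ℝ} (hL : IsLowerSet L) (x : P n) :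
    ‖∫ ζ in φ ⁻¹' L, G ζ * ch x ζ‖ₑ ≤ ⨆ t : ℝ, ‖psum φ G t x‖ₑ := by
  rcases L.eq_empty_or_nonempty with h0 | hne
  · subst h0
    simp
  -- a monotone cofinal sequence
  have hseq : ∃ u : ℕ → ℝ, Monotone u ∧ (∀ k, u k ∈ L) ∧ ∀ y ∈ L, ∃ k, y ≤ u k := by
    by_cases hb : BddAbove L
    · by_cases hs : sSup L ∈ L
      · exact ⟨fun _ => sSup L, monotone_const, fun _ => hs, fun y hy => ⟨0, le_csSup hb hy⟩⟩
      · obtain ⟨u, hu1, hu2, hu3⟩ := exists_seq_tendsto_sSup hne hb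
        refine ⟨u, hu1, hu3, fun y hy => ?_⟩
        have hlt : y < sSup L := lt_of_le_of_ne (le_csSup hb hy) fun h => hs (h ▸ hy)
        obtain ⟨k, hk⟩ := (hu2.eventually (lt_mem_nhds hlt)).exists
        exact ⟨k, hk.le⟩
    · have huniv : L = univ := eq_univ_of_forall fun y => by
        obtain ⟨z, hz, hyz⟩ := not_bddAbove_iff.1 hb y
        exact hL hyz.le hz
      subst huniv
      exact ⟨fun k => k, Nat.mono_cast, fun _ => mem_univ _, fun y _ => exists_nat_ge y⟩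
  obtain ⟨u, hu1, hu2, hu3⟩ := hseq
  have hset : φ ⁻¹' L = ⋃ k, {ζ | φ ζ ≤ u k} := by
    ext ζ
    simp only [mem_preimage, mem_iUnion, mem_ofPred_eq]
    constructor
    · intro h
      exact hu3 _ h
    · rintro ⟨k, hk⟩
      exact hL hk (hu2 k)
  have hlim : Tendsto (fun k => psum φ G (u k) x) atTop (𝓝 (∫ ζ in φ ⁻¹' L, G ζ * ch x ζ)) := by
    unfold psum
    rw [hset]
    refine tendsto_setIntegral_of_monotone ?_ ?_ ?_
    · intro k
      exact measurableSet_le hφ measurable_const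
    · intro i j hij ζ h
      exact le_trans (by exact h) (hu1 hij)
    · exact (integrable_mul_ch hG x).integrableOn
  have h2 : Tendsto (fun k => ‖psum φ G (u k) x‖ₑ) atTop
      (𝓝 ‖∫ ζ in φ ⁻¹' L, G ζ * ch x ζ‖ₑ) :=
    (continuous_enorm.tendsto _).comp hlim
  exact le_of_tendsto' h2 fun k => le_iSup (fun t : ℝ => ‖psum φ G t x‖ₑ) (u k)

/-- **Monotone functions of a phase.** -/
theorem good_monotone_comp {φ : P n → ℝ} (hφ : Measurable φ) {C : ℝ≥0∞} (h : Good φ C)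
    {g : ℝ → ℝ} (hg : Monotone g) : Good (fun ζ => g (φ ζ)) C := by
  intro G hG1 hG2
  refine le_trans ?_ (h G hG1 hG2)
  have hG : Integrable G := memLp_one_iff_integrable.1 hG1
  refine lintegral_mono fun x => pow_le_pow_left' (iSup_le fun t => ?_) 2
  have hL : IsLowerSet (g ⁻¹' Iic t) := by
    intro a b hab ha
    exact (hg hab).trans ha
  exact enorm_lowerSet_le hφ hG hL x

/-- the affine map `ζ ↦ M ζ + b` -/
def aff (M : Matrix (Fin n) (Fin n) ℝ) (b : P n) (ζ : P n) : P n := M *ᵥ ζ + b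

lemma continuous_aff (M : Matrix (Fin n) (Fin n) ℝ) (b : P n) : Continuous (aff M b) := by
  unfold aff
  exact (continuous_const.matrix_mulVec continuous_id).add continuous_const

lemma aff_leftInv {M : Matrix (Fin n) (Fin n) ℝ} (hM : M.det ≠ 0) (b ζ : P n) :
    M⁻¹ *ᵥ (aff M b ζ - b) = ζ := by
  have hu : IsUnit M.det := isUnit_iff_ne_zero.2 hM
  rw [aff, add_sub_cancel_right, mulVec_mulVec, nonsing_inv_mul _ hu, one_mulVec]

lemma aff_rightInv {M : Matrix (Fin n) (Fin n) ℝ} (hM : M.det ≠ 0) (b η : P n) :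
    aff M b (M⁻¹ *ᵥ (η - b)) = η := by
  have hu : IsUnit M.det := isUnit_iff_ne_zero.2 hM
  rw [aff, mulVec_mulVec, mul_nonsing_inv _ hu, one_mulVec, sub_add_cancel]

lemma aff_injective {M : Matrix (Fin n) (Fin n) ℝ} (hM : M.det ≠ 0) (b : P n) :
    Function.Injective (aff M b) := fun ζ η h => by
  rw [← aff_leftInv hM b ζ, h, aff_leftInv hM b η]

lemma embedding_aff {M : Matrix (Fin n) (Fin n) ℝ} (hM : M.det ≠ 0) (b : P n) :
    MeasurableEmbedding (aff M b) :=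
  (continuous_aff M b).measurableEmbedding (aff_injective hM b)

lemma map_aff {M : Matrix (Fin n) (Fin n) ℝ} (hM : M.det ≠ 0) (b : P n) :
    Measure.map (aff M b) volume = ENNReal.ofReal |M.det⁻¹| • volume := by
  have h1 : aff M b = (fun ζ => ζ + b) ∘ (toLin' M) := by
    ext ζ
    simp [aff]
  have hc : Measurable (toLin' M) := (toLin' M).continuous_of_finiteDimensional.measurable
  rw [h1, ← Measure.map_map (measurable_add_const b) hc,
    Real.map_matrix_volume_pi_eq_smul_volume_pi hM, Measure.map_smul,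
    map_add_right_eq_self]

lemma dot_aff {M : Matrix (Fin n) (Fin n) ℝ} (hM : M.det ≠ 0) (b x ζ : P n) :
    x ⬝ᵥ ζ = ((M⁻¹)ᵀ *ᵥ x) ⬝ᵥ (aff M b ζ) - ((M⁻¹)ᵀ *ᵥ x) ⬝ᵥ b := by
  have hu : IsUnit M.det := isUnit_iff_ne_zero.2 hM
  rw [aff, dotProduct_add, add_sub_cancel_right, mulVec_transpose, ← dotProduct_mulVec,
    mulVec_mulVec, nonsing_inv_mul _ hu, one_mulVec]

lemma ch_aff {M : Matrix (Fin n) (Fin n) ℝ} (hM : M.det ≠ 0) (b x ζ : P n) :
    ch x ζ = ch ((M⁻¹)ᵀ *ᵥ x) (aff M b ζ) * ch ((M⁻¹)ᵀ *ᵥ x) (-b) := by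
  rw [ch, ch, ch, ← Complex.exp_add, dot_aff hM b x ζ, dotProduct_neg]
  congr 1
  push_cast
  ring

lemma psum_aff {M : Matrix (Fin n) (Fin n) ℝ} (hM : M.det ≠ 0) (b : P n) {φ : P n → ℝ}
    (hφ : Measurable φ) (g : P n → ℂ) (t : ℝ) (x : P n) :
    psum (fun ζ => φ (aff M b ζ)) (fun ζ => g (aff M b ζ)) t x =
      (|M.det⁻¹| : ℝ) • (ch ((M⁻¹)ᵀ *ᵥ x) (-b) * psum φ g t ((M⁻¹)ᵀ *ᵥ x)) := by
  set y := (M⁻¹)ᵀ *ᵥ x
  have h1 : psum (fun ζ => φ (aff M b ζ)) (fun ζ => g (aff M b ζ)) t x =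
      ∫ ζ, ({η | φ η ≤ t}.indicator (fun η => g η * ch y η * ch y (-b))) (aff M b ζ) := by
    unfold psum
    rw [← integral_indicator]
    · refine integral_congr_ae (Eventually.of_forall fun ζ => ?_)
      simp only [indicator, mem_ofPred_eq]
      split_ifs with h
      · rw [ch_aff hM b x ζ, mul_assoc]
      · rfl
    · exact measurableSet_le (hφ.comp (continuous_aff M b).measurable) measurable_const
  rw [h1, ← (embedding_aff hM b).integral_map, map_aff hM b, integral_smul_measure,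
    ENNReal.toReal_ofReal (abs_nonneg _), integral_indicator (measurableSet_le hφ measurable_const)]
  congr 1
  unfold psum
  rw [integral_mul_const, mul_comm]

lemma lintegral_aff {M : Matrix (Fin n) (Fin n) ℝ} (hM : M.det ≠ 0) (b : P n) (F : P n → ℝ≥0∞) :
    ∫⁻ ζ, F (aff M b ζ) = ENNReal.ofReal |M.det⁻¹| * ∫⁻ η, F η := by
  rw [← (embedding_aff hM b).lintegral_map, map_aff hM b, lintegral_smul_measure, smul_eq_mul]

lemma memLp_aff_iff {M : Matrix (Fin n) (Fin n) ℝ} (hM : M.det ≠ 0) (b : P n) {g : P n → ℂ}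
    {p : ℝ≥0∞} (hg : MemLp g p) : MemLp (fun ζ => g (aff M b ζ)) p := by
  have h1 : MemLp g p (Measure.map (aff M b) volume) := by
    rw [map_aff hM b]
    exact hg.smul_measure ENNReal.ofReal_ne_top
  exact ((embedding_aff hM b).memLp_map_measure_iff).1 h1

/-- **Affine substitutions.** -/
theorem good_aff {φ : P n → ℝ} (hφ : Measurable φ) {C : ℝ≥0∞} (h : Good φ C)
    {M : Matrix (Fin n) (Fin n) ℝ} (hM : M.det ≠ 0) (b : P n) :
    Good (fun ζ => φ (aff M b ζ)) C := by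
  intro G hG1 hG2
  set g : P n → ℂ := fun η => G (M⁻¹ *ᵥ (η - b)) with hg
  have hu : IsUnit M.det := isUnit_iff_ne_zero.2 hM
  have hGg : G = fun ζ => g (aff M b ζ) := by
    ext ζ
    rw [hg]
    simp only
    rw [aff_leftInv hM b ζ]
  -- `g` is `G` composed with an affine map
  have hM' : (M⁻¹).det ≠ 0 := by
    rw [det_nonsing_inv, Ring.inverse_eq_inv']
    exact inv_ne_zero hM
  have hgaff : g = fun η => G (aff M⁻¹ (-(M⁻¹ *ᵥ b)) η) := by
    ext η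
    rw [hg]
    simp only [aff]
    rw [mulVec_sub, sub_eq_add_neg]
  have hg1 : MemLp g 1 := by rw [hgaff]; exact memLp_aff_iff hM' _ hG1
  have hg2 : MemLp g 2 := by rw [hgaff]; exact memLp_aff_iff hM' _ hG2
  set a : ℝ≥0∞ := ENNReal.ofReal |M.det⁻¹| with ha
  have hnorm : ∀ t x, ‖psum (fun ζ => φ (aff M b ζ)) G t x‖ₑ =
      a * ‖psum φ g t ((M⁻¹)ᵀ *ᵥ x)‖ₑ := by
    intro t x
    rw [hGg, psum_aff hM b hφ g t x, enorm_smul, enorm_mul]
    congr 1
    · rw [Real.enorm_eq_ofReal_abs, abs_abs]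
    · have : ‖ch ((M⁻¹)ᵀ *ᵥ x) (-b)‖ₑ = 1 := by
        rw [← ofReal_norm, norm_ch, ENNReal.ofReal_one]
      rw [this, one_mul]
  have hMt : ((M⁻¹)ᵀ).det ≠ 0 := by rw [det_transpose]; exact hM'
  have hdet : ENNReal.ofReal |((M⁻¹)ᵀ).det⁻¹| = ENNReal.ofReal |M.det| := by
    rw [det_transpose, det_nonsing_inv, Ring.inverse_eq_inv', inv_inv]
  have hx : ∀ F : P n → ℝ≥0∞, ∫⁻ x, F ((M⁻¹)ᵀ *ᵥ x) = ENNReal.ofReal |M.det| * ∫⁻ y, F y := by
    intro F
    have := lintegral_aff hMt 0 F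
    simp only [aff, add_zero] at this
    rw [this, hdet]
  have haM : a * ENNReal.ofReal |M.det| = 1 := by
    rw [ha, ← ENNReal.ofReal_mul (abs_nonneg _), ← abs_mul, inv_mul_cancel₀ hM, abs_one,
      ENNReal.ofReal_one]
  calc ∫⁻ x, (⨆ t : ℝ, ‖psum (fun ζ => φ (aff M b ζ)) G t x‖ₑ) ^ 2
      = ∫⁻ x, a ^ 2 * (⨆ t : ℝ, ‖psum φ g t ((M⁻¹)ᵀ *ᵥ x)‖ₑ) ^ 2 := by
        refine lintegral_congr fun x => ?_
        simp_rw [hnorm, ← ENNReal.mul_iSup, mul_pow]
    _ = a ^ 2 * ∫⁻ x, (⨆ t : ℝ, ‖psum φ g t ((M⁻¹)ᵀ *ᵥ x)‖ₑ) ^ 2 :=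
        lintegral_const_mul' _ _ (by rw [ha]; exact ENNReal.pow_ne_top ENNReal.ofReal_ne_top)
    _ = a ^ 2 * (ENNReal.ofReal |M.det| * ∫⁻ y, (⨆ t : ℝ, ‖psum φ g t y‖ₑ) ^ 2) := by
        rw [hx fun y => (⨆ t : ℝ, ‖psum φ g t y‖ₑ) ^ 2]
    _ = a * ∫⁻ y, (⨆ t : ℝ, ‖psum φ g t y‖ₑ) ^ 2 := by
        rw [pow_two, ← mul_assoc, mul_assoc a a, haM, mul_one]
    _ ≤ a * (C * ∫⁻ η, ‖g η‖ₑ ^ 2) := by
        gcongr
        exact h g hg1 hg2
    _ = C * (a * ∫⁻ η, ‖g η‖ₑ ^ 2) := by ring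
    _ = C * ∫⁻ ζ, ‖G ζ‖ₑ ^ 2 := by
        rw [ha, ← lintegral_aff hM b (fun η => ‖g η‖ₑ ^ 2)]
        congr 1
        refine lintegral_congr fun ζ => ?_
        rw [hGg]

end Pool.Agent.Helper32.MF
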