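import Mathlib

/-!
# Maximal partial Fourier integrals with respect to a phase function

`psum φ G t x = ∫_{φ ≤ t} G(ζ) e^{2πi x·ζ} dζ` for a function `G` on `ℝⁿ = Fin n → ℝ`.
-/

open MeasureTheory Set Filter Complex
open scoped ENNReal NNReal Topology Real

namespace Pool.Agent.Helper32.MF

/-- `ℝⁿ` -/
abbrev P (n : ℕ) : Type := Fin n → ℝ

variable {n : ℕ}

/-- the character `e^{2πi x·ζ}` -/
noncomputable def ch (x ζ : P n) : ℂ := cexp (((2 * π * (x ⬝ᵥ ζ) : ℝ) : ℂ) * I)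

lemma norm_ch (x ζ : P n) : ‖ch x ζ‖ = 1 := by
  rw [ch, norm_exp_ofReal_mul_I]

lemma continuous_dot : Continuous fun p : P n × P n => p.1 ⬝ᵥ p.2 := by
  unfold dotProduct
  fun_prop

lemma continuous_ch : Continuous fun p : P n × P n => ch p.1 p.2 := by
  unfold ch
  have := continuous_dot (n := n)
  fun_prop

lemma continuous_ch_left (ζ : P n) : Continuous fun x : P n => ch x ζ :=
  continuous_ch.comp (by fun_prop : Continuous fun x : P n => (x, ζ))

lemma continuous_ch_right (x : P n) : Continuous fun ζ : P n => ch x ζ :=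
  continuous_ch.comp (by fun_prop : Continuous fun ζ : P n => (x, ζ))

/-- the partial integral over `{φ ≤ t}` -/
noncomputable def psum (φ : P n → ℝ) (G : P n → ℂ) (t : ℝ) (x : P n) : ℂ :=
  ∫ ζ in {ζ | φ ζ ≤ t}, G ζ * ch x ζ

/-- the maximal inequality with the constant `C` for the phase `φ` -/
def Good (φ : P n → ℝ) (C : ℝ≥0∞) : Prop :=
  ∀ G : P n → ℂ, MemLp G 1 volume → MemLp G 2 volume →
    ∫⁻ x, (⨆ t : ℝ, ‖psum φ G t x‖ₑ) ^ 2 ≤ C * ∫⁻ ζ, ‖G ζ‖ₑ ^ 2

lemma integrable_mul_ch {G : P n → ℂ} (hG : Integrable G) (x : P n) :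
    Integrable fun ζ => G ζ * ch x ζ := by
  refine hG.mul_bdd (c := 1) (continuous_ch_right x).aestronglyMeasurable ?_
  exact Eventually.of_forall fun ζ => (norm_ch x ζ).le

lemma continuous_psum (φ : P n → ℝ) {G : P n → ℂ} (hG : Integrable G) (t : ℝ) :
    Continuous (psum φ G t) := by
  unfold psum
  refine continuous_of_dominated (bound := fun ζ => ‖G ζ‖) ?_ ?_ ?_ ?_
  · intro x
    exact (integrable_mul_ch hG x).aestronglyMeasurable.restrict
  · intro x
    refine Eventually.of_forall fun ζ => ?_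
    rw [norm_mul, norm_ch, mul_one]
  · exact hG.norm.restrict
  · refine Eventually.of_forall fun ζ => ?_
    exact continuous_const.mul (continuous_ch_left ζ)

/-- right continuity in `t` -/
lemma psum_le_iSup_dense {φ : P n → ℝ} (hφ : Measurable φ) {G : P n → ℂ} (hG : Integrable G)
    {D : Set ℝ} (hD : Dense D) (t : ℝ) (x : P n) :
    ‖psum φ G t x‖ₑ ≤ ⨆ s : D, ‖psum φ G s x‖ₑ := by
  obtain ⟨u, hu1, hu2, hu3⟩ := hD.exists_seq_strictAnti_tendsto t
  have hset : {ζ | φ ζ ≤ t} = ⋂ k, {ζ | φ ζ ≤ u k} := by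
    ext ζ
    simp only [mem_setOf_eq, mem_iInter]
    constructor
    · intro h k
      exact h.trans (hu2 k).1.le
    · intro h
      exact ge_of_tendsto' hu3 h
  have hlim : Tendsto (fun k => psum φ G (u k) x) atTop (𝓝 (psum φ G t x)) := by
    unfold psum
    rw [hset]
    refine tendsto_setIntegral_of_antitone ?_ ?_ ?_
    · intro k
      exact measurableSet_le hφ measurable_const
    · intro i j hij ζ h
      exact le_trans (by exact h) (hu1.antitone hij)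
    · exact ⟨0, (integrable_mul_ch hG x).integrableOn⟩
  have h2 : Tendsto (fun k => ‖psum φ G (u k) x‖ₑ) atTop (𝓝 ‖psum φ G t x‖ₑ) :=
    (continuous_enorm.tendsto _).comp hlim
  refine le_of_tendsto' h2 fun k => ?_
  exact le_iSup (fun s : D => ‖psum φ G s x‖ₑ) ⟨u k, (hu2 k).2⟩

lemma iSup_psum_eq_dense {φ : P n → ℝ} (hφ : Measurable φ) {G : P n → ℂ} (hG : Integrable G)
    {D : Set ℝ} (hD : Dense D) (x : P n) :
    ⨆ t : ℝ, ‖psum φ G t x‖ₑ = ⨆ s : D, ‖psum φ G s x‖ₑ :=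
  le_antisymm (iSup_le fun t => psum_le_iSup_dense hφ hG hD t x)
    (iSup_le fun s => le_iSup (fun t : ℝ => ‖psum φ G t x‖ₑ) (s : ℝ))

lemma measurable_sup {φ : P n → ℝ} (hφ : Measurable φ) {G : P n → ℂ} (hG : Integrable G) :
    Measurable fun x => ⨆ t : ℝ, ‖psum φ G t x‖ₑ := by
  obtain ⟨D, hDc, hD⟩ := TopologicalSpace.exists_countable_dense ℝ
  simp_rw [iSup_psum_eq_dense hφ hG hD]
  have := hDc.to_subtype
  exact Measurable.iSup fun s => (continuous_psum φ hG s).enorm.measurable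

/-- a countable dense set of good levels -/
lemma exists_levels {φ : P n → ℝ} (hφ : Measurable φ) :
    ∃ D : Set ℝ, D.Countable ∧ Dense D ∧ ∀ t ∈ D, volume {ζ | φ ζ = t} = 0 := by
  have hc : {t : ℝ | 0 < volume {ζ : P n | φ ζ = t}}.Countable :=
    Measure.countable_meas_level_set_pos hφ
  have hd : Dense {t : ℝ | 0 < volume {ζ : P n | φ ζ = t}}ᶜ := hc.dense_compl ℝ
  obtain ⟨D, hDs, hDc, hDd⟩ := hd.exists_countable_dense_subset
  refine ⟨D, hDc, hDd, fun t ht => ?_⟩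
  have := hDs ht
  simpa using this

/-- dominated convergence for the partial integrals -/
lemma tendsto_psum {φ : P n → ℝ} (hφ : Measurable φ) {ψ : ℕ → P n → ℝ}
    (hψ : ∀ j, Measurable (ψ j)) (h : ∀ᵐ ζ, Tendsto (fun j => ψ j ζ) atTop (𝓝 (φ ζ)))
    {G : P n → ℂ} (hG : Integrable G) {t : ℝ} (ht : volume {ζ | φ ζ = t} = 0) (x : P n) :
    Tendsto (fun j => psum (ψ j) G t x) atTop (𝓝 (psum φ G t x)) := by
  unfold psum
  have e1 : ∀ j, ∫ ζ in {ζ | ψ j ζ ≤ t}, G ζ * ch x ζ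
      = ∫ ζ, {ζ | ψ j ζ ≤ t}.indicator (fun ζ => G ζ * ch x ζ) ζ := fun j =>
    (integral_indicator (measurableSet_le (hψ j) measurable_const)).symm
  have e2 : ∫ ζ in {ζ | φ ζ ≤ t}, G ζ * ch x ζ
      = ∫ ζ, {ζ | φ ζ ≤ t}.indicator (fun ζ => G ζ * ch x ζ) ζ :=
    (integral_indicator (measurableSet_le hφ measurable_const)).symm
  simp_rw [e1]
  rw [e2]
  refine tendsto_integral_of_dominated_convergence (fun ζ => ‖G ζ‖) ?_ hG.norm ?_ ?_
  · intro j
    exact (integrable_mul_ch hG x).aestronglyMeasurable.indicator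
      (measurableSet_le (hψ j) measurable_const)
  · intro j
    refine Eventually.of_forall fun ζ => ?_
    refine (norm_indicator_le_norm_self _ _).trans ?_
    rw [norm_mul, norm_ch, mul_one]
  · have hne : ∀ᵐ ζ, φ ζ ≠ t := by
      rw [ae_iff]
      simpa using ht
    filter_upwards [h, hne] with ζ h1 h2
    rcases lt_or_gt_of_ne h2 with h3 | h3
    · have h4 : ∀ᶠ j in atTop, ψ j ζ < t := h1.eventually (gt_mem_nhds h3)
      refine tendsto_const_nhds.congr' ?_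
      filter_upwards [h4] with j hj
      rw [indicator_of_mem (show ζ ∈ {ζ | φ ζ ≤ t} from h3.le),
        indicator_of_mem (show ζ ∈ {ζ | ψ j ζ ≤ t} from hj.le)]
    · have h4 : ∀ᶠ j in atTop, t < ψ j ζ := h1.eventually (lt_mem_nhds h3)
      refine tendsto_const_nhds.congr' ?_
      filter_upwards [h4] with j hj
      rw [indicator_of_notMem (show ζ ∉ {ζ | φ ζ ≤ t} from not_le.2 h3),
        indicator_of_notMem (show ζ ∉ {ζ | ψ j ζ ≤ t} from not_le.2 hj)]

/-- **Limits of phases.** -/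
theorem good_of_tendsto {φ : P n → ℝ} (hφ : Measurable φ) {ψ : ℕ → P n → ℝ}
    (hψ : ∀ j, Measurable (ψ j)) (h : ∀ᵐ ζ, Tendsto (fun j => ψ j ζ) atTop (𝓝 (φ ζ)))
    {C : ℝ≥0∞} (hg : ∀ j, Good (ψ j) C) : Good φ C := by
  intro G hG1 hG2
  have hG : Integrable G := memLp_one_iff_integrable.1 hG1
  obtain ⟨D, hDc, hDd, hD⟩ := exists_levels hφ
  have key : ∀ x, (⨆ t : ℝ, ‖psum φ G t x‖ₑ) ^ 2 ≤
      liminf (fun j => (⨆ t : ℝ, ‖psum (ψ j) G t x‖ₑ) ^ 2) atTop := by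
    intro x
    rw [iSup_psum_eq_dense hφ hG hDd, ENNReal.iSup_pow_of_ne_zero two_ne_zero]
    refine iSup_le fun s => ?_
    have h1 : Tendsto (fun j => ‖psum (ψ j) G s x‖ₑ ^ 2) atTop (𝓝 (‖psum φ G s x‖ₑ ^ 2)) :=
      (ENNReal.continuous_pow 2).continuousAt.tendsto.comp
        ((continuous_enorm.tendsto _).comp (tendsto_psum hφ hψ h hG (hD s s.2) x))
    rw [← h1.liminf_eq]
    refine liminf_le_liminf (Eventually.of_forall fun j => ?_)
    gcongr
    exact le_iSup (fun t : ℝ => ‖psum (ψ j) G t x‖ₑ) (s : ℝ)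
  calc ∫⁻ x, (⨆ t : ℝ, ‖psum φ G t x‖ₑ) ^ 2
      ≤ ∫⁻ x, liminf (fun j => (⨆ t : ℝ, ‖psum (ψ j) G t x‖ₑ) ^ 2) atTop := lintegral_mono key
    _ ≤ liminf (fun j => ∫⁻ x, (⨆ t : ℝ, ‖psum (ψ j) G t x‖ₑ) ^ 2) atTop :=
        lintegral_liminf_le fun j => (measurable_sup (hψ j) hG).pow_const 2
    _ ≤ liminf (fun _ : ℕ => C * ∫⁻ ζ, ‖G ζ‖ₑ ^ 2) atTop :=
        liminf_le_liminf (Eventually.of_forall fun j => hg j G hG1 hG2)
    _ = C * ∫⁻ ζ, ‖G ζ‖ₑ ^ 2 := by simp

end Pool.Agent.Helper32.MF
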