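import Pool.Agent.Helper32.MF.Basic

/-!
# Unit cells, and the exact Parseval identity for the transform of a small cube
-/

open MeasureTheory Set Filter Complex Matrix
open scoped ENNReal NNReal Topology Real

namespace Pool.Agent.Helper32.MF

variable {n : ℕ}

/-- the real vector of an integer vector -/
def rv (m : Fin n → ℤ) : P n := fun i => (m i : ℝ)

/-- the unit cell with the corner `a` -/
def cell (a : Fin n → ℤ) : Set (P n) := {x | ∀ i, ⌊x i⌋ = a i}

lemma cell_eq (a : Fin n → ℤ) : cell a = Set.pi univ fun i => Ico ((a i : ℝ)) (a i + 1) := by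
  ext x
  simp only [cell, mem_ofPred_eq, Set.mem_pi, mem_univ, true_implies, mem_Ico, Int.floor_eq_iff]

lemma measurableSet_cell (a : Fin n → ℤ) : MeasurableSet (cell a) := by
  rw [cell_eq]
  exact MeasurableSet.univ_pi fun i => measurableSet_Ico

lemma iUnion_cell : (⋃ a : Fin n → ℤ, cell a) = univ := by
  refine eq_univ_of_forall fun x => mem_iUnion.2 ⟨fun i => ⌊x i⌋, fun i => rfl⟩

lemma disjoint_cell {a b : Fin n → ℤ} (h : a ≠ b) : Disjoint (cell a) (cell b) := by
  rw [Set.disjoint_left]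
  intro x hx hy
  exact h (funext fun i => (hx i).symm.trans (hy i))

lemma lintegral_cells (f : P n → ℝ≥0∞) : ∫⁻ x, f x = ∑' a : Fin n → ℤ, ∫⁻ x in cell a, f x := by
  rw [← lintegral_iUnion measurableSet_cell (fun a b h => disjoint_cell h), iUnion_cell,
    Measure.restrict_univ]

lemma lintegral_cell (f : P n → ℝ≥0∞) (a : Fin n → ℤ) :
    ∫⁻ x in cell a, f x = ∫⁻ x in cell 0, f (x + rv a) := by
  rw [← lintegral_indicator (measurableSet_cell a), ← lintegral_indicator (measurableSet_cell 0),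
    ← lintegral_add_right_eq_self _ (rv a)]
  refine lintegral_congr fun x => ?_
  have : x + rv a ∈ cell a ↔ x ∈ cell 0 := by
    simp only [cell, mem_ofPred_eq, Pi.add_apply, rv, Int.floor_add_intCast, Pi.zero_apply]
    simp
  by_cases hx : x ∈ cell 0
  · rw [indicator_of_mem hx, indicator_of_mem (this.2 hx)]
  · rw [indicator_of_notMem hx, indicator_of_notMem fun h => hx (this.1 h)]

/-- the small cube -/
def cube (δ : ℝ) (a : P n) : Set (P n) := Set.pi univ fun i => Ico (a i) (a i + δ)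

lemma measurableSet_cube (δ : ℝ) (a : P n) : MeasurableSet (cube δ a) :=
  MeasurableSet.univ_pi fun i => measurableSet_Ico

lemma volume_cube (δ : ℝ) (a : P n) : volume (cube δ a) = ENNReal.ofReal δ ^ n := by
  rw [cube, Real.volume_pi_Ico]
  simp

/-- the transform of the small cube at the origin -/
noncomputable def wt (δ : ℝ) (x : P n) : ℂ := ∫ ζ in cube δ (0 : P n), ch x ζ

/-- the one dimensional transform -/
noncomputable def wt1 (δ : ℝ) (y : ℝ) : ℂ := ∫ η in Ico (0:ℝ) δ, cexp (((2 * π * (y * η) : ℝ) : ℂ) * I)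

lemma ch_eq_prod (x ζ : P n) : ch x ζ = ∏ i, cexp (((2 * π * (x i * ζ i) : ℝ) : ℂ) * I) := by
  rw [ch, ← Complex.exp_sum]
  congr 1
  rw [← Finset.sum_mul, ← Complex.ofReal_sum, ← Finset.mul_sum]
  rfl

lemma wt_eq_prod (δ : ℝ) (x : P n) : wt δ x = ∏ i, wt1 δ (x i) := by
  unfold wt wt1
  rw [← integral_indicator (measurableSet_cube δ 0)]
  simp_rw [← integral_indicator (measurableSet_Ico (a := (0:ℝ)) (b := δ))]
  rw [← integral_fintype_prod_volume_eq_prod]
  refine integral_congr_ae (Eventually.of_forall fun ζ => ?_)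
  simp only
  by_cases h : ζ ∈ cube δ (0 : P n)
  · rw [indicator_of_mem h, ch_eq_prod]
    refine Finset.prod_congr rfl fun i _ => ?_
    have : ζ i ∈ Ico (0:ℝ) δ := by
      have := h i (mem_univ i)
      simpa using this
    rw [indicator_of_mem this]
  · rw [indicator_of_notMem h]
    have : ∃ i, ζ i ∉ Ico (0:ℝ) δ := by
      by_contra hc
      push Not at hc
      exact h fun i _ => by simpa using hc i
    obtain ⟨i, hi⟩ := this
    rw [eq_comm, Finset.prod_eq_zero (Finset.mem_univ i)]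
    rw [indicator_of_notMem hi]

/-- Parseval in dimension one -/
lemma tsum_wt1 {δ : ℝ} (h0 : 0 ≤ δ) (h1 : δ ≤ 1) (y : ℝ) :
    ∑' k : ℤ, ‖wt1 δ (y + k)‖ₑ ^ 2 = ENNReal.ofReal δ := by
  set f : ℝ → ℂ := (Ico (0:ℝ) δ).indicator fun η => cexp (((2 * π * (y * η) : ℝ) : ℂ) * I) with hf
  have hfm : AEStronglyMeasurable f volume := by
    refine AEStronglyMeasurable.indicator ?_ measurableSet_Ico
    exact Continuous.aestronglyMeasurable (by fun_prop)
  have hfb : ∀ η, ‖f η‖ ^ 2 = (Ico (0:ℝ) δ).indicator (fun _ => (1:ℝ)) η := by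
    intro η
    rw [hf]
    by_cases h : η ∈ Ico (0:ℝ) δ
    · rw [indicator_of_mem h, indicator_of_mem h, norm_exp_ofReal_mul_I, one_pow]
    · rw [indicator_of_notMem h, indicator_of_notMem h]
      simp
  have hL2 : MemLp f 2 (volume.restrict (Ioc 0 1)) := by
    rw [memLp_two_iff_integrable_sq_norm hfm.restrict]
    simp_rw [hfb]
    exact ((integrable_indicator_iff measurableSet_Ico).2
      (integrableOn_const (by simp))).integrableOn
  have hP := hasSum_sq_fourierCoeffOn zero_lt_one hL2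
  have hI : ∫ x in (0:ℝ)..1, ‖f x‖ ^ 2 = δ := by
    simp_rw [hfb]
    rw [intervalIntegral.integral_of_le zero_le_one, ← integral_Icc_eq_integral_Ioc,
      integral_Icc_eq_integral_Ico, setIntegral_indicator measurableSet_Ico]
    have : Ico (0:ℝ) 1 ∩ Ico 0 δ = Ico 0 δ := inter_eq_right.2 (Ico_subset_Ico_right h1)
    rw [this]
    simp [h0]
  rw [hI] at hP
  have hcoef : ∀ k : ℤ, fourierCoeffOn zero_lt_one f (-k) = wt1 δ (y + k) := by
    intro k
    rw [fourierCoeffOn_eq_integral, wt1, intervalIntegral.integral_of_le zero_le_one,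
      ← integral_Icc_eq_integral_Ioc, integral_Icc_eq_integral_Ico]
    have hIco : Ico (0:ℝ) 1 ∩ Ico 0 δ = Ico 0 δ := inter_eq_right.2 (Ico_subset_Ico_right h1)
    have h3 : ∀ x : ℝ, (fourier (-(-k)) (x : AddCircle ((1:ℝ) - 0))) • f x =
        (Ico (0:ℝ) δ).indicator (fun η => cexp (((2 * π * ((y + k) * η) : ℝ) : ℂ) * I)) x := by
      intro x
      rw [fourier_coe_apply, hf]
      by_cases h : x ∈ Ico (0:ℝ) δ
      · rw [indicator_of_mem h, indicator_of_mem h, smul_eq_mul, ← Complex.exp_add]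
        congr 1
        push_cast
        ring
      · rw [indicator_of_notMem h, indicator_of_notMem h, smul_zero]
    simp_rw [h3]
    rw [setIntegral_indicator measurableSet_Ico, hIco]
    simp
  have hP2 : HasSum (fun k : ℤ => ‖wt1 δ (y + k)‖ ^ 2) δ := by
    have := (Equiv.neg ℤ).hasSum_iff.2 hP
    simp only [Function.comp_def, Equiv.neg_apply] at this
    simp_rw [hcoef] at this
    simpa using this
  have := ENNReal.ofReal_tsum_of_nonneg (fun k : ℤ => by positivity) hP2.summable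
  rw [hP2.tsum_eq] at this
  rw [this]
  refine tsum_congr fun k => ?_
  rw [ENNReal.ofReal_pow (norm_nonneg _), ofReal_norm]

/-- product formula for sums over integer vectors -/
lemma tsum_pi_prod (n : ℕ) (u : Fin n → ℤ → ℝ≥0∞) :
    ∑' a : Fin n → ℤ, ∏ i, u i (a i) = ∏ i, ∑' k, u i k := by
  induction n with
  | zero =>
    rw [tsum_eq_single (0 : Fin 0 → ℤ)]
    · simp
    · intro b hb
      exact (hb (Subsingleton.elim _ _)).elim
  | succ n ih =>
    rw [← (Fin.consEquiv (fun _ : Fin (n + 1) => ℤ)).tsum_eq, ENNReal.tsum_prod',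
      Fin.prod_univ_succ]
    simp only [Fin.consEquiv_apply, Fin.prod_univ_succ, Fin.cons_zero, Fin.cons_succ]
    simp_rw [ENNReal.tsum_mul_left, ih (fun i => u i.succ)]
    rw [ENNReal.tsum_mul_right]

lemma tsum_wt {δ : ℝ} (h0 : 0 ≤ δ) (h1 : δ ≤ 1) (x : P n) :
    ∑' a : Fin n → ℤ, ‖wt δ (x + rv a)‖ₑ ^ 2 = ENNReal.ofReal δ ^ n := by
  have h : ∀ a : Fin n → ℤ, ‖wt δ (x + rv a)‖ₑ ^ 2 =
      ∏ i, (fun k : ℤ => ‖wt1 δ (x i + k)‖ₑ ^ 2) (a i) := by
    intro a
    rw [wt_eq_prod]
    simp only [Pi.add_apply, rv]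
    rw [Finset.prod_pow, ← ofReal_norm, norm_prod, ENNReal.ofReal_prod_of_nonneg
      fun i _ => norm_nonneg _]
    simp_rw [ofReal_norm]
  simp_rw [h]
  rw [tsum_pi_prod n fun i k => ‖wt1 δ (x i + k)‖ₑ ^ 2]
  simp_rw [tsum_wt1 h0 h1]
  simp

end Pool.Agent.Helper32.MF
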