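import Pool.Agent.Helper32.MF.Tangent
import Pool.Agent.Helper32.MF.Cells

/-!
# Blow-up of a phase at a point, local version
-/

open MeasureTheory Set Filter Complex Matrix Metric Asymptotics Module
open scoped ENNReal NNReal Topology Real

namespace Pool.Agent.Helper32.MF

variable {n : ℕ}

/-- **Affine substitutions**, for one function. -/
theorem ineq_aff {φ : P n → ℝ} (hφ : Measurable φ) {C : ℝ≥0∞}
    {M : Matrix (Fin n) (Fin n) ℝ} (hM : M.det ≠ 0) (b : P n) {G : P n → ℂ}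
    (h : ∫⁻ x, (⨆ t : ℝ, ‖psum φ (fun η => G (M⁻¹ *ᵥ (η - b))) t x‖ₑ) ^ 2 ≤
      C * ∫⁻ η, ‖G (M⁻¹ *ᵥ (η - b))‖ₑ ^ 2) :
    ∫⁻ x, (⨆ t : ℝ, ‖psum (fun ζ => φ (aff M b ζ)) G t x‖ₑ) ^ 2 ≤ C * ∫⁻ ζ, ‖G ζ‖ₑ ^ 2 := by
  set g : P n → ℂ := fun η => G (M⁻¹ *ᵥ (η - b)) with hg
  have hu : IsUnit M.det := isUnit_iff_ne_zero.2 hM
  have hGg : G = fun ζ => g (aff M b ζ) := by
    ext ζ
    rw [hg]
    simp only
    rw [aff_leftInv hM b ζ]
  have hM' : (M⁻¹).det ≠ 0 := by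
    rw [det_nonsing_inv, Ring.inverse_eq_inv']
    exact inv_ne_zero hM
  set a : ℝ≥0∞ := ENNReal.ofReal |M.det⁻¹| with ha
  have hnorm : ∀ t x, ‖psum (fun ζ => φ (aff M b ζ)) G t x‖ₑ =
      a * ‖psum φ g t ((M⁻¹)ᵀ *ᵥ x)‖ₑ := by
    intro t x
    rw [hGg, psum_aff hM b hφ g t x, enorm_smul, enorm_mul]
    congr 1
    · rw [Real.enorm_eq_ofReal_abs, abs_abs]
    · have : ‖ch ((M⁻¹)ᵀ *ᵥ x) (-b)‖ₑ = 1 := by
        rw [← ofReal_norm, norm_ch, ENNReal.ofReal_one]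
      rw [this, one_mul]
  have hMt : ((M⁻¹)ᵀ).det ≠ 0 := by rw [det_transpose]; exact hM'
  have hdet : ENNReal.ofReal |((M⁻¹)ᵀ).det⁻¹| = ENNReal.ofReal |M.det| := by
    rw [det_transpose, det_nonsing_inv, Ring.inverse_eq_inv', inv_inv]
  have hx : ∀ F : P n → ℝ≥0∞, ∫⁻ x, F ((M⁻¹)ᵀ *ᵥ x) = ENNReal.ofReal |M.det| * ∫⁻ y, F y := by
    intro F
    have := lintegral_aff hMt 0 F
    simp only [aff, add_zero] at this
    rw [this, hdet]
  have haM : a * ENNReal.ofReal |M.det| = 1 := by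
    rw [ha, ← ENNReal.ofReal_mul (abs_nonneg _), ← abs_mul, inv_mul_cancel₀ hM, abs_one,
      ENNReal.ofReal_one]
  calc ∫⁻ x, (⨆ t : ℝ, ‖psum (fun ζ => φ (aff M b ζ)) G t x‖ₑ) ^ 2
      = ∫⁻ x, a ^ 2 * (⨆ t : ℝ, ‖psum φ g t ((M⁻¹)ᵀ *ᵥ x)‖ₑ) ^ 2 := by
        refine lintegral_congr fun x => ?_
        simp_rw [hnorm, ← ENNReal.mul_iSup, mul_pow]
    _ = a ^ 2 * ∫⁻ x, (⨆ t : ℝ, ‖psum φ g t ((M⁻¹)ᵀ *ᵥ x)‖ₑ) ^ 2 :=
        lintegral_const_mul' _ _ (by rw [ha]; exact ENNReal.pow_ne_top ENNReal.ofReal_ne_top)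
    _ = a ^ 2 * (ENNReal.ofReal |M.det| * ∫⁻ y, (⨆ t : ℝ, ‖psum φ g t y‖ₑ) ^ 2) := by
        rw [hx fun y => (⨆ t : ℝ, ‖psum φ g t y‖ₑ) ^ 2]
    _ = a * ∫⁻ y, (⨆ t : ℝ, ‖psum φ g t y‖ₑ) ^ 2 := by
        rw [pow_two, ← mul_assoc, mul_assoc a a, haM, mul_one]
    _ ≤ a * (C * ∫⁻ η, ‖g η‖ₑ ^ 2) := by
        gcongr
    _ = C * (a * ∫⁻ η, ‖g η‖ₑ ^ 2) := by ring
    _ = C * ∫⁻ ζ, ‖G ζ‖ₑ ^ 2 := by
        rw [ha, ← lintegral_aff hM b (fun η => ‖g η‖ₑ ^ 2)]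
        congr 1
        refine lintegral_congr fun ζ => ?_
        rw [hGg]

lemma memLp_inv_aff {M : Matrix (Fin n) (Fin n) ℝ} (hM : M.det ≠ 0) (b : P n) {G : P n → ℂ}
    {p : ℝ≥0∞} (hG : MemLp G p) : MemLp (fun η => G (M⁻¹ *ᵥ (η - b))) p := by
  have hM' : (M⁻¹).det ≠ 0 := by
    rw [det_nonsing_inv, Ring.inverse_eq_inv']
    exact inv_ne_zero hM
  have : (fun η => G (M⁻¹ *ᵥ (η - b))) = fun η => G (aff M⁻¹ (-(M⁻¹ *ᵥ b)) η) := by
    ext η
    simp only [aff]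
    rw [mulVec_sub, sub_eq_add_neg]
  rw [this]
  exact memLp_aff_iff hM' _ hG

/-- the maximal inequality for the functions which vanish outside `U` -/
def GoodOn (φ : P n → ℝ) (U : Set (P n)) (C : ℝ≥0∞) : Prop :=
  ∀ G : P n → ℂ, MemLp G 1 volume → MemLp G 2 volume → (∀ ζ ∉ U, G ζ = 0) →
    ∫⁻ x, (⨆ t : ℝ, ‖psum φ G t x‖ₑ) ^ 2 ≤ C * ∫⁻ ζ, ‖G ζ‖ₑ ^ 2

/-- functions with bounded support suffice -/
theorem good_of_bounded {φ : P n → ℝ} (hφ : Measurable φ) {C : ℝ≥0∞}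
    (h : ∀ G : P n → ℂ, MemLp G 1 volume → MemLp G 2 volume →
      (∃ N : ℝ, ∀ ζ, ζ ∉ closedBall (0 : P n) N → G ζ = 0) →
      ∫⁻ x, (⨆ t : ℝ, ‖psum φ G t x‖ₑ) ^ 2 ≤ C * ∫⁻ ζ, ‖G ζ‖ₑ ^ 2) : Good φ C := by
  intro G hG1 hG2
  have hG : Integrable G := memLp_one_iff_integrable.1 hG1
  set g : ℕ → P n → ℂ := fun j => (closedBall (0 : P n) j).indicator G with hg
  have hg1 : ∀ j, Integrable (g j) := fun j => hG.indicator measurableSet_closedBall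
  have hg2 : ∀ j, MemLp (g j) 2 := fun j => hG2.indicator measurableSet_closedBall
  refine ineq_of_tendsto hφ hg1 ?_ ?_
  · intro t x
    unfold psum
    refine tendsto_integral_of_dominated_convergence (fun ζ => ‖G ζ‖) ?_ hG.norm.restrict ?_ ?_
    · intro j
      exact (integrable_mul_ch (hg1 j) x).aestronglyMeasurable.restrict
    · intro j
      refine Eventually.of_forall fun ζ => ?_
      rw [norm_mul, norm_ch, mul_one]
      exact norm_indicator_le_norm_self _ _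
    · refine Eventually.of_forall fun ζ => ?_
      refine tendsto_const_nhds.congr' ?_
      filter_upwards [eventually_ge_atTop ⌈‖ζ‖⌉₊] with j hj
      have : ζ ∈ closedBall (0 : P n) j := by
        rw [mem_closedBall_zero_iff]
        exact (Nat.le_ceil _).trans (by exact_mod_cast hj)
      simp only [hg]
      rw [indicator_of_mem this]
  · have hr : ∀ j, ∫⁻ x, (⨆ t : ℝ, ‖psum φ (g j) t x‖ₑ) ^ 2 ≤ C * ∫⁻ ζ, ‖G ζ‖ₑ ^ 2 := by
      intro j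
      refine (h (g j) (memLp_one_iff_integrable.2 (hg1 j)) (hg2 j) ⟨j, ?_⟩).trans ?_
      · intro ζ hζ
        exact indicator_of_notMem hζ _
      · gcongr with ζ
        exact enorm_indicator_le_enorm_self _ _
    calc liminf (fun j => ∫⁻ x, (⨆ t : ℝ, ‖psum φ (g j) t x‖ₑ) ^ 2) atTop
        ≤ liminf (fun _ : ℕ => C * ∫⁻ ζ, ‖G ζ‖ₑ ^ 2) atTop :=
          liminf_le_liminf (Eventually.of_forall hr)
      _ = C * ∫⁻ ζ, ‖G ζ‖ₑ ^ 2 := by simp

/-- **Blow-up**, general form. -/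
theorem good_of_blow {φ : P n → ℝ} (hφ : Measurable φ) {U : Set (P n)} {C : ℝ≥0∞}
    (h : GoodOn φ U C) {ξ₀ : P n} {M : ℕ → Matrix (Fin n) (Fin n) ℝ} (hM : ∀ j, (M j).det ≠ 0)
    (hU : ∀ N : ℝ, ∀ᶠ j in atTop, ∀ ζ ∈ closedBall (0 : P n) N, ξ₀ + M j *ᵥ ζ ∈ U)
    {r : ℕ → ℝ} (hr : ∀ j, 0 < r j) {ψ : P n → ℝ} (hψ : Measurable ψ)
    (hlim : ∀ ζ, Tendsto (fun j => r j * (φ (ξ₀ + M j *ᵥ ζ) - φ ξ₀)) atTop (𝓝 (ψ ζ))) :
    Good ψ C := by
  refine good_of_bounded hψ fun G hG1 hG2 ⟨N, hN⟩ => ?_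
  have hG : Integrable G := memLp_one_iff_integrable.1 hG1
  have hmj : ∀ j, Measurable fun ζ => φ (ξ₀ + M j *ᵥ ζ) := fun j =>
    hφ.comp (measurable_const.add (continuous_const.matrix_mulVec continuous_id).measurable)
  refine ineq_of_phase_tendsto hψ
    (ψ := fun j ζ => r j * (φ (ξ₀ + M j *ᵥ ζ) - φ ξ₀))
    (fun j => ((hmj j).sub_const _).const_mul _) (Eventually.of_forall hlim) hG ?_
  filter_upwards [hU N] with j hj
  have hg : Monotone fun s : ℝ => r j * (s - φ ξ₀) := by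
    intro s t hst
    exact mul_le_mul_of_nonneg_left (sub_le_sub_right hst _) (hr j).le
  calc ∫⁻ x, (⨆ t : ℝ, ‖psum (fun ζ => r j * (φ (ξ₀ + M j *ᵥ ζ) - φ ξ₀)) G t x‖ₑ) ^ 2
      ≤ ∫⁻ x, (⨆ t : ℝ, ‖psum (fun ζ => φ (ξ₀ + M j *ᵥ ζ)) G t x‖ₑ) ^ 2 :=
        lintegral_mono fun x => pow_le_pow_left' (iSup_monotone_comp_le (hmj j) hG hg x) 2
    _ = ∫⁻ x, (⨆ t : ℝ, ‖psum (fun ζ => φ (aff (M j) ξ₀ ζ)) G t x‖ₑ) ^ 2 := by
        simp_rw [aff, add_comm]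
    _ ≤ C * ∫⁻ ζ, ‖G ζ‖ₑ ^ 2 := by
        refine ineq_aff hφ (hM j) ξ₀ (h _ (memLp_inv_aff (hM j) ξ₀ hG1)
          (memLp_inv_aff (hM j) ξ₀ hG2) fun η hη => ?_)
        by_contra hne
        have h1 : (M j)⁻¹ *ᵥ (η - ξ₀) ∈ closedBall (0 : P n) N := by
          by_contra hout
          exact hne (hN _ hout)
        have h2 := hj _ h1
        have h3 := aff_rightInv (hM j) ξ₀ η
        rw [aff, add_comm] at h3
        rw [h3] at h2
        exact hη h2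

/-! ### Removing variables -/

theorem good_of_cyl {d : ℕ} {φ : P d → ℝ} (hφ : Measurable φ) {C : ℝ≥0∞}
    (h : Good (fun ζ : P (d + 1) => φ fun i => ζ i.castSucc) C) : Good φ C := by
  intro g hg1 hg2
  set Φ : P (d + 1) → ℝ := fun ζ => φ fun i => ζ i.castSucc with hΦ
  have hΦm : Measurable Φ := hφ.comp (measurable_pi_lambda _ fun i => measurable_pi_apply _)
  set e := MeasurableEquiv.piFinSuccAbove (fun _ : Fin (d + 1) => ℝ) (Fin.last d) with he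
  have hmp : MeasurePreserving e := volume_preserving_piFinSuccAbove (fun _ => ℝ) (Fin.last d)
  have hchg : ∀ F : ℝ × P d → ℝ≥0∞, ∫⁻ x : P (d + 1), F (e x) = ∫⁻ z, F z :=
    fun F => hmp.lintegral_comp_emb e.measurableEmbedding F
  have he1 : ∀ ζ : P (d + 1), (e ζ).1 = ζ (Fin.last d) := fun ζ => rfl
  have he2 : ∀ (ζ : P (d + 1)) (i : Fin d), (e ζ).2 i = ζ i.castSucc := by
    intro ζ i
    change ζ ((Fin.last d).succAbove i) = ζ i.castSucc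
    rw [Fin.succAbove_last]
  set H : ℝ × P d → ℂ := fun z => gauss z.1 * g z.2 with hH
  set G : P (d + 1) → ℂ := fun ζ => H (e ζ) with hG
  have hgi : Integrable g := memLp_one_iff_integrable.1 hg1
  have hgai : Integrable gauss := memLp_one_iff_integrable.1 memLp_gauss_one
  have hH1 : MemLp H 1 := by
    rw [memLp_one_iff_integrable]
    exact hgai.mul_prod hgi
  have hH2 : MemLp H 2 := by
    rw [memLp_two_iff_integrable_sq_norm hH1.aestronglyMeasurable]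
    have h1 := (memLp_two_iff_integrable_sq_norm memLp_gauss_two.aestronglyMeasurable).1
      memLp_gauss_two
    have h2 := (memLp_two_iff_integrable_sq_norm hg2.aestronglyMeasurable).1 hg2
    refine (h1.mul_prod h2).congr (Eventually.of_forall fun z => ?_)
    simp [hH, mul_pow]
  have hG1 : MemLp G 1 := hH1.comp_measurePreserving hmp
  have hG2 : MemLp G 2 := hH2.comp_measurePreserving hmp
  have hdot : ∀ x ζ : P (d + 1), x ⬝ᵥ ζ = (e x).1 * (e ζ).1 + (e x).2 ⬝ᵥ (e ζ).2 := by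
    intro x ζ
    simp only [dotProduct, he1, he2]
    rw [Fin.sum_univ_castSucc, add_comm]
  have hcyl : ∀ ζ : P (d + 1), Φ ζ = φ (e ζ).2 := by
    intro ζ
    rw [hΦ]
    exact congrArg φ (funext fun i => (he2 ζ i).symm)
  have hps : ∀ (t : ℝ) (x : P (d + 1)), psum Φ G t x =
      gauss (e x).1 * psum φ g t (e x).2 := by
    intro t x
    unfold psum
    rw [← integral_indicator (measurableSet_le hΦm measurable_const),
      ← integral_indicator (measurableSet_le hφ measurable_const)]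
    have h1 : ∫ ζ : P (d + 1), {ζ | Φ ζ ≤ t}.indicator (fun ζ => G ζ * ch x ζ) ζ =
        ∫ z : ℝ × P d, (gauss z.1 * cexp (((2 * π * ((e x).1 * z.1) : ℝ) : ℂ) * I)) *
          ({ζ : P d | φ ζ ≤ t}.indicator (fun ζ => g ζ * ch (e x).2 ζ) z.2) := by
      rw [← hmp.integral_comp e.measurableEmbedding]
      refine integral_congr_ae (Eventually.of_forall fun ζ => ?_)
      simp only [indicator, mem_ofPred_eq, hcyl]
      split_ifs with hh
      · simp only [hG, hH, ch, hdot x ζ]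
        rw [show (((2 * π * ((e x).1 * (e ζ).1 + (e x).2 ⬝ᵥ (e ζ).2) : ℝ) : ℂ) * I) =
          (((2 * π * ((e x).1 * (e ζ).1) : ℝ) : ℂ) * I) +
            (((2 * π * ((e x).2 ⬝ᵥ (e ζ).2) : ℝ) : ℂ) * I) by push_cast; ring, Complex.exp_add]
        ring
      · simp
    rw [h1]
    rw [show (volume : Measure (ℝ × P d)) = (volume : Measure ℝ).prod volume from rfl]
    rw [integral_prod_mul (fun τ : ℝ => gauss τ * cexp (((2 * π * ((e x).1 * τ) : ℝ) : ℂ) * I))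
      (fun ζ : P d => {ζ : P d | φ ζ ≤ t}.indicator (fun ζ => g ζ * ch (e x).2 ζ) ζ),
      fourier_gauss]
  have h1 := h G hG1 hG2
  set K : ℝ≥0∞ := ∫⁻ τ, ‖gauss τ‖ₑ ^ 2 with hK
  have hK0 : K ≠ 0 := by
    rw [hK]
    intro h0
    rw [lintegral_eq_zero_iff (continuous_gauss.enorm.measurable.pow_const 2)] at h0
    have h2 : ∀ᵐ τ : ℝ, False := by
      filter_upwards [h0] with τ hτ
      have : gauss τ = 0 := by simpa using hτ
      exact Complex.exp_ne_zero _ this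
    exact h2.exists.elim fun _ h => h
  have hKt : K ≠ ⊤ := by
    rw [hK]
    have := (memLp_two_iff_integrable_sq_norm memLp_gauss_two.aestronglyMeasurable).1
      memLp_gauss_two
    have h3 := this.2
    rw [HasFiniteIntegral] at h3
    refine ne_of_lt (lt_of_le_of_lt (lintegral_mono fun τ => ?_) h3)
    rw [enorm_pow, enorm_norm]
  have hL : ∫⁻ x, (⨆ t : ℝ, ‖psum Φ G t x‖ₑ) ^ 2 =
      K * ∫⁻ x, (⨆ t : ℝ, ‖psum φ g t x‖ₑ) ^ 2 := by
    have h2 : ∀ x, (⨆ t : ℝ, ‖psum Φ G t x‖ₑ) ^ 2 =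
        (fun z : ℝ × P d => ‖gauss z.1‖ₑ ^ 2 *
          (⨆ t : ℝ, ‖psum φ g t z.2‖ₑ) ^ 2) (e x) := by
      intro x
      simp only
      simp_rw [hps, enorm_mul, ← ENNReal.mul_iSup, mul_pow]
    refine ((lintegral_congr h2).trans (hchg (fun z : ℝ × P d => ‖gauss z.1‖ₑ ^ 2 *
          (⨆ t : ℝ, ‖psum φ g t z.2‖ₑ) ^ 2))).trans ?_
    rw [show (volume : Measure (ℝ × P d)) = (volume : Measure ℝ).prod volume from rfl]
    rw [lintegral_prod_mul (f := fun τ : ℝ => ‖gauss τ‖ₑ ^ 2)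
      (g := fun x : P d => (⨆ t : ℝ, ‖psum φ g t x‖ₑ) ^ 2)]
    · exact (continuous_gauss.enorm.measurable.pow_const 2).aemeasurable
    · exact ((measurable_sup hφ hgi).pow_const 2).aemeasurable
  have hR : ∫⁻ ζ, ‖G ζ‖ₑ ^ 2 = K * ∫⁻ ζ, ‖g ζ‖ₑ ^ 2 := by
    have h2 : ∀ ζ, ‖G ζ‖ₑ ^ 2 = (fun z : ℝ × P d => ‖gauss z.1‖ₑ ^ 2 * ‖g z.2‖ₑ ^ 2) (e ζ) := by
      intro ζ
      simp only [hG, hH, enorm_mul, mul_pow]
    refine ((lintegral_congr h2).trans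
      (hchg (fun z : ℝ × P d => ‖gauss z.1‖ₑ ^ 2 * ‖g z.2‖ₑ ^ 2))).trans ?_
    rw [show (volume : Measure (ℝ × P d)) = (volume : Measure ℝ).prod volume from rfl]
    rw [lintegral_prod_mul (f := fun τ : ℝ => ‖gauss τ‖ₑ ^ 2) (g := fun x : P d => ‖g x‖ₑ ^ 2)]
    · exact (continuous_gauss.enorm.measurable.pow_const 2).aemeasurable
    · exact (hgi.aestronglyMeasurable.enorm.pow_const 2)
  rw [hL, hR, mul_left_comm] at h1
  exact (ENNReal.mul_le_mul_iff_right hK0 hKt).1 h1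

/-- removing several variables -/
theorem good_of_castAdd {p : ℕ} {ψ : P p → ℝ} (hψ : Measurable ψ) {C : ℝ≥0∞} (m : ℕ)
    (h : Good (fun ζ : P (p + m) => ψ fun i => ζ (Fin.castAdd m i)) C) : Good ψ C := by
  induction m with
  | zero => exact h
  | succ m ih =>
    refine ih (good_of_cyl ?_ h)
    exact hψ.comp (measurable_pi_lambda _ fun i => measurable_pi_apply _)

end Pool.Agent.Helper32.MF
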