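import Pool.Agent.Helper32.MF.Blow

/-!
# Blow-up along a subspace on which the second order part is positive
-/

open MeasureTheory Set Filter Complex Matrix Metric Asymptotics Module
open scoped ENNReal NNReal Topology Real

namespace Pool.Agent.Helper32.MF

variable {n : ℕ}

/-- completing an independent family -/
lemma exists_complete {p m : ℕ} {v : Fin p → P (p + m)} (hv : LinearIndependent ℝ v) :
    ∃ c : Fin m → P (p + m), ∀ (ζ : P p) (η : P m),
      ∑ i, ζ i • v i + ∑ l, η l • c l = 0 → ζ = 0 ∧ η = 0 := by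
  obtain ⟨W, hW⟩ := Submodule.exists_isCompl (Submodule.span ℝ (range v))
  have hfin : finrank ℝ W = m := by
    have h1 := Submodule.finrank_add_eq_of_isCompl hW
    rw [finrank_span_eq_card hv, Fintype.card_fin, Module.finrank_fin_fun] at h1
    omega
  set b := Module.finBasisOfFinrankEq ℝ W hfin with hb
  refine ⟨fun l => (b l : P (p + m)), fun ζ η h0 => ?_⟩
  have hx : ∑ i, ζ i • v i ∈ Submodule.span ℝ (range v) :=
    Submodule.sum_mem _ fun i _ => Submodule.smul_mem _ _ (Submodule.subset_span ⟨i, rfl⟩)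
  have hy : ∑ l, η l • (b l : P (p + m)) ∈ W :=
    Submodule.sum_mem _ fun l _ => Submodule.smul_mem _ _ (b l).2
  have hxy : ∑ i, ζ i • v i = -∑ l, η l • (b l : P (p + m)) := eq_neg_of_add_eq_zero_left h0
  have hx0 : ∑ i, ζ i • v i = 0 := by
    have h1 : ∑ i, ζ i • v i ∈ Submodule.span ℝ (range v) ⊓ W :=
      ⟨hx, by rw [hxy]; exact W.neg_mem hy⟩
    rw [hW.inf_eq_bot] at h1
    exact (Submodule.mem_bot ℝ).1 h1
  have hy0 : ∑ l, η l • (b l : P (p + m)) = 0 := by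
    rw [hx0, zero_add] at h0
    exact h0
  constructor
  · ext i
    exact Fintype.linearIndependent_iff.1 hv ζ hx0 i
  · ext l
    refine Fintype.linearIndependent_iff.1 b.linearIndependent η ?_ l
    apply Subtype.ext
    rw [Submodule.coe_sum]
    simpa using hy0

lemma linearIndependent_frame {k : ℕ} {b : Fin k → P n} {H : Matrix (Fin n) (Fin n) ℝ}
    (hb : ∀ c : Fin k → ℝ, (∑ i, c i • b i) ⬝ᵥ (H *ᵥ (∑ i, c i • b i)) = ∑ i, c i ^ 2) :
    LinearIndependent ℝ b := by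
  rw [Fintype.linearIndependent_iff]
  intro g hg i
  have h1 := hb g
  rw [hg, zero_dotProduct] at h1
  exact congrFun (sum_sq_eq_zero h1.symm) i

/-- **Blow-up** with given rates. -/
theorem good_core {p m : ℕ} {φ : P (p + m) → ℝ} (hφ : Measurable φ) {U : Set (P (p + m))}
    {ξ₀ : P (p + m)} (hU : U ∈ 𝓝 ξ₀) {C : ℝ≥0∞} (h : GoodOn φ U C) {a : P (p + m)}
    {H : Matrix (Fin (p + m)) (Fin (p + m)) ℝ}
    (hE : (fun h : P (p + m) => φ (ξ₀ + h) - φ ξ₀ - a ⬝ᵥ h - h ⬝ᵥ (H *ᵥ h)) =o[𝓝 0]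
      fun h => ‖h‖ ^ 2)
    {v : Fin p → P (p + m)} (hv : LinearIndependent ℝ v) {σ : ℕ → Fin p → ℝ} {σ₀ : Fin p → ℝ}
    (hσ0 : ∀ j i, 0 < σ j i) (hσ1 : ∀ j i, σ j i ≤ 1)
    (hσ : ∀ i, Tendsto (fun j => σ j i) atTop (𝓝 (σ₀ i))) {α : Fin p → ℝ}
    (hα : ∀ j i, σ j i * (a ⬝ᵥ v i) = sc j * α i) :
    Good (fun ζ : P p => ∑ i, α i * ζ i +
      (∑ i, (σ₀ i * ζ i) • v i) ⬝ᵥ (H *ᵥ (∑ i, (σ₀ i * ζ i) • v i))) C := by
  have hcont : Continuous fun ζ : P p => ∑ i, α i * ζ i +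
      (∑ i, (σ₀ i * ζ i) • v i) ⬝ᵥ (H *ᵥ (∑ i, (σ₀ i * ζ i) • v i)) := by
    have h1 : Continuous fun ζ : P p => ∑ i, (σ₀ i * ζ i) • v i := by fun_prop
    have h2 : Continuous fun y : P (p + m) => y ⬝ᵥ (H *ᵥ y) :=
      continuous_dot.comp (continuous_id.prodMk (continuous_const.matrix_mulVec continuous_id))
    have h3 := h2.comp h1
    simp only [Function.comp_def] at h3
    exact (by fun_prop : Continuous fun ζ : P p => ∑ i, α i * ζ i).add h3
  refine good_of_castAdd hcont.measurable m ?_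
  obtain ⟨c, hc⟩ := exists_complete hv
  -- the matrices
  set B : Matrix (Fin (p + m)) (Fin (p + m)) ℝ :=
    cols (Fin.addCases (motive := fun _ => P (p + m)) v c) with hB
  have hBm : ∀ ζ, B *ᵥ ζ = ∑ i, ζ (Fin.castAdd m i) • v i + ∑ l, ζ (Fin.natAdd p l) • c l := by
    intro ζ
    rw [hB, cols_mulVec, Fin.sum_univ_add]
    simp
  have hBdet : B.det ≠ 0 := by
    refine det_ne_zero_of_injective fun ζ h0 => ?_
    rw [hBm] at h0
    obtain ⟨h1, h2⟩ := hc (fun i => ζ (Fin.castAdd m i)) (fun l => ζ (Fin.natAdd p l)) h0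
    ext i
    refine Fin.addCases (fun i => ?_) (fun l => ?_) i
    · exact congrFun h1 i
    · exact congrFun h2 l
  set w : ℕ → Fin (p + m) → ℝ := fun j =>
    Fin.addCases (motive := fun _ => ℝ) (σ j) (fun _ => sc j ^ 2) with hw
  have hw0 : ∀ j i, 0 < w j i := by
    intro j i
    refine Fin.addCases (fun i => ?_) (fun l => ?_) i
    · simp only [hw, Fin.addCases_left]
      exact hσ0 j i
    · simp only [hw, Fin.addCases_right]
      exact pow_pos (sc_pos j) 2
  set M : ℕ → Matrix (Fin (p + m)) (Fin (p + m)) ℝ := fun j => B * (sc j • diagonal (w j)) with hM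
  set k : ℕ → P (p + m) → P (p + m) := fun j ζ =>
    ∑ i, (σ j i * ζ (Fin.castAdd m i)) • v i +
      ∑ l, (sc j ^ 2 * ζ (Fin.natAdd p l)) • c l with hk
  have hMk : ∀ j ζ, M j *ᵥ ζ = sc j • k j ζ := by
    intro j ζ
    rw [hM, hk]
    simp only
    rw [← mulVec_mulVec, smul_mulVec, mulVec_smul, hBm]
    congr 2
    · refine Finset.sum_congr rfl fun i _ => ?_
      rw [mulVec_diagonal, hw]
      simp only [Fin.addCases_left]
    · refine Finset.sum_congr rfl fun l _ => ?_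
      rw [mulVec_diagonal, hw]
      simp only [Fin.addCases_right]
  have hdet : ∀ j, (M j).det ≠ 0 := by
    intro j
    rw [hM]
    simp only
    rw [det_mul, det_smul, det_diagonal]
    exact mul_ne_zero hBdet (mul_ne_zero (pow_ne_zero _ (sc_pos j).ne')
      (Finset.prod_ne_zero_iff.2 fun i _ => (hw0 j i).ne'))
  refine good_of_blow hφ h (ξ₀ := ξ₀) (M := M) hdet ?_ (r := fun j => (sc j ^ 2)⁻¹)
    (fun j => inv_pos.2 (pow_pos (sc_pos j) 2)) ?_ ?_
  · -- the images of bounded sets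
    intro N
    obtain ⟨δ, hδ, hδU⟩ := Metric.mem_nhds_iff.1 hU
    set K : ℝ := ∑ i, |N| * ‖v i‖ + ∑ l, |N| * ‖c l‖ with hK
    have hK0 : 0 ≤ K := by positivity
    have h1 : ∀ᶠ j in atTop, sc j * K < δ := by
      have := tendsto_sc.mul_const K
      rw [zero_mul] at this
      exact this.eventually (gt_mem_nhds hδ)
    filter_upwards [h1] with j hj ζ hζ
    refine hδU ?_
    rw [mem_ball, dist_eq_norm, add_sub_cancel_left, hMk, norm_smul, Real.norm_eq_abs,
      abs_of_pos (sc_pos j)]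
    refine lt_of_le_of_lt (mul_le_mul_of_nonneg_left ?_ (sc_pos j).le) hj
    have hζN : ∀ i, |ζ i| ≤ |N| := by
      intro i
      rw [mem_closedBall_zero_iff] at hζ
      exact ((norm_le_pi_norm ζ i).trans hζ).trans (le_abs_self N)
    rw [hk]
    simp only
    refine (norm_add_le _ _).trans (add_le_add ?_ ?_)
    · refine (norm_sum_le _ _).trans (Finset.sum_le_sum fun i _ => ?_)
      rw [norm_smul]
      refine mul_le_mul_of_nonneg_right ?_ (norm_nonneg _)
      rw [Real.norm_eq_abs, abs_mul, abs_of_pos (hσ0 j i)]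
      calc σ j i * |ζ (Fin.castAdd m i)| ≤ 1 * |N| :=
            mul_le_mul (hσ1 j i) (hζN _) (abs_nonneg _) zero_le_one
        _ = |N| := one_mul _
    · refine (norm_sum_le _ _).trans (Finset.sum_le_sum fun l _ => ?_)
      rw [norm_smul]
      refine mul_le_mul_of_nonneg_right ?_ (norm_nonneg _)
      rw [Real.norm_eq_abs, abs_mul, abs_of_pos (pow_pos (sc_pos j) 2)]
      calc sc j ^ 2 * |ζ (Fin.natAdd p l)| ≤ 1 * |N| :=
            mul_le_mul (pow_le_one₀ (sc_pos j).le (sc_le j)) (hζN _) (abs_nonneg _) zero_le_one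
        _ = |N| := one_mul _
  · exact hcont.measurable.comp (measurable_pi_lambda _ fun i => measurable_pi_apply _)
  · -- the limit
    intro ζ
    set k₀ : P (p + m) := ∑ i, (σ₀ i * ζ (Fin.castAdd m i)) • v i with hk₀
    have hs2 : Tendsto (fun j => sc j ^ 2) atTop (𝓝 0) := by
      simpa using tendsto_sc.pow 2
    have hlim : Tendsto (fun j => k j ζ) atTop (𝓝 k₀) := by
      have h1 : Tendsto (fun j => ∑ i, (σ j i * ζ (Fin.castAdd m i)) • v i) atTop (𝓝 k₀) :=
        tendsto_finsetSum _ fun i _ => ((hσ i).mul_const _).smul_const _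
      have h2 : Tendsto (fun j => ∑ l, (sc j ^ 2 * ζ (Fin.natAdd p l)) • c l) atTop
          (𝓝 (∑ l, ((0:ℝ) * ζ (Fin.natAdd p l)) • c l)) :=
        tendsto_finsetSum _ fun l _ => (hs2.mul_const _).smul_const _
      have h3 := h1.add h2
      simp only [zero_mul, zero_smul, Finset.sum_const_zero, add_zero] at h3
      exact h3
    have hq : Tendsto (fun j => k j ζ ⬝ᵥ (H *ᵥ k j ζ)) atTop (𝓝 (k₀ ⬝ᵥ (H *ᵥ k₀))) := by
      have hcq : Continuous fun y : P (p + m) => y ⬝ᵥ (H *ᵥ y) :=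
        continuous_dot.comp (continuous_id.prodMk (continuous_const.matrix_mulVec continuous_id))
      exact (hcq.tendsto _).comp hlim
    -- the linear part
    set τ : ℝ := ∑ l, ζ (Fin.natAdd p l) * (a ⬝ᵥ c l) with hτ
    have hlin : ∀ j, a ⬝ᵥ k j ζ = sc j * (∑ i, α i * ζ (Fin.castAdd m i)) + sc j ^ 2 * τ := by
      intro j
      rw [hk]
      simp only
      rw [dotProduct_add, dotProduct_sum, dotProduct_sum, Finset.mul_sum, hτ, Finset.mul_sum]
      congr 1
      · refine Finset.sum_congr rfl fun i _ => ?_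
        rw [dotProduct_smul, smul_eq_mul]
        linear_combination (ζ (Fin.castAdd m i)) * hα j i
      · refine Finset.sum_congr rfl fun l _ => ?_
        rw [dotProduct_smul, smul_eq_mul]
        ring
    have hs : Tendsto (fun j => sc j * τ) atTop (𝓝 0) := by
      simpa using tendsto_sc.mul_const τ
    have h1 := (((tendsto_littleO hE hlim).add hs).add hq).add_const
      (∑ i, α i * ζ (Fin.castAdd m i))
    rw [add_zero, zero_add, add_comm (k₀ ⬝ᵥ (H *ᵥ k₀))] at h1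
    refine h1.congr fun j => ?_
    have hne := (pow_pos (sc_pos j) 2).ne'
    have hne1 := (sc_pos j).ne'
    have e1 : (sc j • k j ζ) ⬝ᵥ (H *ᵥ (sc j • k j ζ)) = sc j ^ 2 * (k j ζ ⬝ᵥ (H *ᵥ k j ζ)) := by
      rw [mulVec_smul, smul_dotProduct, dotProduct_smul, smul_eq_mul, smul_eq_mul]
      ring
    have e2 : a ⬝ᵥ (sc j • k j ζ) =
        sc j ^ 2 * ((∑ i, α i * ζ (Fin.castAdd m i)) + sc j * τ) := by
      rw [dotProduct_smul, hlin, smul_eq_mul]
      ring
    rw [hMk, e1, e2, mul_sub, mul_sub, inv_mul_cancel_left₀ hne, inv_mul_cancel_left₀ hne]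
    ring

/-- **Blow-up on a subspace orthogonal to the gradient.** -/
theorem good_dot_of_curved {φ : P n → ℝ} (hφ : Measurable φ) {U : Set (P n)} {ξ₀ : P n}
    (hU : U ∈ 𝓝 ξ₀) {C : ℝ≥0∞} (h : GoodOn φ U C) {a : P n} {H : Matrix (Fin n) (Fin n) ℝ}
    (hE : (fun h : P n => φ (ξ₀ + h) - φ ξ₀ - a ⬝ᵥ h - h ⬝ᵥ (H *ᵥ h)) =o[𝓝 0]
      fun h => ‖h‖ ^ 2) {V : Submodule ℝ (P n)} {k : ℕ} (hk : finrank ℝ V = k)
    (haV : ∀ h ∈ V, a ⬝ᵥ h = 0) (hH : ∀ h ∈ V, h ≠ 0 → 0 < h ⬝ᵥ (H *ᵥ h)) :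
    Good (fun ζ : P k => ζ ⬝ᵥ ζ) C := by
  have hkn : k ≤ n := by
    rw [← hk]
    refine (Submodule.finrank_le V).trans ?_
    rw [Module.finrank_fin_fun]
  obtain ⟨m, rfl⟩ := Nat.exists_eq_add_of_le hkn
  obtain ⟨b, hbV, hb⟩ := exists_frame V H hH hk
  have h1 := good_core hφ hU h hE (linearIndependent_frame hb) (σ := fun _ _ => 1)
    (σ₀ := fun _ => 1) (fun _ _ => one_pos) (fun _ _ => le_rfl) (fun _ => tendsto_const_nhds)
    (α := fun _ => 0) (fun j i => by rw [haV _ (hbV i), mul_zero, mul_zero])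
  refine (iff_of_eq (congrArg (Good · C) ?_)).1 h1
  ext ζ
  simp only [zero_mul, Finset.sum_const_zero, zero_add, one_mul]
  rw [hb]
  simp [dotProduct, pow_two]

/-- **Blow-up at a curved point.** -/
theorem good_par_of_curved' {φ : P n → ℝ} (hφ : Measurable φ) {U : Set (P n)} {ξ₀ : P n}
    (hU : U ∈ 𝓝 ξ₀) {C : ℝ≥0∞} (h : GoodOn φ U C) {a : P n} (ha : a ≠ 0)
    {H : Matrix (Fin n) (Fin n) ℝ}
    (hE : (fun h : P n => φ (ξ₀ + h) - φ ξ₀ - a ⬝ᵥ h - h ⬝ᵥ (H *ᵥ h)) =o[𝓝 0]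
      fun h => ‖h‖ ^ 2) {V : Submodule ℝ (P n)} {k : ℕ} (hk : finrank ℝ V = k)
    (haV : ∀ h ∈ V, a ⬝ᵥ h = 0) (hH : ∀ h ∈ V, h ≠ 0 → 0 < h ⬝ᵥ (H *ᵥ h)) :
    Good (par (d := k)) C := by
  obtain ⟨b, hbV, hb⟩ := exists_frame V H hH hk
  have haa : a ⬝ᵥ a ≠ 0 := fun h0 => ha (dotProduct_self_eq_zero.1 h0)
  have hab : ∀ i, a ⬝ᵥ b i = 0 := fun i => haV _ (hbV i)
  set v : Fin (k + 1) → P n := Fin.snoc (α := fun _ => P n) b ((a ⬝ᵥ a)⁻¹ • a) with hv
  have hvsum : ∀ g : Fin (k + 1) → ℝ, ∑ i, g i • v i =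
      (∑ i : Fin k, g i.castSucc • b i) + g (Fin.last k) • ((a ⬝ᵥ a)⁻¹ • a) := by
    intro g
    rw [Fin.sum_univ_castSucc]
    simp [hv]
  have hav : ∀ i, a ⬝ᵥ v i = (Fin.snoc (α := fun _ => ℝ) (fun _ : Fin k => (0 : ℝ)) 1 :
      Fin (k + 1) → ℝ) i := by
    intro i
    refine Fin.lastCases ?_ (fun i => ?_) i
    · simp only [hv, Fin.snoc_last]
      rw [dotProduct_smul, smul_eq_mul, inv_mul_cancel₀ haa]
    · simp only [hv, Fin.snoc_castSucc]
      exact hab i
  have hvli : LinearIndependent ℝ v := by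
    rw [Fintype.linearIndependent_iff]
    intro g hg
    rw [hvsum] at hg
    have h1 : g (Fin.last k) = 0 := by
      have h2 : a ⬝ᵥ ((∑ i : Fin k, g i.castSucc • b i) +
          g (Fin.last k) • ((a ⬝ᵥ a)⁻¹ • a)) = g (Fin.last k) := by
        rw [dotProduct_add, dotProduct_sum, dotProduct_smul, dotProduct_smul]
        simp only [dotProduct_smul, hab, mul_zero, Finset.sum_const_zero, zero_add, smul_eq_mul]
        rw [inv_mul_cancel₀ haa, mul_one]
      rw [← h2, hg, dotProduct_zero]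
    rw [h1, zero_smul, add_zero] at hg
    have h3 := Fintype.linearIndependent_iff.1 (linearIndependent_frame hb)
      (fun i => g i.castSucc) hg
    intro i
    refine Fin.lastCases ?_ (fun i => ?_) i
    · exact h1
    · exact h3 i
  have hkn : k + 1 ≤ n := by
    have := hvli.fintype_card_le_finrank
    rwa [Fintype.card_fin, Module.finrank_fin_fun] at this
  obtain ⟨m, rfl⟩ := Nat.exists_eq_add_of_le hkn
  have h1 := good_core hφ hU h hE hvli
    (σ := fun j => (Fin.snoc (α := fun _ => ℝ) (fun _ : Fin k => (1 : ℝ)) (sc j) :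
      Fin (k + 1) → ℝ))
    (σ₀ := (Fin.snoc (α := fun _ => ℝ) (fun _ : Fin k => (1 : ℝ)) 0 : Fin (k + 1) → ℝ))
    (α := (Fin.snoc (α := fun _ => ℝ) (fun _ : Fin k => (0 : ℝ)) 1 : Fin (k + 1) → ℝ))
    ?_ ?_ ?_ ?_
  · refine (iff_of_eq (congrArg (Good · C) ?_)).1 h1
    ext ζ
    rw [hvsum, Fin.sum_univ_castSucc]
    simp only [Fin.snoc_castSucc, Fin.snoc_last, zero_mul, Finset.sum_const_zero, zero_add,
      one_mul, zero_smul, add_zero, par]
    rw [hb]
  · intro j i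
    refine Fin.lastCases ?_ (fun i => ?_) i
    · simpa using sc_pos j
    · simp
  · intro j i
    refine Fin.lastCases ?_ (fun i => ?_) i
    · simpa using sc_le j
    · simp
  · intro i
    refine Fin.lastCases ?_ (fun i => ?_) i
    · simpa using tendsto_sc
    · simp
  · intro j i
    rw [hav]
    refine Fin.lastCases ?_ (fun i => ?_) i
    · simp
    · simp

end Pool.Agent.Helper32.MF
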