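import Pool.Agent.Helper32.MF.Affine

/-!
# The maximal inequality for test functions implies it for all functions in `L¹ ∩ L²`
-/

open MeasureTheory Set Filter Complex Matrix Metric
open scoped ENNReal NNReal Topology Real ContDiff

namespace Pool.Agent.Helper32.MF

variable {n : ℕ}

lemma ineq_of_tendsto {φ : P n → ℝ} (hφ : Measurable φ) {G : P n → ℂ} {g : ℕ → P n → ℂ}
    (hg : ∀ j, Integrable (g j))
    (h : ∀ t x, Tendsto (fun j => psum φ (g j) t x) atTop (𝓝 (psum φ G t x))) {A : ℝ≥0∞}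
    (hA : liminf (fun j => ∫⁻ x, (⨆ t : ℝ, ‖psum φ (g j) t x‖ₑ) ^ 2) atTop ≤ A) :
    ∫⁻ x, (⨆ t : ℝ, ‖psum φ G t x‖ₑ) ^ 2 ≤ A := by
  have key : ∀ x, (⨆ t : ℝ, ‖psum φ G t x‖ₑ) ^ 2 ≤
      liminf (fun j => (⨆ t : ℝ, ‖psum φ (g j) t x‖ₑ) ^ 2) atTop := by
    intro x
    rw [ENNReal.iSup_pow_of_ne_zero two_ne_zero]
    refine iSup_le fun s => ?_
    have h1 : Tendsto (fun j => ‖psum φ (g j) s x‖ₑ ^ 2) atTop (𝓝 (‖psum φ G s x‖ₑ ^ 2)) :=
      (ENNReal.continuous_pow 2).continuousAt.tendsto.comp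
        ((continuous_enorm.tendsto _).comp (h s x))
    rw [← h1.liminf_eq]
    refine liminf_le_liminf (Eventually.of_forall fun j => ?_)
    exact pow_le_pow_left' (le_iSup (fun t : ℝ => ‖psum φ (g j) t x‖ₑ) s) 2
  calc ∫⁻ x, (⨆ t : ℝ, ‖psum φ G t x‖ₑ) ^ 2
      ≤ ∫⁻ x, liminf (fun j => (⨆ t : ℝ, ‖psum φ (g j) t x‖ₑ) ^ 2) atTop := lintegral_mono key
    _ ≤ liminf (fun j => ∫⁻ x, (⨆ t : ℝ, ‖psum φ (g j) t x‖ₑ) ^ 2) atTop :=
        lintegral_liminf_le fun j => (measurable_sup hφ (hg j)).pow_const 2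
    _ ≤ A := hA

/-- the maximal inequality for smooth compactly supported functions -/
def GoodTest (φ : P n → ℝ) (C : ℝ≥0∞) : Prop :=
  ∀ G : P n → ℂ, ContDiff ℝ ∞ G → HasCompactSupport G →
    ∫⁻ x, (⨆ t : ℝ, ‖psum φ G t x‖ₑ) ^ 2 ≤ C * ∫⁻ ζ, ‖G ζ‖ₑ ^ 2

lemma lintegral_sq_eq {G : P n → ℂ} : ∫⁻ ζ, ‖G ζ‖ₑ ^ 2 = eLpNorm G 2 volume ^ 2 := by
  rw [eLpNorm_eq_lintegral_rpow_enorm_toReal two_ne_zero ENNReal.ofNat_ne_top]
  simp only [ENNReal.toReal_ofNat, one_div]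
  rw [← ENNReal.rpow_natCast, ← ENNReal.rpow_mul]
  norm_num

/-- functions with bounded support -/
lemma ineq_bounded {φ : P n → ℝ} (hφ : Measurable φ) {C : ℝ≥0∞} (hC : C ≠ ⊤)
    (h : GoodTest φ C) {G : P n → ℂ} {N : ℝ} (hN : 0 ≤ N) (hG2 : MemLp G 2)
    (hsupp : ∀ ζ, ζ ∉ closedBall (0 : P n) N → G ζ = 0) :
    ∫⁻ x, (⨆ t : ℝ, ‖psum φ G t x‖ₑ) ^ 2 ≤ C * ∫⁻ ζ, ‖G ζ‖ₑ ^ 2 := by
  -- the cutoff
  let χ : ContDiffBump (0 : P n) := ⟨N + 1, N + 2, by linarith, by linarith⟩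
  set B : Set (P n) := closedBall 0 (N + 2) with hB
  have hBfin : volume B ≠ ⊤ := (isCompact_closedBall _ _).measure_lt_top.ne
  have happ : ∀ j : ℕ, ∃ g : P n → ℂ, HasCompactSupport g ∧ ContDiff ℝ ∞ g ∧
      eLpNorm (G - g) 2 volume ≤ ENNReal.ofReal (1 / (j + 1)) := fun j =>
    hG2.exist_eLpNorm_sub_le ENNReal.ofNat_ne_top one_le_two (by positivity)
  choose g' hg'1 hg'2 hg'3 using happ
  set g : ℕ → P n → ℂ := fun j ζ => ((χ ζ : ℝ) : ℂ) * g' j ζ with hg
  have hgs : ∀ j, ContDiff ℝ ∞ (g j) := fun j =>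
    (Complex.ofRealCLM.contDiff.comp χ.contDiff).mul (hg'2 j)
  have hgc : ∀ j, HasCompactSupport (g j) := fun j => (hg'1 j).mul_left
  have hχ1 : ∀ ζ ∈ closedBall (0 : P n) N, χ ζ = 1 := fun ζ hζ =>
    χ.one_of_mem_closedBall (closedBall_subset_closedBall (by simp [χ]) hζ)
  have hpt : ∀ j ζ, ‖G ζ - g j ζ‖ ≤ ‖(G - g' j) ζ‖ := by
    intro j ζ
    rw [Pi.sub_apply]
    by_cases hζ : ζ ∈ closedBall (0 : P n) N
    · simp only [hg, hχ1 ζ hζ, ofReal_one, one_mul, le_refl]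
    · simp only [hg, hsupp ζ hζ, zero_sub, norm_neg, norm_mul, norm_real, Real.norm_eq_abs,
        abs_of_nonneg χ.nonneg]
      exact mul_le_of_le_one_left (norm_nonneg _) χ.le_one
  have hout : ∀ j ζ, ζ ∉ B → G ζ - g j ζ = 0 := by
    intro j ζ hζ
    have h1 : G ζ = 0 := hsupp ζ fun h => hζ (closedBall_subset_closedBall (by linarith) h)
    have h2 : χ ζ = 0 := by
      refine χ.zero_of_le_dist ?_
      have : N + 2 < dist ζ 0 := not_le.1 fun h => hζ (mem_closedBall.2 h)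
      exact this.le
    simp [hg, h1, h2]
  have hg1 : ∀ j, Integrable (g j) := fun j =>
    (hgs j).continuous.integrable_of_hasCompactSupport (hgc j)
  have hg2 : ∀ j, MemLp (g j) 2 := fun j =>
    (hgs j).continuous.memLp_of_hasCompactSupport (hgc j)
  have hd2 : ∀ j, eLpNorm (fun ζ => G ζ - g j ζ) 2 volume ≤ ENNReal.ofReal (1 / (j + 1)) :=
    fun j => (eLpNorm_mono (hpt j)).trans (hg'3 j)
  -- `L¹` estimate of the difference
  have hd1 : ∀ j, ∫⁻ ζ, ‖G ζ - g j ζ‖ₑ ≤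
      ENNReal.ofReal (1 / (j + 1)) * volume B ^ (1 / (1:ℝ) - 1 / 2) := by
    intro j
    have e1 : ∫⁻ ζ, ‖G ζ - g j ζ‖ₑ = ∫⁻ ζ in B, ‖G ζ - g j ζ‖ₑ := by
      rw [← lintegral_indicator measurableSet_closedBall]
      refine lintegral_congr fun ζ => ?_
      by_cases hζ : ζ ∈ B
      · rw [indicator_of_mem hζ]
      · rw [indicator_of_notMem hζ, hout j ζ hζ, enorm_zero]
    have e2 : ∫⁻ ζ in B, ‖G ζ - g j ζ‖ₑ =
        eLpNorm (fun ζ => G ζ - g j ζ) 1 (volume.restrict B) := by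
      rw [eLpNorm_one_eq_lintegral_enorm]
    rw [e1, e2]
    have hm : AEStronglyMeasurable (fun ζ => G ζ - g j ζ) (volume.restrict B) :=
      (hG2.aestronglyMeasurable.sub (hg2 j).aestronglyMeasurable).restrict
    have := eLpNorm_le_eLpNorm_mul_rpow_measure_univ (p := 1) (q := 2) one_le_two hm
    refine this.trans ?_
    have h3 : (volume.restrict B) univ = volume B := by simp
    have h4 : (1 / ENNReal.toReal 1 - 1 / ENNReal.toReal 2) = 1 / (1:ℝ) - 1 / 2 := by simp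
    rw [h3, h4]
    exact mul_le_mul' ((eLpNorm_mono_measure _ Measure.restrict_le_self).trans (hd2 j)) le_rfl
  have hδ : Tendsto (fun j : ℕ => ENNReal.ofReal (1 / ((j:ℝ) + 1)) *
      volume B ^ (1 / (1:ℝ) - 1 / 2)) atTop (𝓝 0) := by
    have h0 : Tendsto (fun j : ℕ => ENNReal.ofReal (1 / ((j:ℝ) + 1))) atTop (𝓝 0) := by
      have := ENNReal.tendsto_ofReal tendsto_one_div_add_atTop_nhds_zero_nat
      simpa using this
    have hfin : volume B ^ (1 / (1:ℝ) - 1 / 2) ≠ ⊤ :=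
      ENNReal.rpow_ne_top_of_nonneg (by norm_num) hBfin
    have := ENNReal.Tendsto.mul_const h0 (Or.inr hfin)
    simpa using this
  have hG1 : Integrable G := by
    have h1 : Integrable (fun ζ => G ζ - g 0 ζ) := by
      refine ⟨hG2.aestronglyMeasurable.sub (hg2 0).aestronglyMeasurable, ?_⟩
      rw [HasFiniteIntegral]
      refine (hd1 0).trans_lt ?_
      exact ENNReal.mul_lt_top ENNReal.ofReal_lt_top
        (ENNReal.rpow_lt_top_of_nonneg (by norm_num) hBfin)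
    have := h1.add (hg1 0)
    refine this.congr (Eventually.of_forall fun ζ => ?_)
    simp
  have hlim : ∀ t x, Tendsto (fun j => psum φ (g j) t x) atTop (𝓝 (psum φ G t x)) := by
    intro t x
    rw [tendsto_iff_norm_sub_tendsto_zero]
    have hb : ∀ j, ‖psum φ (g j) t x - psum φ G t x‖ₑ ≤
        ENNReal.ofReal (1 / (j + 1)) * volume B ^ (1 / (1:ℝ) - 1 / 2) := by
      intro j
      refine le_trans ?_ (hd1 j)
      unfold psum
      rw [← integral_sub (integrable_mul_ch (hg1 j) x).integrableOn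
        (integrable_mul_ch hG1 x).integrableOn]
      refine (enorm_integral_le_lintegral_enorm _).trans ?_
      refine (lintegral_mono' Measure.restrict_le_self le_rfl).trans
        (lintegral_mono fun ζ => ?_)
      rw [← sub_mul, enorm_mul, ← neg_sub, enorm_neg]
      have : ‖ch x ζ‖ₑ = 1 := by rw [← ofReal_norm, norm_ch, ENNReal.ofReal_one]
      rw [this, mul_one]
    have h1 : Tendsto (fun j => ‖psum φ (g j) t x - psum φ G t x‖ₑ) atTop (𝓝 0) :=
      tendsto_of_tendsto_of_tendsto_of_le_of_le tendsto_const_nhds hδ (fun _ => bot_le) hb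
    have h2 := (ENNReal.tendsto_toReal ENNReal.zero_ne_top).comp h1
    simpa [Function.comp_def, toReal_enorm] using h2
  refine ineq_of_tendsto hφ hg1 hlim ?_
  -- the right hand side
  have hr : ∀ j, ∫⁻ x, (⨆ t : ℝ, ‖psum φ (g j) t x‖ₑ) ^ 2 ≤
      C * (eLpNorm G 2 volume + ENNReal.ofReal (1 / (j + 1))) ^ 2 := by
    intro j
    refine (h (g j) (hgs j) (hgc j)).trans ?_
    rw [lintegral_sq_eq]
    gcongr
    have e : g j = G - fun ζ => G ζ - g j ζ := by ext ζ; simp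
    calc eLpNorm (g j) 2 volume = eLpNorm (G - fun ζ => G ζ - g j ζ) 2 volume := by rw [← e]
      _ ≤ eLpNorm G 2 volume + eLpNorm (fun ζ => G ζ - g j ζ) 2 volume :=
        eLpNorm_sub_le hG2.aestronglyMeasurable
          (hG2.aestronglyMeasurable.sub (hg2 j).aestronglyMeasurable) one_le_two
      _ ≤ _ := by gcongr; exact hd2 j
  have ht : Tendsto (fun j : ℕ => C * (eLpNorm G 2 volume + ENNReal.ofReal (1 / ((j:ℝ) + 1))) ^ 2)
      atTop (𝓝 (C * (eLpNorm G 2 volume + 0) ^ 2)) := by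
    refine ENNReal.Tendsto.const_mul ?_ (Or.inr hC)
    refine ((ENNReal.continuous_pow 2).tendsto _).comp ?_
    refine tendsto_const_nhds.add ?_
    have := ENNReal.tendsto_ofReal tendsto_one_div_add_atTop_nhds_zero_nat
    simpa using this
  calc liminf (fun j => ∫⁻ x, (⨆ t : ℝ, ‖psum φ (g j) t x‖ₑ) ^ 2) atTop
      ≤ liminf (fun j : ℕ => C * (eLpNorm G 2 volume + ENNReal.ofReal (1 / ((j:ℝ) + 1))) ^ 2)
        atTop := liminf_le_liminf (Eventually.of_forall hr)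
    _ = C * (eLpNorm G 2 volume + 0) ^ 2 := ht.liminf_eq
    _ = C * ∫⁻ ζ, ‖G ζ‖ₑ ^ 2 := by rw [add_zero, lintegral_sq_eq]

/-- **Test functions suffice.** -/
theorem good_of_test {φ : P n → ℝ} (hφ : Measurable φ) {C : ℝ≥0∞} (hC : C ≠ ⊤)
    (h : GoodTest φ C) : Good φ C := by
  intro G hG1 hG2
  have hG : Integrable G := memLp_one_iff_integrable.1 hG1
  set g : ℕ → P n → ℂ := fun j => (closedBall (0 : P n) j).indicator G with hg
  have hg1 : ∀ j, Integrable (g j) := fun j => hG.indicator measurableSet_closedBall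
  have hg2 : ∀ j, MemLp (g j) 2 := fun j => hG2.indicator measurableSet_closedBall
  refine ineq_of_tendsto hφ hg1 ?_ ?_
  · intro t x
    unfold psum
    refine tendsto_integral_of_dominated_convergence (fun ζ => ‖G ζ‖) ?_ hG.norm.restrict ?_ ?_
    · intro j
      exact (integrable_mul_ch (hg1 j) x).aestronglyMeasurable.restrict
    · intro j
      refine Eventually.of_forall fun ζ => ?_
      rw [norm_mul, norm_ch, mul_one]
      exact norm_indicator_le_norm_self _ _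
    · refine Eventually.of_forall fun ζ => ?_
      refine tendsto_const_nhds.congr' ?_
      filter_upwards [eventually_ge_atTop ⌈‖ζ‖⌉₊] with j hj
      have : ζ ∈ closedBall (0 : P n) j := by
        rw [mem_closedBall_zero_iff]
        exact (Nat.le_ceil _).trans (by exact_mod_cast hj)
      simp only [hg]
      rw [indicator_of_mem this]
  · have hr : ∀ j, ∫⁻ x, (⨆ t : ℝ, ‖psum φ (g j) t x‖ₑ) ^ 2 ≤ C * ∫⁻ ζ, ‖G ζ‖ₑ ^ 2 := by
      intro j
      refine (ineq_bounded hφ hC h (Nat.cast_nonneg j) (hg2 j) ?_).trans ?_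
      · intro ζ hζ
        exact indicator_of_notMem hζ _
      · gcongr with ζ
        exact enorm_indicator_le_enorm_self _ _
    calc liminf (fun j => ∫⁻ x, (⨆ t : ℝ, ‖psum φ (g j) t x‖ₑ) ^ 2) atTop
        ≤ liminf (fun _ : ℕ => C * ∫⁻ ζ, ‖G ζ‖ₑ ^ 2) atTop :=
          liminf_le_liminf (Eventually.of_forall hr)
      _ = C * ∫⁻ ζ, ‖G ζ‖ₑ ^ 2 := by simp

end Pool.Agent.Helper32.MF
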