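import Pool.Agent.Helper32.MF.Dense

/-!
# The maximal inequality for Schwartz functions on Euclidean space
-/

open MeasureTheory Set Filter Complex Matrix Metric SchwartzMap
open scoped ENNReal NNReal Topology Real ContDiff InnerProductSpace FourierTransform

namespace Pool.Agent.Helper32.MF

variable {n : ℕ}

/-- `ℝⁿ` with the Euclidean norm -/
abbrev E (n : ℕ) : Type := EuclideanSpace ℝ (Fin n)

/-- the partial Fourier integral of the Schwartz function `f` over the set `{φ ≤ t}` -/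
noncomputable def partialInt (φ : E n → ℝ) (f : 𝓢(E n, ℂ)) (t : ℝ) (x : E n) : ℂ :=
  ∫ ξ in {ξ | φ ξ ≤ t}, 𝓕 (f : E n → ℂ) ξ * cexp (((2 * π * ⟪x, ξ⟫_ℝ : ℝ) : ℂ) * I)

/-- the maximal estimate for the partial Fourier integrals over the sets `{φ ≤ t}`, `t ∈ ℝ` -/
def MaxEst (φ : E n → ℝ) (C : ℝ≥0∞) : Prop :=
  ∀ f : 𝓢(E n, ℂ), ∫⁻ x, (⨆ t : ℝ, ‖partialInt φ f t x‖ₑ) ^ 2 ≤ C * ∫⁻ x, ‖f x‖ₑ ^ 2

lemma ch_eq_inner (x ξ : E n) :
    cexp (((2 * π * ⟪x, ξ⟫_ℝ : ℝ) : ℂ) * I) = ch (WithLp.ofLp x) (WithLp.ofLp ξ) := by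
  rw [ch]
  congr 4
  simp [EuclideanSpace.inner_eq_star_dotProduct, dotProduct_comm]

lemma plancherel (f : 𝓢(E n, ℂ)) : ∫⁻ ξ, ‖𝓕 (f : E n → ℂ) ξ‖ₑ ^ 2 = ∫⁻ x, ‖f x‖ₑ ^ 2 := by
  have h := integral_norm_sq_fourier f
  have h1 : MemLp (f : E n → ℂ) 2 volume := f.memLp 2
  have h2 : MemLp (((𝓕 f : 𝓢(E n, ℂ))) : E n → ℂ) 2 volume := (𝓕 f : 𝓢(E n, ℂ)).memLp 2
  have e : ∀ g : E n → ℂ, MemLp g 2 volume →
      ∫⁻ x, ‖g x‖ₑ ^ 2 = ENNReal.ofReal (∫ x, ‖g x‖ ^ 2) := by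
    intro g hg
    rw [ofReal_integral_eq_lintegral_ofReal]
    · refine lintegral_congr fun x => ?_
      rw [← ofReal_norm, ENNReal.ofReal_pow (norm_nonneg _)]
    · exact hg.integrable_norm_pow two_ne_zero
    · exact Eventually.of_forall fun x => by positivity
  rw [e _ h1, ← h, ← e _ h2]
  rfl

lemma partialInt_eq (φ : E n → ℝ) (f : 𝓢(E n, ℂ)) (t : ℝ) (x : E n) :
    partialInt φ f t x =
      psum (fun ζ => φ (WithLp.toLp 2 ζ)) (fun ζ => 𝓕 (f : E n → ℂ) (WithLp.toLp 2 ζ)) t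
        (WithLp.ofLp x) := by
  unfold partialInt psum
  have h := (PiLp.volume_preserving_toLp (Fin n)).setIntegral_preimage_emb
    (MeasurableEquiv.toLp 2 (Fin n → ℝ)).measurableEmbedding
    (fun ξ : E n => 𝓕 (f : E n → ℂ) ξ * cexp (((2 * π * ⟪x, ξ⟫_ℝ : ℝ) : ℂ) * I)) {ξ | φ ξ ≤ t}
  rw [← h]
  simp only [ch_eq_inner]
  rfl

lemma lintegral_toLp (F : P n → ℝ≥0∞) : ∫⁻ x : E n, F (WithLp.ofLp x) = ∫⁻ ζ, F ζ :=
  (PiLp.volume_preserving_ofLp (Fin n)).lintegral_comp_emb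
    (MeasurableEquiv.toLp 2 (Fin n → ℝ)).symm.measurableEmbedding F

lemma lintegral_ofLp (F : E n → ℝ≥0∞) : ∫⁻ ζ : P n, F (WithLp.toLp 2 ζ) = ∫⁻ x, F x :=
  (PiLp.volume_preserving_toLp (Fin n)).lintegral_comp_emb
    (MeasurableEquiv.toLp 2 (Fin n → ℝ)).measurableEmbedding F

theorem maxEst_of_good {φ : E n → ℝ} {C : ℝ≥0∞}
    (h : Good (fun ζ => φ (WithLp.toLp 2 ζ)) C) : MaxEst φ C := by
  intro f
  simp_rw [partialInt_eq]
  set G : P n → ℂ := fun ζ => 𝓕 (f : E n → ℂ) (WithLp.toLp 2 ζ) with hG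
  have hm : ∀ p : ℝ≥0∞, MemLp G p := fun p =>
    ((𝓕 f).memLp p (μ := volume)).comp_measurePreserving (PiLp.volume_preserving_toLp (Fin n))
  have h1 := h G (hm 1) (hm 2)
  rw [← lintegral_toLp] at h1
  refine h1.trans (le_of_eq ?_)
  congr 1
  rw [← plancherel f, ← lintegral_ofLp]

theorem good_of_maxEst {φ : E n → ℝ} (hφ : Measurable φ) {C : ℝ≥0∞} (hC : C ≠ ⊤)
    (h : MaxEst φ C) : Good (fun ζ => φ (WithLp.toLp 2 ζ)) C := by
  have hm : Measurable fun ζ : P n => φ (WithLp.toLp 2 ζ) :=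
    hφ.comp (MeasurableEquiv.toLp 2 (Fin n → ℝ)).measurable
  refine good_of_test hm hC ?_
  intro G hG1 hG2
  -- the Schwartz function with Fourier transform `G`
  have hs1 : ContDiff ℝ ∞ fun ξ : E n => G (WithLp.ofLp ξ) :=
    hG1.comp (EuclideanSpace.equiv (Fin n) ℝ).contDiff
  have hs2 : HasCompactSupport fun ξ : E n => G (WithLp.ofLp ξ) :=
    hG2.comp_homeomorph (EuclideanSpace.equiv (Fin n) ℝ).toHomeomorph
  set F : 𝓢(E n, ℂ) := hs2.toSchwartzMap hs1 with hF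
  set f : 𝓢(E n, ℂ) := 𝓕⁻ F with hf
  have hff : ∀ ξ, 𝓕 (f : E n → ℂ) ξ = G (WithLp.ofLp ξ) := by
    intro ξ
    have h1 : 𝓕 f = F := by rw [hf]; exact FourierTransform.fourier_fourierInv_eq F
    rw [← fourier_coe, h1]
    rfl
  have h1 := h f
  simp_rw [partialInt_eq, hff] at h1
  rw [← plancherel f] at h1
  simp_rw [hff] at h1
  rw [lintegral_toLp (fun ζ => ‖G ζ‖ₑ ^ 2),
    lintegral_toLp (fun x => (⨆ t : ℝ, ‖psum (fun ζ => φ (WithLp.toLp 2 ζ))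
      (fun ζ => G (WithLp.ofLp (WithLp.toLp 2 ζ))) t x‖ₑ) ^ 2)] at h1
  exact h1

/-! ### Ball partial sums -/

/-- the ball partial sum `S_R f` -/
noncomputable def ballSum (f : 𝓢(E n, ℂ)) (R : ℝ) (x : E n) : ℂ :=
  ∫ ξ in {ξ : E n | ‖ξ‖ ≤ R}, 𝓕 (f : E n → ℂ) ξ * cexp (((2 * π * ⟪x, ξ⟫_ℝ : ℝ) : ℂ) * I)

/-- the estimate `∫ (sup_{R>0} |S_R f|)² ≤ C ∫ |f|²` for all Schwartz functions -/
def BallEst (n : ℕ) (C : ℝ≥0∞) : Prop :=
  ∀ f : 𝓢(E n, ℂ), ∫⁻ x, (⨆ R : {R : ℝ // 0 < R}, ‖ballSum f R x‖ₑ) ^ 2 ≤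
    C * ∫⁻ x, ‖f x‖ₑ ^ 2

lemma ballSum_nonpos (hn : 1 ≤ n) (f : 𝓢(E n, ℂ)) {t : ℝ} (ht : t ≤ 0) (x : E n) :
    partialInt (fun ξ => ‖ξ‖) f t x = 0 := by
  have : Nonempty (Fin n) := ⟨⟨0, hn⟩⟩
  have hs : volume {ξ : E n | ‖ξ‖ ≤ t} = 0 := by
    refine measure_mono_null (t := {(0 : E n)}) ?_ (measure_singleton _)
    intro ξ hξ
    have : ‖ξ‖ ≤ 0 := le_trans hξ ht
    simpa using this
  unfold partialInt
  exact setIntegral_measure_zero _ hs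

lemma iSup_ball (hn : 1 ≤ n) (f : 𝓢(E n, ℂ)) (x : E n) :
    ⨆ R : {R : ℝ // 0 < R}, ‖ballSum f R x‖ₑ = ⨆ t : ℝ, ‖partialInt (fun ξ => ‖ξ‖) f t x‖ₑ := by
  apply le_antisymm
  · exact iSup_le fun R => le_iSup (fun t : ℝ => ‖partialInt (fun ξ => ‖ξ‖) f t x‖ₑ) (R : ℝ)
  · refine iSup_le fun t => ?_
    rcases le_or_gt t 0 with h | h
    · rw [ballSum_nonpos hn f h x, enorm_zero]
      exact zero_le
    · exact le_iSup (fun R : {R : ℝ // 0 < R} => ‖ballSum f R x‖ₑ) ⟨t, h⟩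

lemma ballEst_iff (hn : 1 ≤ n) (C : ℝ≥0∞) : BallEst n C ↔ MaxEst (fun ξ : E n => ‖ξ‖) C := by
  unfold BallEst MaxEst
  simp_rw [iSup_ball hn]

lemma dot_self_eq (ζ : P n) : ζ ⬝ᵥ ζ = ‖(WithLp.toLp 2 ζ : E n)‖ ^ 2 := by
  rw [EuclideanSpace.norm_sq_eq]
  simp [dotProduct, pow_two]

theorem good_dot_of_ball (hn : 1 ≤ n) {C : ℝ≥0∞} (hC : C ≠ ⊤) (h : BallEst n C) :
    Good (fun ζ : P n => ζ ⬝ᵥ ζ) C := by
  have h1 := good_of_maxEst measurable_norm hC ((ballEst_iff hn C).1 h)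
  have hm : Measurable fun ζ : P n => ‖(WithLp.toLp 2 ζ : E n)‖ :=
    measurable_norm.comp (MeasurableEquiv.toLp 2 (Fin n → ℝ)).measurable
  have hg : Monotone fun r : ℝ => r * |r| := by
    intro a b hab
    rcases le_total 0 a with ha | ha
    · have hb := ha.trans hab
      simp only [abs_of_nonneg ha, abs_of_nonneg hb]
      nlinarith
    · rcases le_total 0 b with hb | hb
      · simp only [abs_of_nonpos ha, abs_of_nonneg hb]
        nlinarith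
      · simp only [abs_of_nonpos ha, abs_of_nonpos hb]
        nlinarith
  have h2 := good_monotone_comp hm h1 hg
  refine (iff_of_eq (congrArg (Good · C) ?_)).1 h2
  ext ζ
  rw [dot_self_eq, abs_of_nonneg (norm_nonneg _), pow_two]

theorem ball_of_good_dot (hn : 1 ≤ n) {C : ℝ≥0∞} (h : Good (fun ζ : P n => ζ ⬝ᵥ ζ) C) :
    BallEst n C := by
  rw [ballEst_iff hn]
  refine maxEst_of_good ?_
  have hm : Measurable fun ζ : P n => ζ ⬝ᵥ ζ := by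
    have := continuous_dot (n := n)
    exact (this.comp (by fun_prop : Continuous fun ζ : P n => (ζ, ζ))).measurable
  have h2 := good_monotone_comp hm h (g := Real.sqrt) fun a b hab => Real.sqrt_le_sqrt hab
  refine (iff_of_eq (congrArg (Good · C) ?_)).1 h2
  ext ζ
  rw [dot_self_eq, Real.sqrt_sq (norm_nonneg _)]

end Pool.Agent.Helper32.MF
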