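import Pool.Agent.Helper32.MF.Lattice

/-!
# The second order expansions of the examples, and complements
-/

open MeasureTheory Set Filter Complex Matrix Metric Asymptotics Module
open scoped ENNReal NNReal Topology Real

namespace Pool.Agent.Helper32.MF

variable {n : ℕ}

/-- the complementary sets, local version -/
theorem goodOn_neg {φ : P n → ℝ} (hφ : Measurable φ) {U : Set (P n)} {C : ℝ≥0∞}
    (h : GoodOn φ U C) : GoodOn (fun ζ => -φ ζ) U (4 * C) := by
  intro G hG1 hG2 hG0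
  have hG : Integrable G := memLp_one_iff_integrable.1 hG1
  have key : ∀ x, ⨆ t : ℝ, ‖psum (fun ζ => -φ ζ) G t x‖ₑ ≤ 2 * ⨆ t : ℝ, ‖psum φ G t x‖ₑ := by
    intro x
    refine iSup_le fun t => ?_
    have hset : {ζ | -φ ζ ≤ t} = (φ ⁻¹' Iio (-t))ᶜ := by
      ext ζ
      simp only [mem_ofPred_eq, mem_compl_iff, mem_preimage, mem_Iio, not_lt]
      exact neg_le
    have h1 : psum (fun ζ => -φ ζ) G t x =
        (∫ ζ in φ ⁻¹' univ, G ζ * ch x ζ) - ∫ ζ in φ ⁻¹' Iio (-t), G ζ * ch x ζ := by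
      unfold psum
      rw [hset, eq_sub_iff_add_eq, add_comm, integral_add_compl (hφ measurableSet_Iio)
        (integrable_mul_ch hG x), preimage_univ, setIntegral_univ]
    rw [h1, two_mul]
    refine enorm_sub_le.trans (add_le_add ?_ ?_)
    · exact enorm_lowerSet_le hφ hG isLowerSet_univ x
    · exact enorm_lowerSet_le hφ hG (isLowerSet_Iio _) x
  calc ∫⁻ x, (⨆ t : ℝ, ‖psum (fun ζ => -φ ζ) G t x‖ₑ) ^ 2
      ≤ ∫⁻ x, (2 * ⨆ t : ℝ, ‖psum φ G t x‖ₑ) ^ 2 :=
        lintegral_mono fun x => pow_le_pow_left' (key x) 2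
    _ = ∫⁻ x, 4 * (⨆ t : ℝ, ‖psum φ G t x‖ₑ) ^ 2 := by
        refine lintegral_congr fun x => ?_
        rw [mul_pow]
        norm_num
    _ = 4 * ∫⁻ x, (⨆ t : ℝ, ‖psum φ G t x‖ₑ) ^ 2 :=
        lintegral_const_mul' _ _ (by norm_num)
    _ ≤ 4 * (C * ∫⁻ ζ, ‖G ζ‖ₑ ^ 2) := by
        gcongr
        exact h G hG1 hG2 hG0
    _ = 4 * C * ∫⁻ ζ, ‖G ζ‖ₑ ^ 2 := by rw [mul_assoc]

lemma coord_isBigO (i : Fin n) : (fun h : P n => h i) =O[𝓝 0] fun h => ‖h‖ :=
  IsBigO.of_bound 1 (Eventually.of_forall fun h => by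
    rw [one_mul, norm_norm]
    exact norm_le_pi_norm h i)

/-! ### The discrete Laplacian -/

lemma cos_littleO : (fun x : ℝ => 1 - Real.cos (2 * π * x) - 2 * π ^ 2 * x ^ 2) =o[𝓝 0]
    fun x => x ^ 2 := by
  have h1 : (fun x : ℝ => 1 - Real.cos (2 * π * x) - 2 * π ^ 2 * x ^ 2) =O[𝓝 0]
      fun x => x ^ 4 := by
    refine IsBigO.of_bound ((2 * π) ^ 4 * (5 / 96)) ?_
    have h2 : ∀ᶠ x : ℝ in 𝓝 0, |2 * π * x| < 1 := by
      have hc : Continuous fun x : ℝ => |2 * π * x| := by fun_prop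
      have := hc.tendsto 0
      rw [mul_zero, abs_zero] at this
      exact this.eventually (gt_mem_nhds one_pos)
    filter_upwards [h2] with x hx
    have h3 := Real.cos_bound hx.le
    have e : 1 - Real.cos (2 * π * x) - 2 * π ^ 2 * x ^ 2 =
        -(Real.cos (2 * π * x) - (1 - (2 * π * x) ^ 2 / 2)) := by ring
    rw [e, norm_neg, Real.norm_eq_abs, Real.norm_eq_abs]
    refine h3.trans (le_of_eq ?_)
    rw [abs_mul, abs_of_pos (by positivity : (0:ℝ) < 2 * π), mul_pow, abs_pow]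
    ring
  exact h1.trans_isLittleO (isLittleO_pow_pow (by norm_num))

/-- the symbol of the discrete Laplacian -/
noncomputable def lap (ξ : P n) : ℝ := ∑ i, (1 - Real.cos (2 * π * ξ i))

lemma continuous_lap : Continuous (lap (n := n)) := by
  unfold lap
  fun_prop

lemma lap_expand : (fun h : P n => lap (0 + h) - lap (0 : P n) - (0 : P n) ⬝ᵥ h -
    h ⬝ᵥ (((2 * π ^ 2) • (1 : Matrix (Fin n) (Fin n) ℝ)) *ᵥ h)) =o[𝓝 0] fun h => ‖h‖ ^ 2 := by
  have h1 : ∀ i : Fin n, (fun h : P n => 1 - Real.cos (2 * π * h i) - 2 * π ^ 2 * h i ^ 2)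
      =o[𝓝 0] fun h => ‖h‖ ^ 2 := by
    intro i
    have ht : Tendsto (fun h : P n => h i) (𝓝 0) (𝓝 0) := by
      have := (continuous_apply i).tendsto (0 : P n)
      simpa using this
    exact (cos_littleO.comp_tendsto ht).trans_isBigO ((coord_isBigO i).pow 2)
  have h2 := IsLittleO.fun_sum (s := Finset.univ) fun i (_ : i ∈ Finset.univ) => h1 i
  refine h2.congr_left fun h => ?_
  rw [zero_add, zero_dotProduct, smul_mulVec, one_mulVec, dotProduct_smul, smul_eq_mul, lap, lap]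
  simp only [Pi.zero_apply, mul_zero, Real.cos_zero, sub_self, Finset.sum_const_zero, sub_zero,
    dotProduct, Finset.mul_sum]
  rw [Finset.sum_sub_distrib]
  congr 1
  exact Finset.sum_congr rfl fun i _ => by ring

theorem good_dot_of_lap {C : ℝ≥0∞} (h : Lat (lap (n := n)) C) :
    Good (fun ζ : P n => ζ ⬝ᵥ ζ) C := by
  refine good_dot_of_curved continuous_lap.measurable (U := halfCube n) (ξ₀ := 0) ?_
    (goodOn_of_lat continuous_lap.measurable h) lap_expand (V := ⊤) ?_ ?_ ?_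
  · refine Filter.mem_of_superset (Metric.closedBall_mem_nhds (0 : P n)
      (by norm_num : (0:ℝ) < 1 / 2)) ?_
    intro ξ hξ i
    rw [mem_closedBall_zero_iff] at hξ
    exact (norm_le_pi_norm ξ i).trans hξ
  · rw [finrank_top, Module.finrank_fin_fun]
  · intro h _
    exact zero_dotProduct _
  · intro h _ h0
    rw [smul_mulVec, one_mulVec, dotProduct_smul, smul_eq_mul]
    have h1 : 0 < h ⬝ᵥ h := by
      refine lt_of_le_of_ne ?_ (Ne.symm fun h2 => h0 (dotProduct_self_eq_zero.1 h2))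
      exact Finset.sum_nonneg fun i _ => mul_self_nonneg _
    positivity

/-! ### Hyperbolic crosses -/

/-- the hyperbolic phase -/
def hyp (ζ : P n) : ℝ := ∏ i, |ζ i|

lemma continuous_hyp : Continuous (hyp (n := n)) := by
  unfold hyp
  fun_prop

lemma good_hyp_of_ser {C : ℝ≥0∞} (hC : C ≠ ⊤) (h : Ser (fun ζ : P n => ∏ i, max 1 |ζ i|) C) :
    Good (hyp (n := n)) C := by
  refine good_of_ser_lim continuous_hyp.measurable hC h (fun j _ => sc j)
    (fun j _ => sc_pos j) (fun j _ => sc_le j) (fun _ => tendsto_sc)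
    (ψ := fun j ζ => ∏ i, max (sc j) |ζ i|) (fun j => ?_) (fun j t => ?_)
    (Eventually.of_forall fun ζ => ?_)
  · have : Continuous fun ζ : P n => ∏ i, max (sc j) |ζ i| := by fun_prop
    exact this.measurable
  · refine ⟨t / sc j ^ n, fun m => ?_⟩
    rw [le_div_iff₀ (pow_pos (sc_pos j) n)]
    have : ∏ i, max (sc j) |gr (fun _ => sc j) m i| = (∏ i, max 1 |rv m i|) * sc j ^ n := by
      rw [← Fin.prod_const, ← Finset.prod_mul_distrib]
      refine Finset.prod_congr rfl fun i _ => ?_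
      rw [max_mul_of_nonneg _ _ (sc_pos j).le, one_mul, gr, abs_mul, abs_of_pos (sc_pos j),
        mul_comm, rv]
    rw [this]
  · unfold hyp
    refine tendsto_finsetProd _ fun i _ => ?_
    have h1 : Tendsto (fun j => rnd (fun _ : Fin n => sc j) ζ i) atTop (𝓝 (ζ i)) := by
      rw [tendsto_iff_dist_tendsto_zero]
      refine squeeze_zero (fun _ => dist_nonneg) (fun j => ?_) tendsto_sc
      rw [Real.dist_eq]
      exact abs_rnd_sub_le (e := fun _ => sc j) (fun _ => sc_pos j) ζ i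
    have h2 := tendsto_sc.max h1.abs
    rw [max_eq_right (abs_nonneg _)] at h2
    exact h2

lemma prod_expand (s : Finset (Fin n)) :
    (fun h : P n => ∏ i ∈ s, (1 + h i) - 1 - ∑ i ∈ s, h i -
      ((∑ i ∈ s, h i) ^ 2 - ∑ i ∈ s, h i ^ 2) / 2) =o[𝓝 0] fun h => ‖h‖ ^ 2 := by
  classical
  induction s using Finset.induction_on with
  | empty => simp
  | insert j s hj ih =>
    have hsum : ∀ s : Finset (Fin n), (fun h : P n => ∑ i ∈ s, h i) =O[𝓝 0] fun h => ‖h‖ :=
      fun s => IsBigO.fun_sum fun i _ => coord_isBigO i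
    have he : (fun h : P n => ((∑ i ∈ s, h i) ^ 2 - ∑ i ∈ s, h i ^ 2) / 2) =O[𝓝 0]
        fun h => ‖h‖ ^ 2 := by
      have h1 := ((hsum s).pow 2).sub
        (IsBigO.fun_sum (s := s) fun i (_ : i ∈ s) => (coord_isBigO (n := n) i).pow 2)
      have h2 := h1.const_mul_left (1 / 2 : ℝ)
      refine h2.congr_left fun h => ?_
      ring
    have ht : (fun h : P n => h j) =o[𝓝 0] fun _ => (1 : ℝ) := by
      rw [isLittleO_one_iff]
      have := (continuous_apply j).tendsto (0 : P n)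
      simpa using this
    have h3 := ht.mul_isBigO (he.add ih.isBigO)
    simp only [one_mul] at h3
    have h4 := ih.add h3
    refine h4.congr_left fun h => ?_
    rw [Finset.prod_insert hj, Finset.sum_insert hj, Finset.sum_insert hj]
    ring

/-- the matrix of the second order part of `-∏ ζ_i` at `(1, …, 1)` -/
noncomputable def hypMat (n : ℕ) : Matrix (Fin n) (Fin n) ℝ :=
  (1 / 2 : ℝ) • (1 - Matrix.of fun _ _ => (1 : ℝ))

lemma hypMat_form (h : P n) :
    h ⬝ᵥ (hypMat n *ᵥ h) = (∑ i, h i ^ 2 - (∑ i, h i) ^ 2) / 2 := by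
  have h1 : (Matrix.of fun _ _ => (1 : ℝ) : Matrix (Fin n) (Fin n) ℝ) *ᵥ h =
      fun _ => ∑ i, h i := by
    ext i
    simp [mulVec, dotProduct]
  rw [hypMat, smul_mulVec, sub_mulVec, one_mulVec, h1, dotProduct_smul, dotProduct_sub,
    smul_eq_mul]
  simp only [dotProduct, ← Finset.sum_mul]
  have : ∑ i, h i * h i = ∑ i, h i ^ 2 := Finset.sum_congr rfl fun i _ => (pow_two _).symm
  rw [this]
  ring

lemma hyp_expand : (fun h : P n => -hyp ((fun _ => 1 : P n) + h) - -hyp (fun _ => 1 : P n) -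
    (fun _ => -1 : P n) ⬝ᵥ h - h ⬝ᵥ (hypMat n *ᵥ h)) =o[𝓝 0] fun h => ‖h‖ ^ 2 := by
  have h1 := (prod_expand (n := n) Finset.univ).neg_left
  refine h1.congr' ?_ EventuallyEq.rfl
  have h2 : ∀ᶠ h : P n in 𝓝 0, ‖h‖ < 1 := by
    have := (continuous_norm (E := P n)).tendsto 0
    rw [norm_zero] at this
    exact this.eventually (gt_mem_nhds one_pos)
  filter_upwards [h2] with h hh
  have h3 : hyp ((fun _ => 1 : P n) + h) = ∏ i, (1 + h i) := by
    unfold hyp
    refine Finset.prod_congr rfl fun i _ => ?_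
    rw [Pi.add_apply, abs_of_pos]
    have := (norm_le_pi_norm h i).trans_lt hh
    rw [Real.norm_eq_abs, abs_lt] at this
    linarith [this.1]
  have h4 : hyp (fun _ => 1 : P n) = 1 := by simp [hyp]
  have h5 : (fun _ => -1 : P n) ⬝ᵥ h = -∑ i, h i := by
    simp [dotProduct]
  rw [h3, h4, h5, hypMat_form]
  ring

theorem good_par_of_hyp {d : ℕ} {C : ℝ≥0∞} (h : Good (hyp (n := d + 1)) C) :
    Good (par (d := d)) (4 * C) := by
  have hneg : GoodOn (fun ζ : P (d + 1) => -hyp ζ) univ (4 * C) :=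
    goodOn_neg continuous_hyp.measurable fun G hG1 hG2 _ => h G hG1 hG2
  set a : P (d + 1) := fun _ => -1 with ha
  have haa : a ≠ 0 := by
    intro h0
    have := congrFun h0 0
    simp [ha] at this
  set f : Module.Dual ℝ (P (d + 1)) := dotProductBilin ℝ ℝ a with hf
  have hfa : ∀ h, f h = a ⬝ᵥ h := fun h => rfl
  have hf0 : f ≠ 0 := by
    intro h0
    have : f a = 0 := by rw [h0]; rfl
    exact haa (dotProduct_self_eq_zero.1 this)
  have hk : finrank ℝ (LinearMap.ker f) = d := by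
    have := Module.Dual.finrank_ker_add_one_of_ne_zero hf0
    rw [Module.finrank_fin_fun] at this
    omega
  refine good_par_of_curved' continuous_hyp.measurable.neg univ_mem hneg haa hyp_expand hk ?_ ?_
  · intro h hh
    rw [← hfa]
    exact LinearMap.mem_ker.1 hh
  · intro h hh h0
    rw [hypMat_form]
    have h1 : ∑ i, h i = 0 := by
      have := LinearMap.mem_ker.1 hh
      rw [hfa, ha] at this
      simp only [dotProduct, neg_mul, one_mul, Finset.sum_neg_distrib, neg_eq_zero] at this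
      exact this
    rw [h1]
    have h2 : 0 < ∑ i, h i ^ 2 := by
      refine lt_of_le_of_ne (Finset.sum_nonneg fun i _ => sq_nonneg _)
        (Ne.symm fun h2 => h0 (sum_sq_eq_zero h2))
    linarith

end Pool.Agent.Helper32.MF
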