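import Pool.Agent.Helper32.MF.Basic

/-!
# Frames adapted to a quadratic form on a subspace
-/

open Matrix Set Module
open scoped Topology

namespace Pool.Agent.Helper32.MF

variable {n : ℕ}

/-- an orthonormal family for the form `h·Hh` on a subspace on which it is positive -/
lemma exists_frame (V : Submodule ℝ (P n)) (H : Matrix (Fin n) (Fin n) ℝ)
    (hH : ∀ h ∈ V, h ≠ 0 → 0 < h ⬝ᵥ (H *ᵥ h)) {k : ℕ} (hk : finrank ℝ V = k) :
    ∃ b : Fin k → P n, (∀ i, b i ∈ V) ∧
      ∀ c : Fin k → ℝ, (∑ i, c i • b i) ⬝ᵥ (H *ᵥ (∑ i, c i • b i)) = ∑ i, c i ^ 2 := by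
  subst hk
  set S : Matrix (Fin n) (Fin n) ℝ := (1 / 2 : ℝ) • (H + Hᵀ) with hS
  have hSt : Sᵀ = S := by
    rw [hS, transpose_smul, transpose_add, transpose_transpose, add_comm]
  have hSq : ∀ x : P n, x ⬝ᵥ (S *ᵥ x) = x ⬝ᵥ (H *ᵥ x) := by
    intro x
    rw [hS, smul_mulVec, add_mulVec, dotProduct_smul, dotProduct_add]
    have : x ⬝ᵥ (Hᵀ *ᵥ x) = x ⬝ᵥ (H *ᵥ x) := by
      rw [mulVec_transpose, dotProduct_comm, ← dotProduct_mulVec]
    rw [this, smul_eq_mul]
    ring
  set β : LinearMap.BilinForm ℝ V := (Matrix.toBilin' S).restrict V with hβ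
  have hβa : ∀ x y : V, β x y = (x : P n) ⬝ᵥ (S *ᵥ (y : P n)) := by
    intro x y
    rw [hβ, LinearMap.BilinForm.restrict_apply]
    exact Matrix.toBilin'_apply' S _ _
  have hsym' : ∀ x y : V, β x y = β y x := by
    intro x y
    rw [hβa, hβa]
    conv_lhs => rw [← hSt]
    rw [mulVec_transpose, dotProduct_comm, ← dotProduct_mulVec]
  have hsym : LinearMap.IsSymm β := ⟨fun x y => hsym' x y⟩
  obtain ⟨v, hv⟩ := LinearMap.BilinForm.exists_orthogonal_basis hsym
  have hpos : ∀ i, 0 < β (v i) (v i) := by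
    intro i
    rw [hβa, hSq]
    refine hH _ (v i).2 ?_
    have := v.ne_zero i
    simpa using this
  set b : Fin (finrank ℝ V) → P n := fun i => (Real.sqrt (β (v i) (v i)))⁻¹ • (v i : P n) with hb
  refine ⟨b, fun i => V.smul_mem _ (v i).2, fun c => ?_⟩
  set w : V := ∑ i, (c i * (Real.sqrt (β (v i) (v i)))⁻¹) • v i with hw
  have hwb : (∑ i, c i • b i) = (w : P n) := by
    rw [hw]
    simp [hb, smul_smul]
  rw [hwb, ← hSq, ← hβa, hw]
  simp only [map_sum, LinearMap.sum_apply, map_smul, LinearMap.smul_apply, smul_eq_mul]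
  refine Finset.sum_congr rfl fun i _ => ?_
  rw [Finset.sum_eq_single i]
  · have h1 : Real.sqrt (β (v i) (v i)) ≠ 0 := (Real.sqrt_pos.2 (hpos i)).ne'
    have h2 : β (v i) (v i) = Real.sqrt (β (v i) (v i)) ^ 2 := (Real.sq_sqrt (hpos i).le).symm
    set r := Real.sqrt (β (v i) (v i)) with hr
    rw [h2]
    field_simp
  · intro j _ hji
    have : β (v j) (v i) = 0 := hv hji
    rw [this, mul_zero]
  · exact fun h => (h (Finset.mem_univ i)).elim

end Pool.Agent.Helper32.MF
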