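import Pool.Agent.Helper32.MF.Series

/-!
# From multiple Fourier series to Fourier integrals, for phases with a discrete homogeneity
-/

open MeasureTheory Set Filter Complex Matrix Metric
open scoped ENNReal NNReal Topology Real ContDiff

namespace Pool.Agent.Helper32.MF

variable {n : ℕ}

/-- the grid point with the index `m` of the grid with the mesh `e` -/
def gr (e : P n) (m : Fin n → ℤ) : P n := fun i => e i * m i

/-- rounding to the grid with the mesh `e` -/
noncomputable def rnd (e ζ : P n) : P n := gr e fun i => ⌊ζ i / e i⌋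

/-- the box of the grid -/
def box (e : P n) (m : Fin n → ℤ) : Set (P n) :=
  Set.pi univ fun i => Ico (e i * m i) (e i * m i + e i)

lemma measurableSet_box (e : P n) (m : Fin n → ℤ) : MeasurableSet (box e m) :=
  MeasurableSet.univ_pi fun _ => measurableSet_Ico

lemma volume_box {e : P n} (he : ∀ i, 0 < e i) (m : Fin n → ℤ) :
    volume (box e m) = ENNReal.ofReal (∏ i, e i) := by
  rw [box, Real.volume_pi_Ico, ENNReal.ofReal_prod_of_nonneg fun i _ => (he i).le]
  simp

lemma mem_box {e : P n} (he : ∀ i, 0 < e i) (m : Fin n → ℤ) (ζ : P n) :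
    ζ ∈ box e m ↔ (fun i => ⌊ζ i / e i⌋) = m := by
  simp only [box, Set.mem_pi, mem_univ, true_implies, mem_Ico, funext_iff]
  refine forall_congr' fun i => ?_
  rw [Int.floor_eq_iff, le_div_iff₀ (he i), div_lt_iff₀ (he i)]
  constructor <;> rintro ⟨h1, h2⟩ <;> constructor <;> linarith

lemma rnd_eq_sum {α : Type*} [AddCommMonoid α] {e : P n} (he : ∀ i, 0 < e i) (g : P n → α)
    (s : Finset (Fin n → ℤ)) (hs : ∀ m, m ∉ s → g (gr e m) = 0) (ζ : P n) :
    g (rnd e ζ) = ∑ m ∈ s, (box e m).indicator (fun _ => g (gr e m)) ζ := by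
  set m₀ : Fin n → ℤ := fun i => ⌊ζ i / e i⌋ with hm₀
  have h1 : rnd e ζ = gr e m₀ := rfl
  by_cases h : m₀ ∈ s
  · rw [Finset.sum_eq_single m₀]
    · rw [indicator_of_mem ((mem_box he m₀ ζ).2 rfl), h1]
    · intro m _ hne
      exact indicator_of_notMem (fun h' => hne ((mem_box he m ζ).1 h').symm) _
    · exact fun h' => (h' h).elim
  · rw [h1, hs m₀ h, eq_comm]
    refine Finset.sum_eq_zero fun m hm => indicator_of_notMem (fun h' => h ?_) _
    rw [← (mem_box he m ζ).1 h'] at hm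
    exact hm

lemma integral_rnd {e : P n} (he : ∀ i, 0 < e i) (g : P n → ℂ)
    (s : Finset (Fin n → ℤ)) (hs : ∀ m, m ∉ s → g (gr e m) = 0) :
    ∫ ζ, g (rnd e ζ) = ((∏ i, e i : ℝ) : ℂ) * ∑ m ∈ s, g (gr e m) := by
  simp_rw [rnd_eq_sum he g s hs]
  rw [integral_finsetSum]
  · rw [Finset.mul_sum]
    refine Finset.sum_congr rfl fun m _ => ?_
    rw [integral_indicator_const _ (measurableSet_box e m), Measure.real, volume_box he,
      ENNReal.toReal_ofReal (Finset.prod_nonneg fun i _ => (he i).le)]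
    rfl
  · intro m _
    refine (integrable_indicator_iff (measurableSet_box e m)).2 (integrableOn_const ?_)
    rw [volume_box he]
    exact ENNReal.ofReal_ne_top

lemma lintegral_rnd {e : P n} (he : ∀ i, 0 < e i) (g : P n → ℝ≥0∞)
    (s : Finset (Fin n → ℤ)) (hs : ∀ m, m ∉ s → g (gr e m) = 0) :
    ∫⁻ ζ, g (rnd e ζ) = ENNReal.ofReal (∏ i, e i) * ∑ m ∈ s, g (gr e m) := by
  simp_rw [rnd_eq_sum he g s hs]
  rw [lintegral_finsetSum]
  · rw [Finset.mul_sum]
    refine Finset.sum_congr rfl fun m _ => ?_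
    rw [lintegral_indicator_const (measurableSet_box e m), volume_box he, mul_comm]
  · exact fun m _ => measurable_const.indicator (measurableSet_box e m)

lemma measurable_rnd (e : P n) : Measurable (rnd e) := by
  refine measurable_pi_lambda _ fun i => ?_
  simp only [rnd, gr]
  refine measurable_const.mul ?_
  have h1 : Measurable fun ζ : P n => ⌊ζ i / e i⌋ :=
    Int.measurable_floor.comp ((measurable_pi_apply i).div_const _)
  exact (measurable_from_top (f := fun k : ℤ => (k : ℝ))).comp h1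

lemma abs_rnd_sub_le {e : P n} (he : ∀ i, 0 < e i) (ζ : P n) (i : Fin n) :
    |rnd e ζ i - ζ i| ≤ e i := by
  have h1 := Int.floor_le (ζ i / e i)
  have h2 := Int.lt_floor_add_one (ζ i / e i)
  rw [le_div_iff₀ (he i)] at h1
  rw [div_lt_iff₀ (he i)] at h2
  have h3 : rnd e ζ i = ⌊ζ i / e i⌋ * e i := by
    simp only [rnd, gr]
    ring
  rw [h3, abs_le]
  constructor <;> linarith

theorem good_of_ser {φ : P n → ℝ} (hφ : Continuous φ) {C : ℝ≥0∞} (hC : C ≠ ⊤) (h : Ser φ C)
    (e : ℕ → P n) (he0 : ∀ j i, 0 < e j i) (he1 : ∀ j i, e j i ≤ 1)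
    (he : ∀ i, Tendsto (fun j => e j i) atTop (𝓝 0))
    (hr : ∀ j t, ∃ r, ∀ m : Fin n → ℤ, φ (gr (e j) m) ≤ t ↔ φ (rv m) ≤ r) : Good φ C := by
  classical
  refine good_of_test hφ.measurable hC ?_
  intro G hG1 hG2
  have hGc : Continuous G := hG1.continuous
  have hGi : Integrable G := hGc.integrable_of_hasCompactSupport hG2
  obtain ⟨N, hN⟩ : ∃ N : ℝ, ∀ ζ, N < ‖ζ‖ → G ζ = 0 := by
    obtain ⟨N, hN⟩ := hG2.isCompact.isBounded.exists_norm_le
    refine ⟨N, fun ζ hζ => ?_⟩
    by_contra hne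
    exact absurd (hN ζ (subset_tsupport G hne)) (not_le.2 hζ)
  obtain ⟨M, hM⟩ : ∃ M : ℝ, ∀ ζ, ‖G ζ‖ ≤ M := hG2.exists_bound_of_continuous hGc
  set V : ℕ → ℝ := fun j => ∏ i, e j i with hV
  have hV0 : ∀ j, 0 < V j := fun j => Finset.prod_pos fun i _ => he0 j i
  -- the index sets
  set s : ℕ → Finset (Fin n → ℤ) := fun j =>
    Fintype.piFinset fun i => Finset.Icc (-⌈N / e j i⌉) ⌈N / e j i⌉ with hs
  have hsz : ∀ j m, m ∉ s j → G (gr (e j) m) = 0 := by
    intro j m hm
    refine hN _ ?_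
    by_contra hle
    push Not at hle
    refine hm (Fintype.mem_piFinset.2 fun i => ?_)
    have h1 : |gr (e j) m i| ≤ N := (norm_le_pi_norm (gr (e j) m) i).trans hle
    simp only [gr] at h1
    rw [abs_le] at h1
    rw [Finset.mem_Icc]
    have h2 : (m i : ℝ) ≤ N / e j i := by rw [le_div_iff₀ (he0 j i)]; linarith [h1.2]
    have h3 : -(N / e j i) ≤ (m i : ℝ) := by
      rw [← neg_div, div_le_iff₀ (he0 j i)]; linarith [h1.1]
    constructor
    · rw [neg_le]
      have : ((-m i : ℤ) : ℝ) ≤ ⌈N / e j i⌉ := by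
        push_cast
        linarith [Int.le_ceil (N / e j i)]
      exact_mod_cast this
    · have : (m i : ℝ) ≤ ⌈N / e j i⌉ := h2.trans (Int.le_ceil _)
      exact_mod_cast this
  set hf : P n := fun _ => 1 / 2 with hhf
  set c : ℕ → (Fin n → ℤ) → ℂ := fun j m => G (gr (e j) m) * ch hf (-rv m) with hc
  have haff : ∀ j x, aff (diagonal (e j)) hf x = fun i => e j i * x i + 1 / 2 := by
    intro j x
    ext i
    simp [aff, mulVec_diagonal, hhf]
  have hcch : ∀ j x m, c j m * ch (aff (diagonal (e j)) hf x) (rv m) =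
      G (gr (e j) m) * ch x (gr (e j) m) := by
    intro j x m
    simp only [hc]
    rw [mul_assoc]
    congr 1
    rw [ch, ch, ch, ← Complex.exp_add]
    congr 1
    rw [dotProduct_neg, haff]
    have : (fun i => e j i * x i + 1 / 2) ⬝ᵥ rv m = x ⬝ᵥ gr (e j) m + hf ⬝ᵥ rv m := by
      simp only [dotProduct, gr, rv, hhf, ← Finset.sum_add_distrib]
      exact Finset.sum_congr rfl fun i _ => by ring
    rw [this]
    push_cast
    ring
  -- the rounded partial integrals
  set A : ℕ → ℝ → P n → ℂ := fun j t x =>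
    ∫ ζ, ({ξ | φ ξ ≤ t}.indicator (fun ξ => G ξ * ch x ξ)) (rnd (e j) ζ) with hA
  have hAeq : ∀ j t x, ∃ r, A j t x = (V j : ℂ) *
      ssum φ (s j) (c j) r (aff (diagonal (e j)) hf x) := by
    intro j t x
    obtain ⟨r, hr'⟩ := hr j t
    refine ⟨r, ?_⟩
    simp only [hA]
    rw [integral_rnd (he0 j) _ (s j)]
    · congr 1
      unfold ssum
      rw [Finset.sum_filter]
      refine Finset.sum_congr rfl fun m _ => ?_
      rw [indicator_apply, hcch]
      simp only [mem_ofPred_eq, hr' m]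
    · intro m hm
      rw [indicator_apply, hsz j m hm, zero_mul, ite_self]
  have hAle : ∀ j t x, ‖A j t x‖ₑ ≤ ENNReal.ofReal (V j) *
      ⨆ r : ℝ, ‖ssum φ (s j) (c j) r (aff (diagonal (e j)) hf x)‖ₑ := by
    intro j t x
    obtain ⟨r, hr'⟩ := hAeq j t x
    rw [hr', enorm_mul]
    have : ‖(V j : ℂ)‖ₑ = ENNReal.ofReal (V j) := by
      rw [← ofReal_norm, norm_real, Real.norm_eq_abs, abs_of_pos (hV0 j)]
    rw [this]
    gcongr
    exact le_iSup (fun r : ℝ => ‖ssum φ (s j) (c j) r (aff (diagonal (e j)) hf x)‖ₑ) r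
  set F : ℕ → P n → ℝ≥0∞ := fun j => (cell 0).indicator fun y =>
    ENNReal.ofReal (V j) ^ 2 * (⨆ r : ℝ, ‖ssum φ (s j) (c j) r y‖ₑ) ^ 2 with hF
  have hFm : ∀ j, Measurable (F j) := fun j =>
    (((measurable_ssup φ (s j) (c j)).pow_const 2).const_mul _).indicator (measurableSet_cell 0)
  have hFi : ∀ j, ∫⁻ x, F j (aff (diagonal (e j)) hf x) ≤ C * ∫⁻ ζ, ‖G (rnd (e j) ζ)‖ₑ ^ 2 := by
    intro j
    have hdet : (diagonal (e j)).det = V j := det_diagonal
    have hdet0 : (diagonal (e j)).det ≠ 0 := by rw [hdet]; exact (hV0 j).ne'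
    rw [lintegral_aff hdet0, hdet, abs_of_pos (inv_pos.2 (hV0 j)), hF]
    simp only
    rw [lintegral_indicator (measurableSet_cell 0),
      lintegral_const_mul _ ((measurable_ssup φ (s j) (c j)).pow_const 2)]
    have hV1 : ENNReal.ofReal (V j)⁻¹ * ENNReal.ofReal (V j) ^ 2 = ENNReal.ofReal (V j) := by
      rw [← ENNReal.ofReal_pow (hV0 j).le, ← ENNReal.ofReal_mul (inv_pos.2 (hV0 j)).le]
      congr 1
      have := (hV0 j).ne'
      field_simp
    rw [← mul_assoc, hV1]
    rw [lintegral_rnd (he0 j) (fun ξ => ‖G ξ‖ₑ ^ 2) (s j) fun m hm => by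
      simp [hsz j m hm]]
    have hcn : ∀ m, ‖c j m‖ₑ = ‖G (gr (e j) m)‖ₑ := by
      intro m
      simp only [hc]
      rw [enorm_mul]
      have : ‖ch hf (-rv m)‖ₑ = 1 := by rw [← ofReal_norm, norm_ch, ENNReal.ofReal_one]
      rw [this, mul_one]
    calc ENNReal.ofReal (V j) * ∫⁻ x in cell 0, (⨆ r : ℝ, ‖ssum φ (s j) (c j) r x‖ₑ) ^ 2
        ≤ ENNReal.ofReal (V j) * (C * ∑ m ∈ s j, ‖c j m‖ₑ ^ 2) := by
          gcongr
          exact h (s j) (c j)
      _ = C * (ENNReal.ofReal (∏ i, e j i) * ∑ m ∈ s j, ‖G (gr (e j) m)‖ₑ ^ 2) := by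
          simp_rw [hcn]
          rw [mul_left_comm]
  -- pointwise convergence of the rounding
  have hrt : ∀ ζ, Tendsto (fun j => rnd (e j) ζ) atTop (𝓝 ζ) := by
    intro ζ
    rw [tendsto_pi_nhds]
    intro i
    rw [tendsto_iff_dist_tendsto_zero]
    refine squeeze_zero (fun _ => dist_nonneg) (fun j => ?_) (he i)
    rw [Real.dist_eq]
    exact abs_rnd_sub_le (he0 j) ζ i
  have hout : ∀ j ζ, ζ ∉ closedBall (0 : P n) (N + 1) → G (rnd (e j) ζ) = 0 := by
    intro j ζ hζ
    refine hN _ ?_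
    rw [mem_closedBall_zero_iff, not_le] at hζ
    have h1 : ‖rnd (e j) ζ - ζ‖ ≤ 1 := by
      rw [pi_norm_le_iff_of_nonneg zero_le_one]
      intro i
      exact (abs_rnd_sub_le (he0 j) ζ i).trans (he1 j i)
    have h2 : ‖ζ‖ ≤ ‖rnd (e j) ζ‖ + ‖rnd (e j) ζ - ζ‖ := by
      have := norm_sub_norm_le ζ (rnd (e j) ζ)
      rw [norm_sub_rev] at this
      linarith
    linarith
  obtain ⟨D, hDc, hDd, hD⟩ := exists_levels hφ.measurable
  have hlim : ∀ t ∈ D, ∀ x, Tendsto (fun j => A j t x) atTop (𝓝 (psum φ G t x)) := by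
    intro t ht x
    have e2 : psum φ G t x = ∫ ζ, ({ξ | φ ξ ≤ t}.indicator (fun ξ => G ξ * ch x ξ)) ζ :=
      (integral_indicator (measurableSet_le hφ.measurable measurable_const)).symm
    rw [e2]
    have hgm : Measurable ({ξ | φ ξ ≤ t}.indicator (fun ξ => G ξ * ch x ξ)) :=
      (hGc.mul (continuous_ch_right x)).measurable.indicator
        (measurableSet_le hφ.measurable measurable_const)
    refine tendsto_integral_of_dominated_convergence
      ((closedBall (0 : P n) (N + 1)).indicator fun _ => M) ?_ ?_ ?_ ?_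
    · intro j
      exact (hgm.comp (measurable_rnd (e j))).aestronglyMeasurable
    · exact (integrable_indicator_iff measurableSet_closedBall).2
        (integrableOn_const (isCompact_closedBall _ _).measure_lt_top.ne)
    · intro j
      refine Eventually.of_forall fun ζ => ?_
      refine (norm_indicator_le_norm_self _ _).trans ?_
      rw [norm_mul, norm_ch, mul_one]
      by_cases hζ : ζ ∈ closedBall (0 : P n) (N + 1)
      · rw [indicator_of_mem hζ]
        exact hM _
      · rw [indicator_of_notMem hζ, hout j ζ hζ, norm_zero]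
    · have hne : ∀ᵐ ζ, φ ζ ≠ t := by
        rw [ae_iff]
        simpa using hD t ht
      filter_upwards [hne] with ζ hζ
      have hφt : Tendsto (fun j => φ (rnd (e j) ζ)) atTop (𝓝 (φ ζ)) :=
        (hφ.tendsto ζ).comp (hrt ζ)
      have hgt : Tendsto (fun j => G (rnd (e j) ζ) * ch x (rnd (e j) ζ)) atTop
          (𝓝 (G ζ * ch x ζ)) :=
        ((hGc.mul (continuous_ch_right x)).tendsto ζ).comp (hrt ζ)
      rcases lt_or_gt_of_ne hζ with h3 | h3
      · have h4 : ∀ᶠ j in atTop, φ (rnd (e j) ζ) < t := hφt.eventually (gt_mem_nhds h3)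
        rw [indicator_of_mem (show ζ ∈ {ζ | φ ζ ≤ t} from h3.le)]
        refine hgt.congr' ?_
        filter_upwards [h4] with j hj
        rw [indicator_of_mem (show rnd (e j) ζ ∈ {ζ | φ ζ ≤ t} from hj.le)]
      · have h4 : ∀ᶠ j in atTop, t < φ (rnd (e j) ζ) := hφt.eventually (lt_mem_nhds h3)
        rw [indicator_of_notMem (show ζ ∉ {ζ | φ ζ ≤ t} from not_le.2 h3)]
        refine tendsto_const_nhds.congr' ?_
        filter_upwards [h4] with j hj
        rw [indicator_of_notMem (show rnd (e j) ζ ∉ {ζ | φ ζ ≤ t} from not_le.2 hj)]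
  have hlim2 : Tendsto (fun j => ∫⁻ ζ, ‖G (rnd (e j) ζ)‖ₑ ^ 2) atTop (𝓝 (∫⁻ ζ, ‖G ζ‖ₑ ^ 2)) := by
    have hm2 : Measurable fun ξ : P n => ‖G ξ‖ₑ ^ 2 := hGc.enorm.measurable.pow_const 2
    refine tendsto_lintegral_of_dominated_convergence
      ((closedBall (0 : P n) (N + 1)).indicator fun _ => ENNReal.ofReal M ^ 2) ?_ ?_ ?_ ?_
    · intro j
      exact hm2.comp (measurable_rnd (e j))
    · intro j
      refine Eventually.of_forall fun ζ => ?_
      by_cases hζ : ζ ∈ closedBall (0 : P n) (N + 1)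
      · rw [indicator_of_mem hζ]
        simp only
        rw [← ofReal_norm]
        gcongr
        exact hM _
      · rw [indicator_of_notMem hζ]
        simp only
        rw [hout j ζ hζ]
        simp
    · rw [lintegral_indicator_const measurableSet_closedBall]
      exact ENNReal.mul_ne_top (ENNReal.pow_ne_top ENNReal.ofReal_ne_top)
        (isCompact_closedBall _ _).measure_lt_top.ne
    · refine Eventually.of_forall fun ζ => ?_
      exact ((ENNReal.continuous_pow 2).comp hGc.enorm).continuousAt.tendsto.comp (hrt ζ)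
  have key : ∀ x, (⨆ t : ℝ, ‖psum φ G t x‖ₑ) ^ 2 ≤
      liminf (fun j => F j (aff (diagonal (e j)) hf x)) atTop := by
    intro x
    rw [iSup_psum_eq_dense hφ.measurable hGi hDd, ENNReal.iSup_pow_of_ne_zero two_ne_zero]
    refine iSup_le fun t => ?_
    have h1 : Tendsto (fun j => ‖A j t x‖ₑ ^ 2) atTop (𝓝 (‖psum φ G t x‖ₑ ^ 2)) :=
      (ENNReal.continuous_pow 2).continuousAt.tendsto.comp
        ((continuous_enorm.tendsto _).comp (hlim t t.2 x))
    rw [← h1.liminf_eq]
    refine liminf_le_liminf ?_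
    have h2 : ∀ᶠ j in atTop, aff (diagonal (e j)) hf x ∈ cell (0 : Fin n → ℤ) := by
      have h3 : ∀ i, ∀ᶠ j in atTop, ⌊e j i * x i + 1 / 2⌋ = (0 : ℤ) := by
        intro i
        have h4 : Tendsto (fun j => e j i * x i + 1 / 2) atTop (𝓝 (1 / 2)) := by
          have := ((he i).mul_const (x i)).add_const (1 / 2 : ℝ)
          simpa using this
        have h5 : Ioo (0:ℝ) 1 ∈ 𝓝 (1 / 2 : ℝ) := Ioo_mem_nhds (by norm_num) (by norm_num)
        filter_upwards [h4 h5] with j hj
        rw [Int.floor_eq_zero_iff]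
        exact ⟨hj.1.le, hj.2⟩
      filter_upwards [eventually_all.2 h3] with j hj
      rw [haff]
      exact hj
    filter_upwards [h2] with j hj
    simp only [hF]
    rw [indicator_of_mem hj, ← mul_pow]
    exact pow_le_pow_left' (hAle j t x) 2
  calc ∫⁻ x, (⨆ t : ℝ, ‖psum φ G t x‖ₑ) ^ 2
      ≤ ∫⁻ x, liminf (fun j => F j (aff (diagonal (e j)) hf x)) atTop := lintegral_mono key
    _ ≤ liminf (fun j => ∫⁻ x, F j (aff (diagonal (e j)) hf x)) atTop :=
        lintegral_liminf_le fun j => (hFm j).comp (continuous_aff _ _).measurable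
    _ ≤ liminf (fun j => C * ∫⁻ ζ, ‖G (rnd (e j) ζ)‖ₑ ^ 2) atTop :=
        liminf_le_liminf (Eventually.of_forall hFi)
    _ = C * ∫⁻ ζ, ‖G ζ‖ₑ ^ 2 := (ENNReal.Tendsto.const_mul hlim2 (Or.inr hC)).liminf_eq

end Pool.Agent.Helper32.MF
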