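import Pool.Agent.Helper32.MF.FromSeries
import Pool.Agent.Helper32.MF.Curved

/-!
# Rescaled limits of series, hyperbolic crosses, and the lattice
-/

open MeasureTheory Set Filter Complex Matrix Metric Asymptotics Module
open scoped ENNReal NNReal Topology Real ContDiff

namespace Pool.Agent.Helper32.MF

variable {n : ℕ}

theorem good_of_ser_lim {φ χ : P n → ℝ} (hφ : Measurable φ) {C : ℝ≥0∞} (hC : C ≠ ⊤)
    (h : Ser χ C) (e : ℕ → P n) (he0 : ∀ j i, 0 < e j i) (he1 : ∀ j i, e j i ≤ 1)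
    (he : ∀ i, Tendsto (fun j => e j i) atTop (𝓝 0)) {ψ : ℕ → P n → ℝ}
    (hψ : ∀ j, Measurable (ψ j))
    (hr : ∀ j t, ∃ r, ∀ m : Fin n → ℤ, ψ j (gr (e j) m) ≤ t ↔ χ (rv m) ≤ r)
    (hψφ : ∀ᵐ ζ, Tendsto (fun j => ψ j (rnd (e j) ζ)) atTop (𝓝 (φ ζ))) : Good φ C := by
  classical
  refine good_of_test hφ hC ?_
  intro G hG1 hG2
  have hGc : Continuous G := hG1.continuous
  have hGi : Integrable G := hGc.integrable_of_hasCompactSupport hG2
  obtain ⟨N, hN⟩ : ∃ N : ℝ, ∀ ζ, N < ‖ζ‖ → G ζ = 0 := by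
    obtain ⟨N, hN⟩ := hG2.isCompact.isBounded.exists_norm_le
    refine ⟨N, fun ζ hζ => ?_⟩
    by_contra hne
    exact absurd (hN ζ (subset_tsupport G hne)) (not_le.2 hζ)
  obtain ⟨M, hM⟩ : ∃ M : ℝ, ∀ ζ, ‖G ζ‖ ≤ M := hG2.exists_bound_of_continuous hGc
  set V : ℕ → ℝ := fun j => ∏ i, e j i with hV
  have hV0 : ∀ j, 0 < V j := fun j => Finset.prod_pos fun i _ => he0 j i
  -- the index sets
  set s : ℕ → Finset (Fin n → ℤ) := fun j =>
    Fintype.piFinset fun i => Finset.Icc (-⌈N / e j i⌉) ⌈N / e j i⌉ with hs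
  have hsz : ∀ j m, m ∉ s j → G (gr (e j) m) = 0 := by
    intro j m hm
    refine hN _ ?_
    by_contra hle
    push Not at hle
    refine hm (Fintype.mem_piFinset.2 fun i => ?_)
    have h1 : |gr (e j) m i| ≤ N := (norm_le_pi_norm (gr (e j) m) i).trans hle
    simp only [gr] at h1
    rw [abs_le] at h1
    rw [Finset.mem_Icc]
    have h2 : (m i : ℝ) ≤ N / e j i := by rw [le_div_iff₀ (he0 j i)]; linarith [h1.2]
    have h3 : -(N / e j i) ≤ (m i : ℝ) := by
      rw [← neg_div, div_le_iff₀ (he0 j i)]; linarith [h1.1]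
    constructor
    · rw [neg_le]
      have : ((-m i : ℤ) : ℝ) ≤ ⌈N / e j i⌉ := by
        push_cast
        linarith [Int.le_ceil (N / e j i)]
      exact_mod_cast this
    · have : (m i : ℝ) ≤ ⌈N / e j i⌉ := h2.trans (Int.le_ceil _)
      exact_mod_cast this
  set hf : P n := fun _ => 1 / 2 with hhf
  set c : ℕ → (Fin n → ℤ) → ℂ := fun j m => G (gr (e j) m) * ch hf (-rv m) with hc
  have haff : ∀ j x, aff (diagonal (e j)) hf x = fun i => e j i * x i + 1 / 2 := by
    intro j x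
    ext i
    simp [aff, mulVec_diagonal, hhf]
  have hcch : ∀ j x m, c j m * ch (aff (diagonal (e j)) hf x) (rv m) =
      G (gr (e j) m) * ch x (gr (e j) m) := by
    intro j x m
    simp only [hc]
    rw [mul_assoc]
    congr 1
    rw [ch, ch, ch, ← Complex.exp_add]
    congr 1
    rw [dotProduct_neg, haff]
    have : (fun i => e j i * x i + 1 / 2) ⬝ᵥ rv m = x ⬝ᵥ gr (e j) m + hf ⬝ᵥ rv m := by
      simp only [dotProduct, gr, rv, hhf, ← Finset.sum_add_distrib]
      exact Finset.sum_congr rfl fun i _ => by ring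
    rw [this]
    push_cast
    ring
  -- the rounded partial integrals
  set A : ℕ → ℝ → P n → ℂ := fun j t x =>
    ∫ ζ, ({ξ | ψ j ξ ≤ t}.indicator (fun ξ => G ξ * ch x ξ)) (rnd (e j) ζ) with hA
  have hAeq : ∀ j t x, ∃ r, A j t x = (V j : ℂ) *
      ssum χ (s j) (c j) r (aff (diagonal (e j)) hf x) := by
    intro j t x
    obtain ⟨r, hr'⟩ := hr j t
    refine ⟨r, ?_⟩
    simp only [hA]
    rw [integral_rnd (he0 j) _ (s j)]
    · congr 1
      unfold ssum
      rw [Finset.sum_filter]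
      refine Finset.sum_congr rfl fun m _ => ?_
      rw [indicator_apply, hcch]
      simp only [mem_ofPred_eq, hr' m]
    · intro m hm
      rw [indicator_apply, hsz j m hm, zero_mul, ite_self]
  have hAle : ∀ j t x, ‖A j t x‖ₑ ≤ ENNReal.ofReal (V j) *
      ⨆ r : ℝ, ‖ssum χ (s j) (c j) r (aff (diagonal (e j)) hf x)‖ₑ := by
    intro j t x
    obtain ⟨r, hr'⟩ := hAeq j t x
    rw [hr', enorm_mul]
    have : ‖(V j : ℂ)‖ₑ = ENNReal.ofReal (V j) := by
      rw [← ofReal_norm, norm_real, Real.norm_eq_abs, abs_of_pos (hV0 j)]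
    rw [this]
    gcongr
    exact le_iSup (fun r : ℝ => ‖ssum χ (s j) (c j) r (aff (diagonal (e j)) hf x)‖ₑ) r
  set F : ℕ → P n → ℝ≥0∞ := fun j => (cell 0).indicator fun y =>
    ENNReal.ofReal (V j) ^ 2 * (⨆ r : ℝ, ‖ssum χ (s j) (c j) r y‖ₑ) ^ 2 with hF
  have hFm : ∀ j, Measurable (F j) := fun j =>
    (((measurable_ssup χ (s j) (c j)).pow_const 2).const_mul _).indicator (measurableSet_cell 0)
  have hFi : ∀ j, ∫⁻ x, F j (aff (diagonal (e j)) hf x) ≤ C * ∫⁻ ζ, ‖G (rnd (e j) ζ)‖ₑ ^ 2 := by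
    intro j
    have hdet : (diagonal (e j)).det = V j := det_diagonal
    have hdet0 : (diagonal (e j)).det ≠ 0 := by rw [hdet]; exact (hV0 j).ne'
    rw [lintegral_aff hdet0, hdet, abs_of_pos (inv_pos.2 (hV0 j)), hF]
    simp only
    rw [lintegral_indicator (measurableSet_cell 0),
      lintegral_const_mul _ ((measurable_ssup χ (s j) (c j)).pow_const 2)]
    have hV1 : ENNReal.ofReal (V j)⁻¹ * ENNReal.ofReal (V j) ^ 2 = ENNReal.ofReal (V j) := by
      rw [← ENNReal.ofReal_pow (hV0 j).le, ← ENNReal.ofReal_mul (inv_pos.2 (hV0 j)).le]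
      congr 1
      have := (hV0 j).ne'
      field_simp
    rw [← mul_assoc, hV1]
    rw [lintegral_rnd (he0 j) (fun ξ => ‖G ξ‖ₑ ^ 2) (s j) fun m hm => by
      simp [hsz j m hm]]
    have hcn : ∀ m, ‖c j m‖ₑ = ‖G (gr (e j) m)‖ₑ := by
      intro m
      simp only [hc]
      rw [enorm_mul]
      have : ‖ch hf (-rv m)‖ₑ = 1 := by rw [← ofReal_norm, norm_ch, ENNReal.ofReal_one]
      rw [this, mul_one]
    calc ENNReal.ofReal (V j) * ∫⁻ x in cell 0, (⨆ r : ℝ, ‖ssum χ (s j) (c j) r x‖ₑ) ^ 2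
        ≤ ENNReal.ofReal (V j) * (C * ∑ m ∈ s j, ‖c j m‖ₑ ^ 2) := by
          gcongr
          exact h (s j) (c j)
      _ = C * (ENNReal.ofReal (∏ i, e j i) * ∑ m ∈ s j, ‖G (gr (e j) m)‖ₑ ^ 2) := by
          simp_rw [hcn]
          rw [mul_left_comm]
  -- pointwise convergence of the rounding
  have hrt : ∀ ζ, Tendsto (fun j => rnd (e j) ζ) atTop (𝓝 ζ) := by
    intro ζ
    rw [tendsto_pi_nhds]
    intro i
    rw [tendsto_iff_dist_tendsto_zero]
    refine squeeze_zero (fun _ => dist_nonneg) (fun j => ?_) (he i)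
    rw [Real.dist_eq]
    exact abs_rnd_sub_le (he0 j) ζ i
  have hout : ∀ j ζ, ζ ∉ closedBall (0 : P n) (N + 1) → G (rnd (e j) ζ) = 0 := by
    intro j ζ hζ
    refine hN _ ?_
    rw [mem_closedBall_zero_iff, not_le] at hζ
    have h1 : ‖rnd (e j) ζ - ζ‖ ≤ 1 := by
      rw [pi_norm_le_iff_of_nonneg zero_le_one]
      intro i
      exact (abs_rnd_sub_le (he0 j) ζ i).trans (he1 j i)
    have h2 : ‖ζ‖ ≤ ‖rnd (e j) ζ‖ + ‖rnd (e j) ζ - ζ‖ := by
      have := norm_sub_norm_le ζ (rnd (e j) ζ)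
      rw [norm_sub_rev] at this
      linarith
    linarith
  obtain ⟨D, hDc, hDd, hD⟩ := exists_levels hφ
  have hlim : ∀ t ∈ D, ∀ x, Tendsto (fun j => A j t x) atTop (𝓝 (psum φ G t x)) := by
    intro t ht x
    have e2 : psum φ G t x = ∫ ζ, ({ξ | φ ξ ≤ t}.indicator (fun ξ => G ξ * ch x ξ)) ζ :=
      (integral_indicator (measurableSet_le hφ measurable_const)).symm
    rw [e2]
    have hgm : ∀ j, Measurable ({ξ | ψ j ξ ≤ t}.indicator (fun ξ => G ξ * ch x ξ)) := fun j =>
      (hGc.mul (continuous_ch_right x)).measurable.indicator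
        (measurableSet_le (hψ j) measurable_const)
    refine tendsto_integral_of_dominated_convergence
      ((closedBall (0 : P n) (N + 1)).indicator fun _ => M) ?_ ?_ ?_ ?_
    · intro j
      exact ((hgm j).comp (measurable_rnd (e j))).aestronglyMeasurable
    · exact (integrable_indicator_iff measurableSet_closedBall).2
        (integrableOn_const (isCompact_closedBall _ _).measure_lt_top.ne)
    · intro j
      refine Eventually.of_forall fun ζ => ?_
      refine (norm_indicator_le_norm_self _ _).trans ?_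
      rw [norm_mul, norm_ch, mul_one]
      by_cases hζ : ζ ∈ closedBall (0 : P n) (N + 1)
      · rw [indicator_of_mem hζ]
        exact hM _
      · rw [indicator_of_notMem hζ, hout j ζ hζ, norm_zero]
    · have hne : ∀ᵐ ζ, φ ζ ≠ t := by
        rw [ae_iff]
        simpa using hD t ht
      filter_upwards [hne, hψφ] with ζ hζ hφt
      have hgt : Tendsto (fun j => G (rnd (e j) ζ) * ch x (rnd (e j) ζ)) atTop
          (𝓝 (G ζ * ch x ζ)) :=
        ((hGc.mul (continuous_ch_right x)).tendsto ζ).comp (hrt ζ)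
      rcases lt_or_gt_of_ne hζ with h3 | h3
      · have h4 : ∀ᶠ j in atTop, ψ j (rnd (e j) ζ) < t := hφt.eventually (gt_mem_nhds h3)
        rw [indicator_of_mem (show ζ ∈ {ζ | φ ζ ≤ t} from h3.le)]
        refine hgt.congr' ?_
        filter_upwards [h4] with j hj
        rw [indicator_of_mem (show rnd (e j) ζ ∈ {ζ | ψ j ζ ≤ t} from hj.le)]
      · have h4 : ∀ᶠ j in atTop, t < ψ j (rnd (e j) ζ) := hφt.eventually (lt_mem_nhds h3)
        rw [indicator_of_notMem (show ζ ∉ {ζ | φ ζ ≤ t} from not_le.2 h3)]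
        refine tendsto_const_nhds.congr' ?_
        filter_upwards [h4] with j hj
        rw [indicator_of_notMem (show rnd (e j) ζ ∉ {ζ | ψ j ζ ≤ t} from not_le.2 hj)]
  have hlim2 : Tendsto (fun j => ∫⁻ ζ, ‖G (rnd (e j) ζ)‖ₑ ^ 2) atTop (𝓝 (∫⁻ ζ, ‖G ζ‖ₑ ^ 2)) := by
    have hm2 : Measurable fun ξ : P n => ‖G ξ‖ₑ ^ 2 := hGc.enorm.measurable.pow_const 2
    refine tendsto_lintegral_of_dominated_convergence
      ((closedBall (0 : P n) (N + 1)).indicator fun _ => ENNReal.ofReal M ^ 2) ?_ ?_ ?_ ?_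
    · intro j
      exact hm2.comp (measurable_rnd (e j))
    · intro j
      refine Eventually.of_forall fun ζ => ?_
      by_cases hζ : ζ ∈ closedBall (0 : P n) (N + 1)
      · rw [indicator_of_mem hζ]
        simp only
        rw [← ofReal_norm]
        gcongr
        exact hM _
      · rw [indicator_of_notMem hζ]
        simp only
        rw [hout j ζ hζ]
        simp
    · rw [lintegral_indicator_const measurableSet_closedBall]
      exact ENNReal.mul_ne_top (ENNReal.pow_ne_top ENNReal.ofReal_ne_top)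
        (isCompact_closedBall _ _).measure_lt_top.ne
    · refine Eventually.of_forall fun ζ => ?_
      exact ((ENNReal.continuous_pow 2).comp hGc.enorm).continuousAt.tendsto.comp (hrt ζ)
  have key : ∀ x, (⨆ t : ℝ, ‖psum φ G t x‖ₑ) ^ 2 ≤
      liminf (fun j => F j (aff (diagonal (e j)) hf x)) atTop := by
    intro x
    rw [iSup_psum_eq_dense hφ hGi hDd, ENNReal.iSup_pow_of_ne_zero two_ne_zero]
    refine iSup_le fun t => ?_
    have h1 : Tendsto (fun j => ‖A j t x‖ₑ ^ 2) atTop (𝓝 (‖psum φ G t x‖ₑ ^ 2)) :=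
      (ENNReal.continuous_pow 2).continuousAt.tendsto.comp
        ((continuous_enorm.tendsto _).comp (hlim t t.2 x))
    rw [← h1.liminf_eq]
    refine liminf_le_liminf ?_
    have h2 : ∀ᶠ j in atTop, aff (diagonal (e j)) hf x ∈ cell (0 : Fin n → ℤ) := by
      have h3 : ∀ i, ∀ᶠ j in atTop, ⌊e j i * x i + 1 / 2⌋ = (0 : ℤ) := by
        intro i
        have h4 : Tendsto (fun j => e j i * x i + 1 / 2) atTop (𝓝 (1 / 2)) := by
          have := ((he i).mul_const (x i)).add_const (1 / 2 : ℝ)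
          simpa using this
        have h5 : Ioo (0:ℝ) 1 ∈ 𝓝 (1 / 2 : ℝ) := Ioo_mem_nhds (by norm_num) (by norm_num)
        filter_upwards [h4 h5] with j hj
        rw [Int.floor_eq_zero_iff]
        exact ⟨hj.1.le, hj.2⟩
      filter_upwards [eventually_all.2 h3] with j hj
      rw [haff]
      exact hj
    filter_upwards [h2] with j hj
    simp only [hF]
    rw [indicator_of_mem hj, ← mul_pow]
    exact pow_le_pow_left' (hAle j t x) 2
  calc ∫⁻ x, (⨆ t : ℝ, ‖psum φ G t x‖ₑ) ^ 2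
      ≤ ∫⁻ x, liminf (fun j => F j (aff (diagonal (e j)) hf x)) atTop := lintegral_mono key
    _ ≤ liminf (fun j => ∫⁻ x, F j (aff (diagonal (e j)) hf x)) atTop :=
        lintegral_liminf_le fun j => (hFm j).comp (continuous_aff _ _).measurable
    _ ≤ liminf (fun j => C * ∫⁻ ζ, ‖G (rnd (e j) ζ)‖ₑ ^ 2) atTop :=
        liminf_le_liminf (Eventually.of_forall hFi)
    _ = C * ∫⁻ ζ, ‖G ζ‖ₑ ^ 2 := (ENNReal.Tendsto.const_mul hlim2 (Or.inr hC)).liminf_eq


/-! ### The lattice -/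

/-- the cube `[-1/2, 1/2]ⁿ` -/
def halfCube (n : ℕ) : Set (P n) := {ξ | ∀ i, |ξ i| ≤ 1 / 2}

lemma measurableSet_halfCube : MeasurableSet (halfCube n) := by
  have : halfCube n = ⋂ i, {ξ : P n | |ξ i| ≤ 1 / 2} := by
    ext ξ
    simp [halfCube]
  rw [this]
  exact MeasurableSet.iInter fun i =>
    measurableSet_le ((measurable_pi_apply i).norm) measurable_const

/-- the maximal inequality on the lattice -/
def Lat (φ : P n → ℝ) (C : ℝ≥0∞) : Prop :=
  ∀ G : P n → ℂ, MemLp G 2 (volume.restrict (halfCube n)) →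
    ∑' k : Fin n → ℤ, (⨆ t : ℝ, ‖∫ ξ in {ξ | ξ ∈ halfCube n ∧ φ ξ ≤ t}, G ξ * ch (rv k) ξ‖ₑ) ^ 2 ≤
      C * ∫⁻ ξ in halfCube n, ‖G ξ‖ₑ ^ 2

lemma ch_add (x y ζ : P n) : ch (x + y) ζ = ch x ζ * ch y ζ := by
  rw [ch, ch, ch, ← Complex.exp_add, add_dotProduct]
  congr 1
  push_cast
  ring

theorem goodOn_of_lat {φ : P n → ℝ} (hφ : Measurable φ) {C : ℝ≥0∞} (h : Lat φ C) :
    GoodOn φ (halfCube n) C := by
  intro G hG1 hG2 hG0
  have hG : Integrable G := memLp_one_iff_integrable.1 hG1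
  have hpsum : ∀ (k : Fin n → ℤ) (t : ℝ) (x : P n), psum φ G t (x + rv k) =
      ∫ ξ in {ξ | ξ ∈ halfCube n ∧ φ ξ ≤ t}, (G ξ * ch x ξ) * ch (rv k) ξ := by
    intro k t x
    unfold psum
    have hm : MeasurableSet {ξ | ξ ∈ halfCube n ∧ φ ξ ≤ t} :=
      measurableSet_halfCube.inter (measurableSet_le hφ measurable_const)
    rw [← integral_indicator (measurableSet_le hφ measurable_const), ← integral_indicator hm]
    refine integral_congr_ae (Eventually.of_forall fun ξ => ?_)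
    simp only [indicator, mem_ofPred_eq]
    by_cases h1 : ξ ∈ halfCube n
    · simp only [h1, true_and, ch_add, mul_assoc]
    · simp only [h1, false_and, hG0 ξ h1, zero_mul, ite_self]
  have hint : ∫⁻ ζ in halfCube n, ‖G ζ‖ₑ ^ 2 = ∫⁻ ζ, ‖G ζ‖ₑ ^ 2 := by
    rw [← lintegral_indicator measurableSet_halfCube]
    refine lintegral_congr fun ζ => ?_
    by_cases h1 : ζ ∈ halfCube n
    · rw [indicator_of_mem h1]
    · rw [indicator_of_notMem h1, hG0 ζ h1]
      simp
  rw [lintegral_cells, tsum_congr fun k : Fin n → ℤ =>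
    lintegral_cell (fun x : P n => (⨆ t : ℝ, ‖psum φ G t x‖ₑ) ^ 2) k]
  have hms : ∀ k : Fin n → ℤ,
      Measurable fun x : P n => (⨆ t : ℝ, ‖psum φ G t (x + rv k)‖ₑ) ^ 2 := fun k =>
    ((measurable_sup hφ hG).comp (measurable_add_const (rv k))).pow_const 2
  rw [← lintegral_tsum fun k => (hms k).aemeasurable]
  calc ∫⁻ x in cell (0 : Fin n → ℤ), ∑' k : Fin n → ℤ, (⨆ t : ℝ, ‖psum φ G t (x + rv k)‖ₑ) ^ 2
      ≤ ∫⁻ x in cell (0 : Fin n → ℤ), C * ∫⁻ ζ, ‖G ζ‖ₑ ^ 2 := by
        refine lintegral_mono fun x => ?_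
        have hmem : MemLp (fun ξ => G ξ * ch x ξ) 2 (volume.restrict (halfCube n)) := by
          refine (hG2.restrict _).congr_norm ?_ ?_
          · exact (hG.aestronglyMeasurable.mul
              (continuous_ch_right x).aestronglyMeasurable).restrict
          · refine Eventually.of_forall fun ξ => ?_
            rw [norm_mul, norm_ch, mul_one]
        have h1 := h (fun ξ => G ξ * ch x ξ) hmem
        simp_rw [hpsum]
        refine h1.trans ?_
        rw [← hint]
        gcongr with ξ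
        rw [enorm_mul, ← ofReal_norm (ch x ξ), norm_ch, ENNReal.ofReal_one, mul_one]
    _ = C * ∫⁻ ζ, ‖G ζ‖ₑ ^ 2 := by
        rw [setLIntegral_const]
        have : volume (cell (0 : Fin n → ℤ)) = 1 := by
          rw [cell_eq, Real.volume_pi_Ico]
          simp
        rw [this, mul_one]

end Pool.Agent.Helper32.MF
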