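import Pool.Agent.Helper32.MF.Euclid

/-!
# Convex quadratic phases, and the passage to one dimension less
-/

open MeasureTheory Set Filter Complex Matrix Metric
open scoped ENNReal NNReal Topology Real ContDiff

namespace Pool.Agent.Helper32.MF

variable {n : ℕ}

lemma measurable_dot_self : Measurable fun ζ : P n => ζ ⬝ᵥ ζ := by
  have := continuous_dot (n := n)
  exact (this.comp (by fun_prop : Continuous fun ζ : P n => (ζ, ζ))).measurable

/-- the phase `|T ζ|² + v·ζ` -/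
def quad (T : Matrix (Fin n) (Fin n) ℝ) (v ζ : P n) : ℝ := (T *ᵥ ζ) ⬝ᵥ (T *ᵥ ζ) + v ⬝ᵥ ζ

lemma continuous_quad (T : Matrix (Fin n) (Fin n) ℝ) (v : P n) : Continuous (quad T v) := by
  have h1 : Continuous fun ζ : P n => T *ᵥ ζ := continuous_const.matrix_mulVec continuous_id
  unfold quad
  refine Continuous.add ?_ ?_
  · exact continuous_dot.comp (h1.prodMk h1)
  · exact continuous_dot.comp (continuous_const.prodMk continuous_id)

theorem good_quad_of_det {C : ℝ≥0∞} (h : Good (fun ζ : P n => ζ ⬝ᵥ ζ) C)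
    {T : Matrix (Fin n) (Fin n) ℝ} (hT : T.det ≠ 0) (v : P n) : Good (quad T v) C := by
  set w : P n := (1 / 2 : ℝ) • ((T⁻¹)ᵀ *ᵥ v) with hw
  have h1 := good_aff measurable_dot_self h hT w
  have hg : Monotone fun r : ℝ => r - w ⬝ᵥ w := fun a b hab => sub_le_sub_right hab _
  have hm : Measurable fun ζ : P n => aff T w ζ ⬝ᵥ aff T w ζ :=
    measurable_dot_self.comp (continuous_aff T w).measurable
  have h2 := good_monotone_comp hm h1 hg
  refine (iff_of_eq (congrArg (Good · C) ?_)).1 h2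
  ext ζ
  have hu : IsUnit T.det := isUnit_iff_ne_zero.2 hT
  have e1 : v ⬝ᵥ ζ = 2 * (w ⬝ᵥ (T *ᵥ ζ)) := by
    rw [hw, smul_dotProduct, smul_eq_mul, mulVec_transpose, ← dotProduct_mulVec, mulVec_mulVec,
      nonsing_inv_mul _ hu, one_mulVec]
    ring
  rw [quad, e1, aff, add_dotProduct, dotProduct_add, dotProduct_add,
    dotProduct_comm (T *ᵥ ζ) w]
  ring

/-- **All convex quadratic phases.** -/
theorem good_quad {C : ℝ≥0∞} (h : Good (fun ζ : P n => ζ ⬝ᵥ ζ) C)
    (T : Matrix (Fin n) (Fin n) ℝ) (v : P n) : Good (quad T v) C := by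
  -- invertible matrices `T + ε` with `ε → 0`
  have hfin : {ε : ℝ | (T + ε • (1 : Matrix (Fin n) (Fin n) ℝ)).det = 0}.Finite := by
    have h1 : ∀ ε : ℝ, (T + ε • (1 : Matrix (Fin n) (Fin n) ℝ)).det = (-T).charpoly.eval ε := by
      intro ε
      rw [Matrix.eval_charpoly]
      congr 1
      ext i j
      simp [Matrix.scalar, Matrix.one_apply, add_comm, Matrix.diagonal_apply]
    simp_rw [h1]
    exact Polynomial.finite_setOfPred_isRoot (Matrix.charpoly_monic (-T)).ne_zero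
  have hd : Dense {ε : ℝ | (T + ε • (1 : Matrix (Fin n) (Fin n) ℝ)).det = 0}ᶜ :=
    hfin.countable.dense_compl ℝ
  obtain ⟨u, -, hu2, hu3⟩ := hd.exists_seq_strictAnti_tendsto 0
  refine good_of_tendsto (continuous_quad T v).measurable
    (ψ := fun j => quad (T + u j • (1 : Matrix (Fin n) (Fin n) ℝ)) v)
    (fun j => (continuous_quad _ v).measurable) ?_ (fun j => good_quad_of_det h (hu2 j).2 v)
  refine Eventually.of_forall fun ζ => ?_
  have hc : Continuous fun ε : ℝ => quad (T + ε • (1 : Matrix (Fin n) (Fin n) ℝ)) v ζ := by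
    have h1 : Continuous fun ε : ℝ => (T + ε • (1 : Matrix (Fin n) (Fin n) ℝ)) *ᵥ ζ := by
      refine Continuous.matrix_mulVec ?_ continuous_const
      fun_prop
    unfold quad
    exact (continuous_dot.comp (h1.prodMk h1)).add continuous_const
  have h2 := (hc.tendsto 0).comp hu3
  simpa [Function.comp_def] using h2

/-! ### The parabolic phase -/

/-- the parabolic phase `ζ_{d+1} + ζ_1² + ⋯ + ζ_d²` on `ℝ^{d+1}` -/
def par {d : ℕ} (ζ : P (d + 1)) : ℝ := ζ (Fin.last d) + ∑ i : Fin d, ζ i.castSucc ^ 2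

lemma continuous_par {d : ℕ} : Continuous (par (d := d)) := by
  unfold par
  fun_prop

/-- the diagonal matrix with the entries `1, …, 1, s` -/
def diagLast (d : ℕ) (s : ℝ) : Matrix (Fin (d + 1)) (Fin (d + 1)) ℝ :=
  Matrix.diagonal (Fin.snoc (fun _ : Fin d => (1 : ℝ)) s : Fin (d + 1) → ℝ)

lemma diagLast_mulVec {d : ℕ} (s : ℝ) (ζ : P (d + 1)) :
    diagLast d s *ᵥ ζ = Fin.snoc (fun i : Fin d => ζ i.castSucc) (s * ζ (Fin.last d)) := by
  ext i
  rw [diagLast, mulVec_diagonal]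
  refine Fin.lastCases ?_ (fun j => ?_) i
  · simp
  · simp

theorem good_par {d : ℕ} {C : ℝ≥0∞} (h : Good (fun ζ : P (d + 1) => ζ ⬝ᵥ ζ) C) :
    Good (par (d := d)) C := by
  have h1 := good_quad h (diagLast d 0) (Pi.single (Fin.last d) 1)
  refine (iff_of_eq (congrArg (Good · C) ?_)).1 h1
  ext ζ
  rw [quad, diagLast_mulVec, single_one_dotProduct]
  simp only [dotProduct, par]
  rw [Fin.sum_univ_castSucc]
  simp [pow_two, add_comm]

/-- the cylindrical phase -/
def cyl {d : ℕ} (ζ : P (d + 1)) : ℝ := ∑ i : Fin d, ζ i.castSucc ^ 2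

theorem good_cyl_of_par {d : ℕ} {C : ℝ≥0∞} (h : Good (par (d := d)) C) :
    Good (cyl (d := d)) C := by
  have hdet : ∀ j : ℕ, (diagLast d (1 / ((j : ℝ) + 1))).det ≠ 0 := by
    intro j
    rw [diagLast, det_diagonal, Fin.prod_univ_castSucc]
    simp only [Fin.snoc_castSucc, Finset.prod_const_one, Fin.snoc_last, one_mul]
    positivity
  refine good_of_tendsto (by unfold cyl; fun_prop)
    (ψ := fun j ζ => par (aff (diagLast d (1 / ((j : ℝ) + 1))) 0 ζ))
    (fun j => continuous_par.measurable.comp (continuous_aff _ _).measurable) ?_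
    (fun j => good_aff continuous_par.measurable h (hdet j) 0)
  refine Eventually.of_forall fun ζ => ?_
  have e : ∀ j : ℕ, par (aff (diagLast d (1 / ((j : ℝ) + 1))) 0 ζ) =
      1 / ((j : ℝ) + 1) * ζ (Fin.last d) + cyl ζ := by
    intro j
    rw [aff, add_zero, diagLast_mulVec, par, cyl]
    simp
  simp_rw [e]
  have h0 := (tendsto_one_div_add_atTop_nhds_zero_nat (𝕜 := ℝ)).mul_const (ζ (Fin.last d))
  have := h0.add_const (cyl ζ)
  simpa using this

/-- the Gaussian -/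
noncomputable def gauss (τ : ℝ) : ℂ := cexp (-π * (τ : ℂ) ^ 2)

lemma fourier_gauss (s : ℝ) : ∫ τ : ℝ, gauss τ * cexp (((2 * π * (s * τ) : ℝ) : ℂ) * I) = gauss s := by
  have h := fourierIntegral_gaussian (b := (π : ℂ)) (by simpa using Real.pi_pos) ((2 * π * s : ℝ) : ℂ)
  have hpi : (π : ℂ) ≠ 0 := ofReal_ne_zero.2 Real.pi_ne_zero
  rw [div_self hpi, one_cpow, one_mul] at h
  calc ∫ τ : ℝ, gauss τ * cexp (((2 * π * (s * τ) : ℝ) : ℂ) * I)
      = ∫ τ : ℝ, cexp (I * ((2 * π * s : ℝ) : ℂ) * τ) * cexp (-π * (τ : ℂ) ^ 2) := by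
        refine integral_congr_ae (Eventually.of_forall fun τ => ?_)
        simp only [gauss]
        rw [mul_comm]
        congr 2
        push_cast
        ring
    _ = cexp (-((2 * π * s : ℝ) : ℂ) ^ 2 / (4 * π)) := h
    _ = gauss s := by
        rw [gauss]
        congr 1
        push_cast
        field_simp
        ring

lemma norm_gauss (τ : ℝ) : ‖gauss τ‖ = Real.exp (-π * τ ^ 2) := by
  rw [gauss, norm_exp]
  congr 1
  rw [show (-π * (τ : ℂ) ^ 2) = ((-π * τ ^ 2 : ℝ) : ℂ) by push_cast; ring, ofReal_re]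

lemma continuous_gauss : Continuous gauss := by
  unfold gauss
  fun_prop

lemma memLp_gauss_one : MemLp gauss 1 := by
  rw [memLp_one_iff_integrable]
  refine (integrable_norm_iff continuous_gauss.aestronglyMeasurable).1 ?_
  simp_rw [norm_gauss]
  exact integrable_exp_neg_mul_sq Real.pi_pos

lemma memLp_gauss_two : MemLp gauss 2 := by
  rw [memLp_two_iff_integrable_sq_norm continuous_gauss.aestronglyMeasurable]
  simp_rw [norm_gauss]
  have h : ∀ τ : ℝ, Real.exp (-π * τ ^ 2) ^ 2 = Real.exp (-(2 * π) * τ ^ 2) := by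
    intro τ
    rw [← Real.exp_nat_mul]
    congr 1
    push_cast
    ring
  simp_rw [h]
  exact integrable_exp_neg_mul_sq (by positivity)

theorem good_dot_of_cyl {d : ℕ} {C : ℝ≥0∞} (h : Good (cyl (d := d)) C) :
    Good (fun ζ : P d => ζ ⬝ᵥ ζ) C := by
  intro g hg1 hg2
  set e := MeasurableEquiv.piFinSuccAbove (fun _ : Fin (d + 1) => ℝ) (Fin.last d) with he
  have hmp : MeasurePreserving e := volume_preserving_piFinSuccAbove (fun _ => ℝ) (Fin.last d)
  have hchg : ∀ F : ℝ × P d → ℝ≥0∞, ∫⁻ x : P (d + 1), F (e x) = ∫⁻ z, F z :=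
    fun F => hmp.lintegral_comp_emb e.measurableEmbedding F
  have he1 : ∀ ζ : P (d + 1), (e ζ).1 = ζ (Fin.last d) := fun ζ => rfl
  have he2 : ∀ (ζ : P (d + 1)) (i : Fin d), (e ζ).2 i = ζ i.castSucc := by
    intro ζ i
    change ζ ((Fin.last d).succAbove i) = ζ i.castSucc
    rw [Fin.succAbove_last]
  set H : ℝ × P d → ℂ := fun z => gauss z.1 * g z.2 with hH
  set G : P (d + 1) → ℂ := fun ζ => H (e ζ) with hG
  have hgi : Integrable g := memLp_one_iff_integrable.1 hg1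
  have hgai : Integrable gauss := memLp_one_iff_integrable.1 memLp_gauss_one
  have hH1 : MemLp H 1 := by
    rw [memLp_one_iff_integrable]
    exact hgai.mul_prod hgi
  have hH2 : MemLp H 2 := by
    rw [memLp_two_iff_integrable_sq_norm hH1.aestronglyMeasurable]
    have h1 := (memLp_two_iff_integrable_sq_norm memLp_gauss_two.aestronglyMeasurable).1
      memLp_gauss_two
    have h2 := (memLp_two_iff_integrable_sq_norm hg2.aestronglyMeasurable).1 hg2
    refine (h1.mul_prod h2).congr (Eventually.of_forall fun z => ?_)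
    simp [hH, mul_pow]
  have hG1 : MemLp G 1 := hH1.comp_measurePreserving hmp
  have hG2 : MemLp G 2 := hH2.comp_measurePreserving hmp
  have hdot : ∀ x ζ : P (d + 1), x ⬝ᵥ ζ = (e x).1 * (e ζ).1 + (e x).2 ⬝ᵥ (e ζ).2 := by
    intro x ζ
    simp only [dotProduct, he1, he2]
    rw [Fin.sum_univ_castSucc, add_comm]
  have hcyl : ∀ ζ : P (d + 1), cyl ζ = (e ζ).2 ⬝ᵥ (e ζ).2 := by
    intro ζ
    simp only [dotProduct, he2, cyl, pow_two]
  have hps : ∀ (t : ℝ) (x : P (d + 1)), psum cyl G t x =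
      gauss (e x).1 * psum (fun ζ : P d => ζ ⬝ᵥ ζ) g t (e x).2 := by
    intro t x
    unfold psum
    rw [← integral_indicator (measurableSet_le (by unfold cyl; fun_prop) measurable_const),
      ← integral_indicator (measurableSet_le measurable_dot_self measurable_const)]
    have h1 : ∫ ζ : P (d + 1), {ζ | cyl ζ ≤ t}.indicator (fun ζ => G ζ * ch x ζ) ζ =
        ∫ z : ℝ × P d, (gauss z.1 * cexp (((2 * π * ((e x).1 * z.1) : ℝ) : ℂ) * I)) *
          ({ζ : P d | ζ ⬝ᵥ ζ ≤ t}.indicator (fun ζ => g ζ * ch (e x).2 ζ) z.2) := by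
      rw [← hmp.integral_comp e.measurableEmbedding]
      refine integral_congr_ae (Eventually.of_forall fun ζ => ?_)
      simp only [indicator, mem_ofPred_eq, hcyl]
      split_ifs with hh
      · simp only [hG, hH, ch, hdot x ζ]
        rw [show (((2 * π * ((e x).1 * (e ζ).1 + (e x).2 ⬝ᵥ (e ζ).2) : ℝ) : ℂ) * I) =
          (((2 * π * ((e x).1 * (e ζ).1) : ℝ) : ℂ) * I) +
            (((2 * π * ((e x).2 ⬝ᵥ (e ζ).2) : ℝ) : ℂ) * I) by push_cast; ring, Complex.exp_add]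
        ring
      · simp
    rw [h1]
    rw [show (volume : Measure (ℝ × P d)) = (volume : Measure ℝ).prod volume from rfl]
    rw [integral_prod_mul (fun τ : ℝ => gauss τ * cexp (((2 * π * ((e x).1 * τ) : ℝ) : ℂ) * I))
      (fun ζ : P d => {ζ : P d | ζ ⬝ᵥ ζ ≤ t}.indicator (fun ζ => g ζ * ch (e x).2 ζ) ζ),
      fourier_gauss]
  have h1 := h G hG1 hG2
  set K : ℝ≥0∞ := ∫⁻ τ, ‖gauss τ‖ₑ ^ 2 with hK
  have hK0 : K ≠ 0 := by
    rw [hK]
    intro h0
    rw [lintegral_eq_zero_iff (continuous_gauss.enorm.measurable.pow_const 2)] at h0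
    have h2 : ∀ᵐ τ : ℝ, False := by
      filter_upwards [h0] with τ hτ
      have : gauss τ = 0 := by simpa using hτ
      exact Complex.exp_ne_zero _ this
    exact h2.exists.elim fun _ h => h
  have hKt : K ≠ ⊤ := by
    rw [hK]
    have := (memLp_two_iff_integrable_sq_norm memLp_gauss_two.aestronglyMeasurable).1
      memLp_gauss_two
    have h3 := this.2
    rw [HasFiniteIntegral] at h3
    refine ne_of_lt (lt_of_le_of_lt (lintegral_mono fun τ => ?_) h3)
    rw [enorm_pow, enorm_norm]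
  have hL : ∫⁻ x, (⨆ t : ℝ, ‖psum cyl G t x‖ₑ) ^ 2 =
      K * ∫⁻ x, (⨆ t : ℝ, ‖psum (fun ζ : P d => ζ ⬝ᵥ ζ) g t x‖ₑ) ^ 2 := by
    have h2 : ∀ x, (⨆ t : ℝ, ‖psum cyl G t x‖ₑ) ^ 2 =
        (fun z : ℝ × P d => ‖gauss z.1‖ₑ ^ 2 *
          (⨆ t : ℝ, ‖psum (fun ζ : P d => ζ ⬝ᵥ ζ) g t z.2‖ₑ) ^ 2) (e x) := by
      intro x
      simp only
      simp_rw [hps, enorm_mul, ← ENNReal.mul_iSup, mul_pow]
    refine ((lintegral_congr h2).trans (hchg (fun z : ℝ × P d => ‖gauss z.1‖ₑ ^ 2 *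
          (⨆ t : ℝ, ‖psum (fun ζ : P d => ζ ⬝ᵥ ζ) g t z.2‖ₑ) ^ 2))).trans ?_
    rw [show (volume : Measure (ℝ × P d)) = (volume : Measure ℝ).prod volume from rfl]
    rw [lintegral_prod_mul (f := fun τ : ℝ => ‖gauss τ‖ₑ ^ 2)
      (g := fun x : P d => (⨆ t : ℝ, ‖psum (fun ζ : P d => ζ ⬝ᵥ ζ) g t x‖ₑ) ^ 2)]
    · exact (continuous_gauss.enorm.measurable.pow_const 2).aemeasurable
    · exact ((measurable_sup measurable_dot_self hgi).pow_const 2).aemeasurable
  have hR : ∫⁻ ζ, ‖G ζ‖ₑ ^ 2 = K * ∫⁻ ζ, ‖g ζ‖ₑ ^ 2 := by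
    have h2 : ∀ ζ, ‖G ζ‖ₑ ^ 2 = (fun z : ℝ × P d => ‖gauss z.1‖ₑ ^ 2 * ‖g z.2‖ₑ ^ 2) (e ζ) := by
      intro ζ
      simp only [hG, hH, enorm_mul, mul_pow]
    refine ((lintegral_congr h2).trans
      (hchg (fun z : ℝ × P d => ‖gauss z.1‖ₑ ^ 2 * ‖g z.2‖ₑ ^ 2))).trans ?_
    rw [show (volume : Measure (ℝ × P d)) = (volume : Measure ℝ).prod volume from rfl]
    rw [lintegral_prod_mul (f := fun τ : ℝ => ‖gauss τ‖ₑ ^ 2) (g := fun x : P d => ‖g x‖ₑ ^ 2)]
    · exact (continuous_gauss.enorm.measurable.pow_const 2).aemeasurable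
    · exact (hgi.aestronglyMeasurable.enorm.pow_const 2)
  rw [hL, hR, mul_left_comm] at h1
  exact (ENNReal.mul_le_mul_iff_right hK0 hKt).1 h1

end Pool.Agent.Helper32.MF
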