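import Pool.Agent.Helper32.MF.Cells
import Pool.Agent.Helper32.MF.Dense

/-!
# Transference between Fourier integrals and multiple Fourier series, with the same constant
-/

open MeasureTheory Set Filter Complex Matrix Metric
open scoped ENNReal NNReal Topology Real

namespace Pool.Agent.Helper32.MF

variable {n : ℕ}

/-- the partial sum over the frequencies `m ∈ s` with `φ m ≤ t` -/
noncomputable def ssum (φ : P n → ℝ) (s : Finset (Fin n → ℤ)) (c : (Fin n → ℤ) → ℂ) (t : ℝ)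
    (x : P n) : ℂ := ∑ m ∈ s with φ (rv m) ≤ t, c m * ch x (rv m)

/-- the maximal inequality for the partial sums of multiple Fourier series -/
def Ser (φ : P n → ℝ) (C : ℝ≥0∞) : Prop :=
  ∀ (s : Finset (Fin n → ℤ)) (c : (Fin n → ℤ) → ℂ),
    ∫⁻ x in cell 0, (⨆ t : ℝ, ‖ssum φ s c t x‖ₑ) ^ 2 ≤ C * ∑ m ∈ s, ‖c m‖ₑ ^ 2

lemma measurable_ssup (φ : P n → ℝ) (s : Finset (Fin n → ℤ)) (c : (Fin n → ℤ) → ℂ) :
    Measurable fun x => ⨆ t : ℝ, ‖ssum φ s c t x‖ₑ := by
  classical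
  set g : ℝ → Finset (Fin n → ℤ) := fun t => s.filter fun m => φ (rv m) ≤ t with hg
  have h : ∀ x, ⨆ t : ℝ, ‖ssum φ s c t x‖ₑ = ⨆ A : range g, ‖∑ m ∈ (A : Finset (Fin n → ℤ)),
      c m * ch x (rv m)‖ₑ := by
    intro x
    rw [iSup_range' (fun A : Finset (Fin n → ℤ) => ‖∑ m ∈ A, c m * ch x (rv m)‖ₑ) g]
    rfl
  simp_rw [h]
  refine Measurable.iSup fun A => ?_
  refine Continuous.measurable (Continuous.enorm ?_)
  refine continuous_finsetSum _ fun m _ => ?_
  exact continuous_const.mul (continuous_ch_left _)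

lemma ch_add_rv (x : P n) (a m : Fin n → ℤ) : ch (x + rv a) (rv m) = ch x (rv m) := by
  have h : (x + rv a) ⬝ᵥ rv m = x ⬝ᵥ rv m + ((∑ i, a i * m i : ℤ) : ℝ) := by
    rw [add_dotProduct]
    congr 1
    simp [rv, dotProduct]
  rw [ch, ch, h]
  rw [show (((2 * π * (x ⬝ᵥ rv m + ((∑ i, a i * m i : ℤ) : ℝ)) : ℝ) : ℂ) * I) =
    ((2 * π * (x ⬝ᵥ rv m) : ℝ) : ℂ) * I + ((∑ i, a i * m i : ℤ) : ℂ) * (2 * π * I) by
      push_cast; ring, Complex.exp_add, Complex.exp_int_mul_two_pi_mul_I, mul_one]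

lemma ssum_add_rv (φ : P n → ℝ) (s : Finset (Fin n → ℤ)) (c : (Fin n → ℤ) → ℂ) (t : ℝ)
    (x : P n) (a : Fin n → ℤ) : ssum φ s c t (x + rv a) = ssum φ s c t x := by
  unfold ssum
  simp_rw [ch_add_rv]

lemma integral_cube_ch (δ : ℝ) (a x : P n) :
    ∫ ζ in cube δ a, ch x ζ = ch x a * wt δ x := by
  unfold wt
  rw [← integral_indicator (measurableSet_cube δ a), ← integral_indicator (measurableSet_cube δ 0),
    ← integral_add_right_eq_self _ a, ← integral_const_mul]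
  refine integral_congr_ae (Eventually.of_forall fun ζ => ?_)
  have h : ζ + a ∈ cube δ a ↔ ζ ∈ cube δ (0 : P n) := by
    simp only [cube, Set.mem_pi, mem_univ, true_implies, mem_Ico, Pi.add_apply, Pi.zero_apply,
      zero_add]
    refine forall_congr' fun i => ?_
    constructor <;> rintro ⟨h1, h2⟩ <;> constructor <;> linarith
  simp only
  by_cases hζ : ζ ∈ cube δ (0 : P n)
  · rw [indicator_of_mem hζ, indicator_of_mem (h.2 hζ)]
    rw [ch, ch, ch, ← Complex.exp_add, dotProduct_add]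
    congr 1
    push_cast
    ring
  · rw [indicator_of_notMem hζ, indicator_of_notMem fun h' => hζ (h.1 h'), mul_zero]

lemma lintegral_wt_mul {δ : ℝ} (h0 : 0 ≤ δ) (h1 : δ ≤ 1) {Φ : P n → ℝ≥0∞} (hΦ : Measurable Φ)
    (hper : ∀ x (a : Fin n → ℤ), Φ (x + rv a) = Φ x) (hw : Measurable (wt (n := n) δ)) :
    ∫⁻ x, ‖wt δ x‖ₑ ^ 2 * Φ x = ENNReal.ofReal δ ^ n * ∫⁻ x in cell 0, Φ x := by
  rw [lintegral_cells]
  have hc : ∀ a : Fin n → ℤ, ∫⁻ x in cell a, ‖wt δ x‖ₑ ^ 2 * Φ x =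
      ∫⁻ x in cell 0, ‖wt δ (x + rv a)‖ₑ ^ 2 * Φ x := by
    intro a
    rw [lintegral_cell]
    simp_rw [hper]
  rw [tsum_congr hc, ← lintegral_tsum]
  · simp_rw [ENNReal.tsum_mul_right, tsum_wt h0 h1]
    rw [lintegral_const_mul _ hΦ]
  · intro a
    refine AEMeasurable.mul ?_ hΦ.aemeasurable
    exact ((hw.comp (measurable_add_const _)).enorm.pow_const 2).aemeasurable

lemma integrable_cube (δ : ℝ) (a : P n) (c : ℂ) :
    Integrable ((cube δ a).indicator fun _ => c) := by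
  refine (integrable_indicator_iff (measurableSet_cube δ a)).2 (integrableOn_const ?_)
  rw [volume_cube]
  exact ENNReal.pow_ne_top ENNReal.ofReal_ne_top

lemma measurable_wt (δ : ℝ) : Measurable (wt (n := n) δ) := by
  have h : wt (n := n) δ = psum (fun _ => 0) ((cube δ 0).indicator fun _ => 1) 0 := by
    ext x
    unfold wt psum
    simp only [le_refl, ofPred_true, Measure.restrict_univ]
    rw [← integral_indicator (measurableSet_cube δ 0)]
    refine integral_congr_ae (Eventually.of_forall fun ζ => ?_)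
    simp only
    by_cases hζ : ζ ∈ cube δ (0 : P n)
    · rw [indicator_of_mem hζ, indicator_of_mem hζ, one_mul]
    · rw [indicator_of_notMem hζ, indicator_of_notMem hζ, zero_mul]
  rw [h]
  exact (continuous_psum _ (integrable_cube δ 0 1) 0).measurable

/-- **From integrals to series.** -/
theorem ser_of_good {φ : P n → ℝ} (hφ : Continuous φ) {C : ℝ≥0∞} (h : Good φ C) : Ser φ C := by
  classical
  intro s c
  -- the gap
  have hγ : ∃ γ : ℝ, 0 < γ ∧ ∀ m ∈ s, ∀ m' ∈ s, φ (rv m) < φ (rv m') →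
      φ (rv m) + 2 * γ ≤ φ (rv m') := by
    have h1 : ∀ᶠ γ : ℝ in 𝓝[>] 0, ∀ m ∈ s, ∀ m' ∈ s, φ (rv m) < φ (rv m') →
        φ (rv m) + 2 * γ ≤ φ (rv m') := by
      refine (Filter.eventually_all_finset s).2 fun m _ => (Filter.eventually_all_finset s).2
        fun m' _ => ?_
      by_cases hlt : φ (rv m) < φ (rv m')
      · have h2 : ∀ᶠ γ : ℝ in 𝓝[>] 0, γ < (φ (rv m') - φ (rv m)) / 2 := by
          refine nhdsWithin_le_nhds (gt_mem_nhds (by linarith))
        filter_upwards [h2] with γ hγ _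
        linarith
      · exact Eventually.of_forall fun γ hh => (hlt hh).elim
    obtain ⟨γ, hγ1, hγ2⟩ := (h1.and self_mem_nhdsWithin).exists
    exact ⟨γ, hγ2, hγ1⟩
  obtain ⟨γ, hγ0, hγ⟩ := hγ
  have hδ : ∃ δ : ℝ, 0 < δ ∧ δ ≤ 1 ∧ ∀ m ∈ s, ∀ ζ ∈ cube δ (rv m), |φ ζ - φ (rv m)| < γ := by
    have h1 : ∀ᶠ δ : ℝ in 𝓝[>] 0, ∀ m ∈ s, ∀ ζ ∈ cube δ (rv m), |φ ζ - φ (rv m)| < γ := by
      refine (Filter.eventually_all_finset s).2 fun m _ => ?_
      obtain ⟨r, hr0, hr⟩ := Metric.continuousAt_iff.1 (hφ.continuousAt (x := rv m)) γ hγ0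
      have h2 : ∀ᶠ δ : ℝ in 𝓝[>] 0, δ < r := nhdsWithin_le_nhds (gt_mem_nhds hr0)
      filter_upwards [h2] with δ hδ ζ hζ
      have : dist ζ (rv m) < r := by
        refine (dist_pi_lt_iff hr0).2 fun i => ?_
        have := hζ i (mem_univ i)
        rw [Real.dist_eq, abs_lt]
        constructor <;> linarith [this.1, this.2]
      exact hr this
    have h3 : ∀ᶠ δ : ℝ in 𝓝[>] 0, δ < 1 := nhdsWithin_le_nhds (gt_mem_nhds one_pos)
    obtain ⟨δ, hδ1, hδ2, hδ3⟩ := (h1.and (h3.and self_mem_nhdsWithin)).exists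
    exact ⟨δ, hδ3, hδ2.le, hδ1⟩
  obtain ⟨δ, hδ0, hδ1, hδ⟩ := hδ
  set G : P n → ℂ := fun ζ => ∑ m ∈ s, (cube δ (rv m)).indicator (fun _ => c m) ζ with hG
  have hGp : ∀ p : ℝ≥0∞, MemLp G p := by
    intro p
    refine memLp_finsetSum _ fun m _ => ?_
    refine memLp_indicator_const p (measurableSet_cube δ (rv m)) (c m) (Or.inr ?_)
    rw [volume_cube]
    exact ENNReal.pow_ne_top ENNReal.ofReal_ne_top
  -- a point of the cube of `m` determines `m`
  have huniq : ∀ m m' : Fin n → ℤ, ∀ ζ, ζ ∈ cube δ (rv m) → ζ ∈ cube δ (rv m') → m = m' := by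
    have hfl : ∀ m : Fin n → ℤ, ∀ ζ, ζ ∈ cube δ (rv m) → ∀ i, ⌊ζ i⌋ = m i := by
      intro m ζ hζ i
      have := hζ i (mem_univ i)
      rw [Int.floor_eq_iff]
      exact ⟨this.1, this.2.trans_le (by simp only [rv]; linarith)⟩
    intro m m' ζ h1 h2
    ext i
    rw [← hfl m ζ h1 i, hfl m' ζ h2 i]
  have hG2 : ∫⁻ ζ, ‖G ζ‖ₑ ^ 2 ≤ ENNReal.ofReal δ ^ n * ∑ m ∈ s, ‖c m‖ₑ ^ 2 := by
    have h1 : ∀ ζ, ‖G ζ‖ₑ ^ 2 ≤ ∑ m ∈ s, (cube δ (rv m)).indicator (fun _ => ‖c m‖ₑ ^ 2) ζ := by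
      intro ζ
      by_cases hex : ∃ m ∈ s, ζ ∈ cube δ (rv m)
      · obtain ⟨m, hm, hζ⟩ := hex
        have e1 : G ζ = c m := by
          rw [hG]
          simp only
          rw [Finset.sum_eq_single m]
          · rw [indicator_of_mem hζ]
          · intro m' _ hne
            exact indicator_of_notMem (fun h' => hne (huniq m' m ζ h' hζ)) _
          · exact fun h' => (h' hm).elim
        rw [e1]
        refine le_trans (le_of_eq ?_) (Finset.single_le_sum (fun _ _ => zero_le) hm)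
        rw [indicator_of_mem hζ]
      · have e1 : G ζ = 0 := by
          refine Finset.sum_eq_zero fun m hm => indicator_of_notMem (fun h' => hex ⟨m, hm, h'⟩) _
        rw [e1]
        simp
    refine (lintegral_mono h1).trans (le_of_eq ?_)
    rw [lintegral_finsetSum]
    · simp_rw [lintegral_indicator_const (measurableSet_cube δ _), volume_cube]
      rw [Finset.mul_sum]
      exact Finset.sum_congr rfl fun m _ => mul_comm _ _
    · exact fun m _ => measurable_const.indicator (measurableSet_cube δ _)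
  have hcut : ∀ t t' : ℝ, (∀ m ∈ s, φ (rv m) ≤ t → ∀ ζ ∈ cube δ (rv m), φ ζ ≤ t') →
      (∀ m ∈ s, ¬ φ (rv m) ≤ t → ∀ ζ ∈ cube δ (rv m), ¬ φ ζ ≤ t') →
      ∀ x, psum φ G t' x = wt δ x * ssum φ s c t x := by
    intro t t' h1 h2 x
    have hms : MeasurableSet {ζ | φ ζ ≤ t'} := measurableSet_le hφ.measurable measurable_const
    unfold psum ssum
    simp only [hG, Finset.sum_mul]
    rw [integral_finsetSum]
    · rw [Finset.sum_filter, Finset.mul_sum]
      refine Finset.sum_congr rfl fun m hm => ?_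
      rw [← integral_indicator hms]
      split_ifs with hmt
      · rw [mul_left_comm, mul_comm (wt δ x), ← integral_cube_ch, ← integral_const_mul,
          ← integral_indicator (measurableSet_cube δ _)]
        refine integral_congr_ae (Eventually.of_forall fun ζ => ?_)
        by_cases hζ : ζ ∈ cube δ (rv m)
        · rw [indicator_of_mem (show ζ ∈ {ζ | φ ζ ≤ t'} from h1 m hm hmt ζ hζ),
            indicator_of_mem hζ, indicator_of_mem hζ]
        · rw [indicator_of_notMem hζ, indicator_apply]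
          rw [indicator_of_notMem hζ, zero_mul, ite_self]
      · rw [mul_zero]
        refine integral_eq_zero_of_ae (Eventually.of_forall fun ζ => ?_)
        simp only [Pi.zero_apply]
        by_cases hζ : ζ ∈ cube δ (rv m)
        · rw [indicator_of_notMem (show ζ ∉ {ζ | φ ζ ≤ t'} from h2 m hm hmt ζ hζ)]
        · rw [indicator_apply, indicator_of_notMem hζ, zero_mul, ite_self]
    · intro m _
      exact (integrable_mul_ch (integrable_cube δ (rv m) (c m)) x).integrableOn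
  have hps : ∀ t, ∃ t', ∀ x, psum φ G t' x = wt δ x * ssum φ s c t x := by
    intro t
    by_cases hA : (s.filter fun m => φ (rv m) ≤ t).Nonempty
    swap
    · rw [Finset.not_nonempty_iff_eq_empty, Finset.filter_eq_empty_iff] at hA
      refine ⟨t - γ, hcut t (t - γ) (fun m hm h' => (hA hm h').elim) fun m hm h' ζ hζ => ?_⟩
      have := (abs_lt.1 (hδ m hm ζ hζ)).1
      push Not at h' ⊢
      linarith
    obtain ⟨m₀, hm₀, hmax⟩ := Finset.exists_max_image _ (fun m => φ (rv m)) hA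
    rw [Finset.mem_filter] at hm₀
    refine ⟨φ (rv m₀) + γ, hcut t _ (fun m hm h' ζ hζ => ?_) fun m hm h' ζ hζ => ?_⟩
    · have h1 := hmax m (Finset.mem_filter.2 ⟨hm, h'⟩)
      have h2 := (abs_lt.1 (hδ m hm ζ hζ)).2
      linarith
    · have h1 := hγ m₀ hm₀.1 m hm (hm₀.2.trans_lt (not_le.1 h'))
      have h2 := (abs_lt.1 (hδ m hm ζ hζ)).1
      push Not
      linarith
  have hle : ∀ x, ‖wt δ x‖ₑ ^ 2 * (⨆ t : ℝ, ‖ssum φ s c t x‖ₑ) ^ 2 ≤
      (⨆ t : ℝ, ‖psum φ G t x‖ₑ) ^ 2 := by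
    intro x
    rw [← mul_pow, ENNReal.mul_iSup]
    refine pow_le_pow_left' (iSup_le fun t => ?_) 2
    obtain ⟨t', ht'⟩ := hps t
    rw [← enorm_mul, ← ht']
    exact le_iSup (fun t : ℝ => ‖psum φ G t x‖ₑ) t'
  have hfin := (lintegral_mono hle).trans ((h G (hGp 1) (hGp 2)).trans (mul_le_mul_right hG2 C))
  rw [lintegral_wt_mul hδ0.le hδ1 ((measurable_ssup φ s c).pow_const 2)
    (fun x a => by simp_rw [ssum_add_rv]) (measurable_wt δ), mul_left_comm] at hfin
  have hd0 : ENNReal.ofReal δ ^ n ≠ 0 := pow_ne_zero _ (by simpa using hδ0)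
  exact (ENNReal.mul_le_mul_iff_right hd0 (ENNReal.pow_ne_top ENNReal.ofReal_ne_top)).1 hfin

end Pool.Agent.Helper32.MF
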