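import Pool.Agent.Helper32.MF.Quad
import Pool.Agent.Helper32.MF.Frame

/-!
# Blow-up of a phase at a point
-/

open MeasureTheory Set Filter Complex Matrix Metric Asymptotics Module
open scoped ENNReal NNReal Topology Real

namespace Pool.Agent.Helper32.MF

variable {n : ℕ}

/-- limits of phases, for one function -/
theorem ineq_of_phase_tendsto {φ : P n → ℝ} (hφ : Measurable φ) {ψ : ℕ → P n → ℝ}
    (hψ : ∀ j, Measurable (ψ j)) (h : ∀ᵐ ζ, Tendsto (fun j => ψ j ζ) atTop (𝓝 (φ ζ)))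
    {G : P n → ℂ} (hG : Integrable G) {A : ℝ≥0∞}
    (hA : ∀ᶠ j in atTop, ∫⁻ x, (⨆ t : ℝ, ‖psum (ψ j) G t x‖ₑ) ^ 2 ≤ A) :
    ∫⁻ x, (⨆ t : ℝ, ‖psum φ G t x‖ₑ) ^ 2 ≤ A := by
  obtain ⟨D, hDc, hDd, hD⟩ := exists_levels hφ
  have key : ∀ x, (⨆ t : ℝ, ‖psum φ G t x‖ₑ) ^ 2 ≤
      liminf (fun j => (⨆ t : ℝ, ‖psum (ψ j) G t x‖ₑ) ^ 2) atTop := by
    intro x
    rw [iSup_psum_eq_dense hφ hG hDd, ENNReal.iSup_pow_of_ne_zero two_ne_zero]
    refine iSup_le fun s => ?_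
    have h1 : Tendsto (fun j => ‖psum (ψ j) G s x‖ₑ ^ 2) atTop (𝓝 (‖psum φ G s x‖ₑ ^ 2)) :=
      (ENNReal.continuous_pow 2).continuousAt.tendsto.comp
        ((continuous_enorm.tendsto _).comp (tendsto_psum hφ hψ h hG (hD s s.2) x))
    rw [← h1.liminf_eq]
    refine liminf_le_liminf (Eventually.of_forall fun j => ?_)
    exact pow_le_pow_left' (le_iSup (fun t : ℝ => ‖psum (ψ j) G t x‖ₑ) (s : ℝ)) 2
  calc ∫⁻ x, (⨆ t : ℝ, ‖psum φ G t x‖ₑ) ^ 2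
      ≤ ∫⁻ x, liminf (fun j => (⨆ t : ℝ, ‖psum (ψ j) G t x‖ₑ) ^ 2) atTop := lintegral_mono key
    _ ≤ liminf (fun j => ∫⁻ x, (⨆ t : ℝ, ‖psum (ψ j) G t x‖ₑ) ^ 2) atTop :=
        lintegral_liminf_le fun j => (measurable_sup (hψ j) hG).pow_const 2
    _ ≤ liminf (fun _ : ℕ => A) atTop := liminf_le_liminf hA
    _ = A := by simp

lemma iSup_monotone_comp_le {φ : P n → ℝ} (hφ : Measurable φ) {G : P n → ℂ} (hG : Integrable G)
    {g : ℝ → ℝ} (hg : Monotone g) (x : P n) :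
    ⨆ t : ℝ, ‖psum (fun ζ => g (φ ζ)) G t x‖ₑ ≤ ⨆ t : ℝ, ‖psum φ G t x‖ₑ := by
  refine iSup_le fun t => ?_
  have hL : IsLowerSet (g ⁻¹' Iic t) := by
    intro a b hab ha
    exact (hg hab).trans ha
  exact enorm_lowerSet_le hφ hG hL x

/-- the complementary sets -/
theorem good_neg {φ : P n → ℝ} (hφ : Measurable φ) {C : ℝ≥0∞} (h : Good φ C) :
    Good (fun ζ => -φ ζ) (4 * C) := by
  intro G hG1 hG2
  have hG : Integrable G := memLp_one_iff_integrable.1 hG1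
  have key : ∀ x, ⨆ t : ℝ, ‖psum (fun ζ => -φ ζ) G t x‖ₑ ≤ 2 * ⨆ t : ℝ, ‖psum φ G t x‖ₑ := by
    intro x
    refine iSup_le fun t => ?_
    have hset : {ζ | -φ ζ ≤ t} = (φ ⁻¹' Iio (-t))ᶜ := by
      ext ζ
      simp only [mem_ofPred_eq, mem_compl_iff, mem_preimage, mem_Iio, not_lt]
      exact neg_le
    have h1 : psum (fun ζ => -φ ζ) G t x =
        (∫ ζ in φ ⁻¹' univ, G ζ * ch x ζ) - ∫ ζ in φ ⁻¹' Iio (-t), G ζ * ch x ζ := by
      unfold psum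
      rw [hset, eq_sub_iff_add_eq, add_comm, integral_add_compl (hφ measurableSet_Iio)
        (integrable_mul_ch hG x), preimage_univ, setIntegral_univ]
    rw [h1, two_mul]
    refine enorm_sub_le.trans (add_le_add ?_ ?_)
    · exact enorm_lowerSet_le hφ hG isLowerSet_univ x
    · exact enorm_lowerSet_le hφ hG (isLowerSet_Iio _) x
  calc ∫⁻ x, (⨆ t : ℝ, ‖psum (fun ζ => -φ ζ) G t x‖ₑ) ^ 2
      ≤ ∫⁻ x, (2 * ⨆ t : ℝ, ‖psum φ G t x‖ₑ) ^ 2 :=
        lintegral_mono fun x => pow_le_pow_left' (key x) 2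
    _ = ∫⁻ x, 4 * (⨆ t : ℝ, ‖psum φ G t x‖ₑ) ^ 2 := by
        refine lintegral_congr fun x => ?_
        rw [mul_pow]
        norm_num
    _ = 4 * ∫⁻ x, (⨆ t : ℝ, ‖psum φ G t x‖ₑ) ^ 2 :=
        lintegral_const_mul' _ _ (by norm_num)
    _ ≤ 4 * (C * ∫⁻ ζ, ‖G ζ‖ₑ ^ 2) := by
        gcongr
        exact h G hG1 hG2
    _ = 4 * C * ∫⁻ ζ, ‖G ζ‖ₑ ^ 2 := by rw [mul_assoc]

/-- the matrix with given columns -/
def cols {k : ℕ} (b : Fin k → P n) : Matrix (Fin n) (Fin k) ℝ := Matrix.of fun i j => b j i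

lemma cols_mulVec {k : ℕ} (b : Fin k → P n) (ζ : P k) : cols b *ᵥ ζ = ∑ j, ζ j • b j := by
  ext i
  simp [cols, mulVec, dotProduct, mul_comm]

lemma det_ne_zero_of_injective {B : Matrix (Fin n) (Fin n) ℝ}
    (h : ∀ ζ, B *ᵥ ζ = 0 → ζ = 0) : B.det ≠ 0 := by
  have hi : Function.Injective B.mulVec := by
    intro x y hxy
    have : B *ᵥ (x - y) = 0 := by
      rw [mulVec_sub]
      exact sub_eq_zero.2 hxy
    exact sub_eq_zero.1 (h _ this)
  have := mulVec_injective_iff_isUnit.1 hi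
  exact (isUnit_iff_isUnit_det B).1 this |>.ne_zero

lemma sum_sq_eq_zero {k : ℕ} {ζ : P k} (h : ∑ i, ζ i ^ 2 = 0) : ζ = 0 := by
  ext i
  have := (Finset.sum_eq_zero_iff_of_nonneg (fun i _ => sq_nonneg (ζ i))).1 h i (Finset.mem_univ i)
  simpa using this

/-- a positive definite form in suitable coordinates -/
lemma exists_coords (H : Matrix (Fin n) (Fin n) ℝ)
    (hH : ∀ h : P n, h ≠ 0 → 0 < h ⬝ᵥ (H *ᵥ h)) :
    ∃ B : Matrix (Fin n) (Fin n) ℝ, B.det ≠ 0 ∧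
      ∀ ζ : P n, (B *ᵥ ζ) ⬝ᵥ (H *ᵥ (B *ᵥ ζ)) = ∑ i, ζ i ^ 2 := by
  obtain ⟨b, -, hb⟩ := exists_frame (⊤ : Submodule ℝ (P n)) H (fun h _ => hH h)
    (k := n) (by rw [finrank_top]; simp)
  have hb' : ∀ ζ : P n, (cols b *ᵥ ζ) ⬝ᵥ (H *ᵥ (cols b *ᵥ ζ)) = ∑ i, ζ i ^ 2 := by
    intro ζ
    rw [cols_mulVec, hb]
  refine ⟨cols b, det_ne_zero_of_injective fun ζ h0 => ?_, hb'⟩
  have := hb' ζ
  rw [h0, zero_dotProduct] at this
  exact sum_sq_eq_zero this.symm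

/-- coordinates adapted to a linear form and to a quadratic form which is positive on its
kernel -/
lemma exists_coords_par {d : ℕ} (a : P (d + 1)) (ha : a ≠ 0)
    (H : Matrix (Fin (d + 1)) (Fin (d + 1)) ℝ)
    (hH : ∀ h : P (d + 1), a ⬝ᵥ h = 0 → h ≠ 0 → 0 < h ⬝ᵥ (H *ᵥ h)) :
    ∃ B : Matrix (Fin (d + 1)) (Fin (d + 1)) ℝ, B.det ≠ 0 ∧
      (∀ ζ : P (d + 1), a ⬝ᵥ (B *ᵥ ζ) = ζ (Fin.last d)) ∧
      ∀ ζ : P (d + 1), ζ (Fin.last d) = 0 →
        (B *ᵥ ζ) ⬝ᵥ (H *ᵥ (B *ᵥ ζ)) = ∑ i : Fin d, ζ i.castSucc ^ 2 := by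
  set f : Module.Dual ℝ (P (d + 1)) := dotProductBilin ℝ ℝ a with hf
  have hfa : ∀ h, f h = a ⬝ᵥ h := fun h => rfl
  have haa : a ⬝ᵥ a ≠ 0 := by
    intro h0
    exact ha (dotProduct_self_eq_zero.1 h0)
  have hf0 : f ≠ 0 := by
    intro h0
    have : f a = 0 := by rw [h0]; rfl
    exact haa this
  have hk : finrank ℝ (LinearMap.ker f) = d := by
    have := Module.Dual.finrank_ker_add_one_of_ne_zero hf0
    rw [Module.finrank_fin_fun] at this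
    omega
  obtain ⟨b, hbV, hb⟩ := exists_frame (LinearMap.ker f) H
    (fun h hh h0 => hH h (by rw [← hfa]; exact LinearMap.mem_ker.1 hh) h0) hk
  have hab : ∀ i, a ⬝ᵥ b i = 0 := fun i => by rw [← hfa]; exact LinearMap.mem_ker.1 (hbV i)
  set b' : Fin (d + 1) → P (d + 1) :=
    Fin.snoc (α := fun _ => P (d + 1)) b ((a ⬝ᵥ a)⁻¹ • a) with hb'
  have hB : ∀ ζ : P (d + 1), cols b' *ᵥ ζ =
      (∑ i : Fin d, ζ i.castSucc • b i) + (ζ (Fin.last d) * (a ⬝ᵥ a)⁻¹) • a := by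
    intro ζ
    rw [cols_mulVec, Fin.sum_univ_castSucc]
    simp [hb', smul_smul]
  have h1 : ∀ ζ : P (d + 1), a ⬝ᵥ (cols b' *ᵥ ζ) = ζ (Fin.last d) := by
    intro ζ
    rw [hB, dotProduct_add, dotProduct_smul, dotProduct_sum]
    simp only [dotProduct_smul, hab, mul_zero, Finset.sum_const_zero, zero_add, smul_eq_mul]
    field_simp
  have h2 : ∀ ζ : P (d + 1), ζ (Fin.last d) = 0 →
      (cols b' *ᵥ ζ) ⬝ᵥ (H *ᵥ (cols b' *ᵥ ζ)) = ∑ i : Fin d, ζ i.castSucc ^ 2 := by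
    intro ζ hζ
    rw [hB, hζ, zero_mul, zero_smul, add_zero, hb]
  refine ⟨cols b', det_ne_zero_of_injective fun ζ h0 => ?_, h1, h2⟩
  have h3 : ζ (Fin.last d) = 0 := by
    rw [← h1 ζ, h0, dotProduct_zero]
  have h4 := h2 ζ h3
  rw [h0, zero_dotProduct] at h4
  have h5 := sum_sq_eq_zero (ζ := fun i : Fin d => ζ i.castSucc) h4.symm
  ext i
  refine Fin.lastCases ?_ (fun j => ?_) i
  · exact h3
  · exact congrFun h5 j

/-! ### Blow-up -/

/-- the scales -/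
noncomputable def sc (j : ℕ) : ℝ := 1 / ((j : ℝ) + 1)

lemma sc_pos (j : ℕ) : 0 < sc j := by unfold sc; positivity

lemma sc_le (j : ℕ) : sc j ≤ 1 := by
  unfold sc
  rw [div_le_one (by positivity)]
  linarith [(Nat.cast_nonneg j : (0:ℝ) ≤ j)]

lemma tendsto_sc : Tendsto sc atTop (𝓝 0) := tendsto_one_div_add_atTop_nhds_zero_nat

/-- a little-o of the square of the norm along the images of a fixed vector -/
lemma tendsto_littleO {E : P n → ℝ} (hE : E =o[𝓝 0] fun h => ‖h‖ ^ 2) {k : ℕ → P n} {k₀ : P n}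
    (hk : Tendsto k atTop (𝓝 k₀)) :
    Tendsto (fun j => (sc j ^ 2)⁻¹ * E (sc j • k j)) atTop (𝓝 0) := by
  have h0 : Tendsto (fun j => sc j • k j) atTop (𝓝 0) := by
    have := tendsto_sc.smul hk
    simpa using this
  have h1 := hE.comp_tendsto h0
  have h2 : (fun j => ‖sc j • k j‖ ^ 2) =O[atTop] fun j => sc j ^ 2 := by
    have h3 : (fun j => ‖k j‖ ^ 2) =O[atTop] fun _ => (1 : ℝ) := by
      exact ((hk.norm.pow 2).isBigO_one ℝ)
    have h4 := (isBigO_refl (fun j => sc j ^ 2) atTop).mul h3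
    simp only [mul_one] at h4
    refine h4.congr_left fun j => ?_
    rw [norm_smul, mul_pow, Real.norm_eq_abs, sq_abs]
  have h5 := h1.trans_isBigO h2
  have h6 := (isLittleO_iff_tendsto' (Eventually.of_forall fun j hj => ?_)).1 h5
  · refine h6.congr fun j => ?_
    simp only [Function.comp_apply]
    rw [div_eq_inv_mul]
  · exact absurd hj (pow_ne_zero 2 (sc_pos j).ne')

/-- **Blow-up at a nondegenerate minimum.** -/
theorem tendsto_zoom {φ : P n → ℝ} {ξ₀ : P n} {H : Matrix (Fin n) (Fin n) ℝ}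
    (hE : (fun h : P n => φ (ξ₀ + h) - φ ξ₀ - h ⬝ᵥ (H *ᵥ h)) =o[𝓝 0] fun h => ‖h‖ ^ 2)
    (ζ : P n) :
    Tendsto (fun j => (sc j ^ 2)⁻¹ * (φ (ξ₀ + sc j • ζ) - φ ξ₀)) atTop
      (𝓝 (ζ ⬝ᵥ (H *ᵥ ζ))) := by
  have h1 := (tendsto_littleO hE (tendsto_const_nhds (x := ζ))).add_const (ζ ⬝ᵥ (H *ᵥ ζ))
  rw [zero_add] at h1
  refine h1.congr fun j => ?_
  have hne := (pow_pos (sc_pos j) 2).ne'
  have e : (sc j • ζ) ⬝ᵥ (H *ᵥ (sc j • ζ)) = sc j ^ 2 * (ζ ⬝ᵥ (H *ᵥ ζ)) := by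
    rw [mulVec_smul, smul_dotProduct, dotProduct_smul, smul_eq_mul, smul_eq_mul]
    ring
  rw [e, mul_sub, inv_mul_cancel_left₀ hne]
  ring

/-- the phase in the coordinates `B` is `|ζ|²` to second order -/
theorem good_dot_of_min {φ : P n → ℝ} (hφ : Measurable φ) {C : ℝ≥0∞} (h : Good φ C) {ξ₀ : P n}
    {H : Matrix (Fin n) (Fin n) ℝ} (hH : ∀ h : P n, h ≠ 0 → 0 < h ⬝ᵥ (H *ᵥ h))
    (hE : (fun h : P n => φ (ξ₀ + h) - φ ξ₀ - h ⬝ᵥ (H *ᵥ h)) =o[𝓝 0] fun h => ‖h‖ ^ 2) :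
    Good (fun ζ : P n => ζ ⬝ᵥ ζ) C := by
  obtain ⟨B, hB, hBH⟩ := exists_coords H hH
  -- the form `ζ·Hζ` itself
  have h1 : Good (fun ζ : P n => ζ ⬝ᵥ (H *ᵥ ζ)) C := by
    have hm : Continuous fun ζ : P n => ζ ⬝ᵥ (H *ᵥ ζ) :=
      continuous_dot.comp (continuous_id.prodMk (continuous_const.matrix_mulVec continuous_id))
    refine good_of_tendsto hm.measurable
      (ψ := fun j ζ => (sc j ^ 2)⁻¹ * (φ (ξ₀ + sc j • ζ) - φ ξ₀)) (fun j => ?_)
      (Eventually.of_forall fun ζ => tendsto_zoom hE ζ) (fun j => ?_)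
    · refine ((hφ.comp (measurable_const.add ?_)).sub_const _).const_mul _
      exact (continuous_const_smul (sc j)).measurable
    · have hdet : ((sc j) • (1 : Matrix (Fin n) (Fin n) ℝ)).det ≠ 0 := by
        rw [det_smul, det_one, mul_one]
        exact pow_ne_zero _ (sc_pos j).ne'
      have h2 := good_aff hφ h hdet ξ₀
      have hm2 : Measurable fun ζ : P n => φ (aff ((sc j) • (1 : Matrix (Fin n) (Fin n) ℝ)) ξ₀ ζ) :=
        hφ.comp (continuous_aff _ _).measurable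
      have hg : Monotone fun r : ℝ => (sc j ^ 2)⁻¹ * (r - φ ξ₀) := by
        intro r s hrs
        have := inv_pos.2 (pow_pos (sc_pos j) 2)
        exact mul_le_mul_of_nonneg_left (sub_le_sub_right hrs _) this.le
      have h3 := good_monotone_comp hm2 h2 hg
      refine (iff_of_eq (congrArg (Good · C) ?_)).1 h3
      ext ζ
      rw [aff, smul_mulVec, one_mulVec, add_comm]
  have hm : Measurable fun ζ : P n => ζ ⬝ᵥ (H *ᵥ ζ) :=
    (continuous_dot.comp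
      (continuous_id.prodMk (continuous_const.matrix_mulVec continuous_id))).measurable
  have h4 := good_aff hm h1 hB 0
  refine (iff_of_eq (congrArg (Good · C) ?_)).1 h4
  ext ζ
  rw [aff, add_zero, hBH]
  simp [dotProduct, pow_two]

/-- **Blow-up at a curved point.** -/
theorem good_par_of_curved {d : ℕ} {φ : P (d + 1) → ℝ} (hφ : Measurable φ) {C : ℝ≥0∞}
    (h : Good φ C) {ξ₀ a : P (d + 1)} (ha : a ≠ 0) {H : Matrix (Fin (d + 1)) (Fin (d + 1)) ℝ}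
    (hH : ∀ h : P (d + 1), a ⬝ᵥ h = 0 → h ≠ 0 → 0 < h ⬝ᵥ (H *ᵥ h))
    (hE : (fun h : P (d + 1) => φ (ξ₀ + h) - φ ξ₀ - a ⬝ᵥ h - h ⬝ᵥ (H *ᵥ h)) =o[𝓝 0]
      fun h => ‖h‖ ^ 2) :
    Good (par (d := d)) C := by
  obtain ⟨B, hB, hBa, hBH⟩ := exists_coords_par a ha H hH
  set M : ℕ → Matrix (Fin (d + 1)) (Fin (d + 1)) ℝ := fun j => B * (sc j • diagLast d (sc j))
    with hM
  have hdet : ∀ j, (M j).det ≠ 0 := by
    intro j
    rw [hM]
    simp only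
    rw [det_mul, det_smul, diagLast, det_diagonal, Fin.prod_univ_castSucc]
    simp only [Fin.snoc_castSucc, Finset.prod_const_one, Fin.snoc_last, one_mul]
    exact mul_ne_zero hB (mul_ne_zero (pow_ne_zero _ (sc_pos j).ne') (sc_pos j).ne')
  -- the blown up phases
  set k : ℕ → P (d + 1) → P (d + 1) := fun j ζ => B *ᵥ (diagLast d (sc j) *ᵥ ζ) with hk
  have hMk : ∀ j ζ, M j *ᵥ ζ = sc j • k j ζ := by
    intro j ζ
    rw [hM, hk]
    simp only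
    rw [← mulVec_mulVec, smul_mulVec, mulVec_smul]
  refine good_of_tendsto continuous_par.measurable
    (ψ := fun j ζ => (sc j ^ 2)⁻¹ * (φ (ξ₀ + M j *ᵥ ζ) - φ ξ₀)) (fun j => ?_)
    (Eventually.of_forall fun ζ => ?_) (fun j => ?_)
  · refine ((hφ.comp (measurable_const.add ?_)).sub_const _).const_mul _
    exact (continuous_const.matrix_mulVec continuous_id).measurable
  · -- the limit
    set ζ₀ : P (d + 1) := Fin.snoc (fun i : Fin d => ζ i.castSucc) 0 with hζ₀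
    have hlim0 : Tendsto (fun j => diagLast d (sc j) *ᵥ ζ) atTop (𝓝 ζ₀) := by
      rw [tendsto_pi_nhds]
      intro i
      simp only [diagLast_mulVec]
      refine Fin.lastCases ?_ (fun i => ?_) i
      · simp only [Fin.snoc_last, hζ₀]
        simpa using tendsto_sc.mul_const (ζ (Fin.last d))
      · simp [hζ₀]
    have hcB : Continuous fun ζ : P (d + 1) => B *ᵥ ζ :=
      continuous_const.matrix_mulVec continuous_id
    have hlim : Tendsto (fun j => k j ζ) atTop (𝓝 (B *ᵥ ζ₀)) := (hcB.tendsto ζ₀).comp hlim0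
    have hq : Tendsto (fun j => k j ζ ⬝ᵥ (H *ᵥ k j ζ)) atTop
        (𝓝 ((B *ᵥ ζ₀) ⬝ᵥ (H *ᵥ (B *ᵥ ζ₀)))) := by
      have hc : Continuous fun y : P (d + 1) => y ⬝ᵥ (H *ᵥ y) :=
        continuous_dot.comp (continuous_id.prodMk (continuous_const.matrix_mulVec continuous_id))
      exact (hc.tendsto _).comp hlim
    have hq0 : (B *ᵥ ζ₀) ⬝ᵥ (H *ᵥ (B *ᵥ ζ₀)) = ∑ i : Fin d, ζ i.castSucc ^ 2 := by
      rw [hBH ζ₀ (by simp [hζ₀])]
      simp [hζ₀]
    have h1 := ((tendsto_littleO hE hlim).add hq).add_const (ζ (Fin.last d))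
    rw [zero_add, hq0] at h1
    have hpar : par ζ = (∑ i : Fin d, ζ i.castSucc ^ 2) + ζ (Fin.last d) := add_comm _ _
    rw [hpar]
    refine h1.congr fun j => ?_
    have hne := (pow_pos (sc_pos j) 2).ne'
    have e1 : (sc j • k j ζ) ⬝ᵥ (H *ᵥ (sc j • k j ζ)) = sc j ^ 2 * (k j ζ ⬝ᵥ (H *ᵥ k j ζ)) := by
      rw [mulVec_smul, smul_dotProduct, dotProduct_smul, smul_eq_mul, smul_eq_mul]
      ring
    have e2 : a ⬝ᵥ (sc j • k j ζ) = sc j ^ 2 * ζ (Fin.last d) := by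
      rw [dotProduct_smul, hk]
      simp only
      rw [hBa, diagLast_mulVec, Fin.snoc_last, smul_eq_mul]
      ring
    rw [hMk, e1, e2, mul_sub, mul_sub, inv_mul_cancel_left₀ hne, inv_mul_cancel_left₀ hne]
    ring
  · have h2 := good_aff hφ h (hdet j) ξ₀
    have hm2 : Measurable fun ζ : P (d + 1) => φ (aff (M j) ξ₀ ζ) :=
      hφ.comp (continuous_aff _ _).measurable
    have hg : Monotone fun r : ℝ => (sc j ^ 2)⁻¹ * (r - φ ξ₀) := by
      intro r s hrs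
      have := inv_pos.2 (pow_pos (sc_pos j) 2)
      exact mul_le_mul_of_nonneg_left (sub_le_sub_right hrs _) this.le
    have h3 := good_monotone_comp hm2 h2 hg
    refine (iff_of_eq (congrArg (Good · C) ?_)).1 h3
    ext ζ
    rw [aff, add_comm]

end Pool.Agent.Helper32.MF
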